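import Pool.Agent.MP_05ef64_al.Toric

set_option autoImplicit false

/-!
# Betti numbers against the Apery set
-/

namespace Pool.Agent.MP_05ef64_al

open Matrix MvPolynomial

variable {k : Type*} [Field k]

/-- A free resolution of `S / I_g`, in matrix form. -/
structure IsRes (k : Type*) [Field k] {e : ℕ} (g : Fin e → ℕ) (r : ℕ → ℕ)
    (d : ∀ n, Matrix (Fin (r n)) (Fin (r (n + 1))) (MvPolynomial (Fin e) k)) : Prop where
  r0 : r 0 = 1
  aug : ∀ v : Fin (r 0) → MvPolynomial (Fin e) k,
    v ∈ LinearMap.range (d 0).mulVecLin ↔ ∀ a, v a ∈ RingHom.ker (par k g)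
  exact : ∀ n, LinearMap.ker (d n).mulVecLin = LinearMap.range (d (n + 1)).mulVecLin

section
variable {e : ℕ} {g : Fin e → ℕ} {r : ℕ → ℕ}
  {d : ∀ n, Matrix (Fin (r n)) (Fin (r (n + 1))) (MvPolynomial (Fin e) k)}

lemma IsRes.exactPos (h : IsRes k g r d) : ExactPos r d := by
  intro n v
  have h1 := h.exact n
  constructor
  · intro hv
    have : v ∈ LinearMap.ker (d n).mulVecLin := by simpa using hv
    rw [h1] at this
    obtain ⟨u, hu⟩ := this
    exact ⟨u, by simpa using hu.symm⟩
  · rintro ⟨u, rfl⟩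
    have : d (n + 1) *ᵥ u ∈ LinearMap.ker (d n).mulVecLin := by
      rw [h1]; exact ⟨u, by simp⟩
    simpa using this

lemma IsRes.aug' (h : IsRes k g r d) (v : Fin (r 0) → MvPolynomial (Fin e) k) :
    (∃ u, v = d 0 *ᵥ u) ↔ ∀ a, v a ∈ RingHom.ker (par k g) := by
  rw [← h.aug v]
  constructor
  · rintro ⟨u, rfl⟩; exact ⟨u, by simp⟩
  · rintro ⟨u, hu⟩; exact ⟨u, by simpa using hu.symm⟩

lemma ker_par_cancel {p : MvPolynomial (Fin e) k} (i : Fin e)
    (hp : X i * p ∈ RingHom.ker (par k g)) : p ∈ RingHom.ker (par k g) := by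
  rw [mem_ker_par, map_mul] at hp
  rcases mul_eq_zero.1 hp with h | h
  · rw [aeval_X] at h
    exact absurd h (pow_ne_zero _ Polynomial.X_ne_zero)
  · exact (mem_ker_par g).2 h

lemma IsRes.reg (h : IsRes k g r d) (i : Fin e) (v : Fin (r 0) → MvPolynomial (Fin e) k)
    (hv : ∃ u, (X i : MvPolynomial (Fin e) k) • v = d 0 *ᵥ u) : ∃ u, v = d 0 *ᵥ u := by
  rw [h.aug'] at hv ⊢
  exact fun a => ker_par_cancel i (hv a)

end

section
variable {m : ℕ} {g : Fin (m + 1) → ℕ} {r : ℕ → ℕ}
  {d : ∀ n, Matrix (Fin (r n)) (Fin (r (n + 1))) (MvPolynomial (Fin (m + 1)) k)}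

lemma IsRes.range_map (h : IsRes k g r d) (i : Fin (m + 1))
    (w : Fin (r 0) → MvPolynomial (Fin m) k) :
    (∃ u, w = (d 0).map (killVar k i) *ᵥ u) ↔ ∀ a, w a ∈ Ibar k g i := by
  have hK := kill_killVar k i
  constructor
  · rintro ⟨u, rfl⟩ a
    obtain ⟨u, rfl⟩ := hK.lift u
    refine (mem_Ibar g i).2 ⟨(d 0 *ᵥ u) a, (h.aug' _).1 ⟨u, rfl⟩ a, ?_⟩
    exact congrFun (map_mulVec' (killVar k i :
      MvPolynomial (Fin (m + 1)) k →+* MvPolynomial (Fin m) k) (d 0) u) a
  · intro hw
    choose q hq hqw using fun a => (mem_Ibar g i).1 (hw a)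
    obtain ⟨u, hu⟩ := (h.aug' q).2 hq
    refine ⟨killVar k i ∘ u, ?_⟩
    have h1 := map_mulVec' (killVar k i :
      MvPolynomial (Fin (m + 1)) k →+* MvPolynomial (Fin m) k) (d 0) u
    rw [← hu] at h1
    rw [← funext hqw]
    exact h1

lemma IsRes.killed (h : IsRes k g r d) (i : Fin (m + 1)) :
    ExactPos r (fun n => (d n).map (killVar k i)) :=
  h.exactPos.map (kill_killVar k i) (h.reg i)

/-- Socle family from maximal elements of the Apery set. -/
lemma IsRes.socFam (h : IsRes k g r d) (i : Fin (m + 1)) (M : Finset ℕ)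
    (hM : ∀ n ∈ M, MaxAp g i n) :
    ∃ v : Fin M.card → Fin (r 0) → MvPolynomial (Fin m) k,
      SocFam ((d 0).map (killVar k i)) v := by
  classical
  have hu : ∀ n : M, ∃ u : Fin m →₀ ℕ, Finsupp.weight (fun l => g (i.succAbove l)) u = n := by
    intro n
    obtain ⟨⟨⟨u, hu⟩, h1⟩, _⟩ := hM n n.2
    refine ⟨res0 i u, ?_⟩
    rw [← weight_ext0 g i, ext0_res0 i (h1 u hu), hu]
  choose u hu using hu
  let ε : M ≃ Fin M.card := M.equivFin
  have h0 : 0 < r 0 := by rw [h.r0]; exact Nat.one_pos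
  refine ⟨fun j _ => monomial (u (ε.symm j)) 1, ?_, ?_⟩
  · intro j l
    rw [h.range_map]
    intro _
    have h1 := (hM _ (ε.symm j).2).2 l
    have h2 : (X l * monomial (u (ε.symm j)) 1 : MvPolynomial (Fin m) k)
        = monomial (u (ε.symm j) + Finsupp.single l 1) 1 := by
      rw [X, monomial_mul, mul_one, add_comm]
    show X l * monomial (u (ε.symm j)) 1 ∈ Ibar k g i
    rw [h2]
    apply monomial_mem_Ibar
    rw [map_add, hu, Finsupp.weight_single, smul_eq_mul, one_mul]
    exact h1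
  · intro c hc
    rw [h.range_map] at hc
    funext j
    have h1 := coeff_eq_zero_of_mem_Ibar g i (hM _ (ε.symm j).2).1 (hc ⟨0, h0⟩)
    simp only [Finset.sum_apply, Pi.smul_apply, smul_eq_mul, C_mul_monomial, mul_one, map_sum,
      par_monomial, hu, Polynomial.finsetSum_coeff, Polynomial.coeff_monomial] at h1
    rw [Finset.sum_eq_single j] at h1
    · simpa using h1
    · intro b _ hb
      rw [if_neg]
      intro h2
      exact hb (ε.symm.injective (Subtype.ext h2))
    · simp

/-- `t ≤ r_{e-1}`. -/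
theorem IsRes.card_le (h : IsRes k g r d) (i : Fin (m + 1)) (M : Finset ℕ)
    (hM : ∀ n ∈ M, MaxAp g i n) : M.card ≤ r m := by
  obtain ⟨v, hv⟩ := h.socFam i M hM
  exact SocFam.card_le (h.killed i) hv

/-- The number of generators of the last syzygy module bounds the type. -/
theorem IsRes.le_card (h : IsRes k g r d) (hmin : MinRes r d) (i : Fin (m + 1)) (M : Finset ℕ)
    (hM : ∀ n, MaxAp g i n → n ∈ M) : r m ≤ M.card := by
  classical
  have hmin' : MinRes r (fun n => (d n).map (killVar k i)) := by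
    intro n a b
    rw [← hmin n a b]
    exact constantCoeff_killVar i (d n a b)
  obtain ⟨v, hv⟩ := exists_socFam (h.killed i) hmin'
  have h0 : 0 < r 0 := by rw [h.r0]; exact Nat.one_pos
  have hsub : ∀ a : Fin (r 0), a = ⟨0, h0⟩ := fun a => by
    ext
    have := a.2
    have := h.r0
    simp only
    omega
  set g' : Fin m → ℕ := fun l => g (i.succAbove l) with hg'
  have hli : LinearIndependent k
      (fun j : Fin (r m) => (fun n : M => (par k g' (v j ⟨0, h0⟩)).coeff n : M → k)) := by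
    rw [Fintype.linearIndependent_iff]
    intro c hc
    have : c = 0 := by
      refine hv.indep c ?_
      rw [h.range_map]
      set P := (∑ j, (C (c j) : MvPolynomial (Fin m) k) • v j) with hP
      intro a
      rw [hsub a]
      have hcoef : ∀ n ∈ M, (par k g' (P ⟨0, h0⟩)).coeff n = 0 := by
        intro n hn
        have h1 := congrFun hc ⟨n, hn⟩
        simp only [Finset.sum_apply, Pi.smul_apply, smul_eq_mul, Pi.zero_apply] at h1
        rw [hP, ← h1]
        simp [Finset.sum_apply, Polynomial.coeff_C_mul]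
      have hsoc : ∀ l : Fin m, X l * P ⟨0, h0⟩ ∈ Ibar k g i := by
        intro l
        choose u hu using fun j => hv.soc j l
        have h1 : X l * P ⟨0, h0⟩ = ∑ j, C (c j) * (X l * v j ⟨0, h0⟩) := by
          rw [hP]
          simp only [Finset.sum_apply, Pi.smul_apply, smul_eq_mul, Finset.mul_sum]
          exact Finset.sum_congr rfl fun j _ => by ring
        rw [h1]
        refine Ideal.sum_mem _ fun j _ => Ideal.mul_mem_left _ _ ?_
        exact (h.range_map i _).1 (hv.soc j l) ⟨0, h0⟩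
      apply mem_Ibar_of_coeff
      intro n hn
      by_cases hmax : MaxAp g i n
      · exact hcoef n (hM n hmax)
      · unfold MaxAp at hmax
        push Not at hmax
        obtain ⟨l, hl⟩ := hmax hn
        have h1 := coeff_eq_zero_of_mem_Ibar g i hl (hsoc l)
        rw [map_mul, aeval_X, Polynomial.coeff_X_pow_mul] at h1
        exact h1
    exact fun j => congrFun this j
  have := hli.fintype_card_le_finrank
  simpa using this

/-- The projective dimension is at most `e - 1`. -/
theorem IsRes.last (h : IsRes k g r d) (hmin : MinRes r d) : r (m + 1) = 0 := by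
  obtain ⟨v, hv⟩ := exists_socFam h.exactPos hmin
  by_contra hne
  have hpos : 0 < r (m + 1) := Nat.pos_of_ne_zero hne
  have h1 := hv.soc ⟨0, hpos⟩ 0
  have h2 := h.reg 0 _ h1
  have h3 := hv.indep (Pi.single ⟨0, hpos⟩ 1) ?_
  · have := congrFun h3 ⟨0, hpos⟩
    simp at this
  · obtain ⟨u, hu⟩ := h2
    refine ⟨u, ?_⟩
    rw [← hu, Finset.sum_eq_single ⟨0, hpos⟩]
    · simp
    · intro b _ hb
      rw [Pi.single_eq_of_ne hb]; simp
    · simp

end

/-- Second lower bound: `t ≤ r_{e-2}`. -/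
theorem IsRes.card_le' {m : ℕ} {g : Fin (m + 2) → ℕ} {r : ℕ → ℕ}
    {d : ∀ n, Matrix (Fin (r n)) (Fin (r (n + 1))) (MvPolynomial (Fin (m + 2)) k)}
    (h : IsRes k g r d) (i : Fin (m + 2)) (M : Finset ℕ)
    (hM : ∀ n ∈ M, MaxAp g i n) : M.card ≤ r m := by
  obtain ⟨v, hv⟩ := h.socFam i M hM
  exact SocFam.card_le' (h.killed i) hv

end Pool.Agent.MP_05ef64_al
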