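import Pool.Agent.MP_05ef64_al.Bounds

set_option autoImplicit false

/-!
# Numbers of generators and the Euler characteristic
-/

namespace Pool.Agent.MP_05ef64_al

open Matrix MvPolynomial

variable {k : Type*} [Field k] {e : ℕ} {g : Fin e → ℕ} {r : ℕ → ℕ}
  {d : ∀ n, Matrix (Fin (r n)) (Fin (r (n + 1))) (MvPolynomial (Fin e) k)}

/-- Lower bound for `r 1` through linear functionals vanishing on `𝔪 I`. -/
theorem IsRes.functional_le (h : IsRes k g r d) {V : Type*} [AddCommGroup V] [Module k V]
    (lam : MvPolynomial (Fin e) k →ₗ[k] V)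
    (hlam : ∀ (l : Fin e) (u v : Fin e →₀ ℕ), Finsupp.weight g u = Finsupp.weight g v →
      lam (monomial (u + Finsupp.single l 1) 1) = lam (monomial (v + Finsupp.single l 1) 1))
    {M : ℕ} (b : Fin M → MvPolynomial (Fin e) k) (hb : ∀ j, b j ∈ RingHom.ker (par k g))
    (hli : LinearIndependent k (fun j => lam (b j))) : M ≤ r 1 := by
  classical
  have h0 : 0 < r 0 := by rw [h.r0]; exact Nat.one_pos
  let a0 : Fin (r 0) := ⟨0, h0⟩
  have hcol : ∀ c, d 0 a0 c ∈ RingHom.ker (par k g) := by
    intro c
    have h1 := (h.aug' ((d 0).col c)).1 ⟨Pi.single c 1, by simp⟩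
    exact h1 a0
  let W : Submodule k V := Submodule.span k (Set.range (fun c => lam (d 0 a0 c)))
  have hW : ∀ j, lam (b j) ∈ W := by
    intro j
    obtain ⟨u, hu⟩ := (h.aug' (fun _ => b j)).2 (fun _ => hb j)
    have h1 : b j = ∑ c, u c * d 0 a0 c := by
      have h2 := congrFun hu a0
      simp only [mulVec, dotProduct] at h2
      rw [h2]
      exact Finset.sum_congr rfl fun c _ => mul_comm _ _
    rw [h1, map_sum]
    refine W.sum_mem fun c _ => ?_
    rw [functional_mul g lam hlam _ _ (hcol c)]
    exact W.smul_mem _ (Submodule.subset_span ⟨c, rfl⟩)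
  have hfin : Module.Finite k W := Module.Finite.span_of_finite k (Set.finite_range _)
  have hli' : LinearIndependent k (fun j => (⟨lam (b j), hW j⟩ : W)) := by
    apply LinearIndependent.of_comp W.subtype
    exact hli
  have h3 := hli'.fintype_card_le_finrank
  have h4 : Module.finrank k W ≤ Fintype.card (Fin (r 1)) := finrank_range_le_card _
  simp only [Fintype.card_fin] at h3 h4
  exact h3.trans h4

/-- Upper bound for `r 1` for minimal resolutions. -/
theorem IsRes.le_gens (h : IsRes k g r d) (hmin : MinRes r d) {N : ℕ}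
    (f : Fin N → MvPolynomial (Fin e) k)
    (hf : Ideal.span (Set.range f) = RingHom.ker (par k g)) : r 1 ≤ N := by
  classical
  have h0 : 0 < r 0 := by rw [h.r0]; exact Nat.one_pos
  let a0 : Fin (r 0) := ⟨0, h0⟩
  have hsub : ∀ a : Fin (r 0), a = a0 := fun a => by
    ext
    have := a.2
    have := h.r0
    simp only [a0]
    omega
  have hfm : ∀ j, f j ∈ RingHom.ker (par k g) := fun j => by
    rw [← hf]; exact Ideal.subset_span ⟨j, rfl⟩
  choose u hu using fun j => (h.aug' (fun _ => f j)).2 (fun _ => hfm j)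
  let W : Submodule k (Fin (r 1) → k) :=
    Submodule.span k (Set.range (fun j => (fun c => constantCoeff (u j c) : Fin (r 1) → k)))
  have hW : W = ⊤ := by
    rw [eq_top_iff]
    intro x _
    rw [pi_eq_sum_univ x]
    refine W.sum_mem fun c _ => W.smul_mem _ ?_
    -- the standard basis vector
    have h1 : d 0 a0 c ∈ RingHom.ker (par k g) := (h.aug' ((d 0).col c)).1 ⟨Pi.single c 1, by simp⟩ a0
    rw [← hf] at h1
    obtain ⟨q, hq⟩ := (Ideal.mem_span_range_iff_exists_fun).1 h1
    have h2 : d 0 *ᵥ (Pi.single c 1 - ∑ j, q j • u j) = 0 := by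
      rw [mulVec_sub, mulVec_single_one, mulVec_sum, sub_eq_zero]
      funext a
      rw [hsub a]
      have h3 : ∀ j, (d 0 *ᵥ (q j • u j)) a0 = q j * f j := by
        intro j
        rw [mulVec_smul, ← hu j]
        simp
      rw [Finset.sum_apply, Finset.sum_congr rfl fun j _ => h3 j, hq]
      rfl
    obtain ⟨w, hw⟩ := (h.exactPos 0 _).1 h2
    have h4 : ∀ c', constantCoeff ((Pi.single c 1 - ∑ j, q j • u j : Fin (r 1) → _) c') = 0 := by
      intro c'
      rw [hw]
      simp only [mulVec, dotProduct, map_sum, map_mul]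
      exact Finset.sum_eq_zero fun x _ => by rw [hmin 1 c' x, zero_mul]
    have h5 : (fun j => if c = j then 1 else 0 : Fin (r 1) → k)
        = ∑ j, constantCoeff (q j) • (fun c => constantCoeff (u j c) : Fin (r 1) → k) := by
      funext c'
      have h6 := h4 c'
      simp only [Pi.sub_apply, Finset.sum_apply, Pi.smul_apply, smul_eq_mul, map_sub, map_sum,
        map_mul, sub_eq_zero] at h6 ⊢
      rw [← h6]
      by_cases hc : c = c'
      · subst hc; simp
      · rw [if_neg hc, Pi.single_eq_of_ne (Ne.symm hc), map_zero]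
    rw [h5]
    exact W.sum_mem fun j _ => W.smul_mem _ (Submodule.subset_span ⟨j, rfl⟩)
  have h7 : Module.finrank k W ≤ Fintype.card (Fin N) := finrank_range_le_card _
  rw [hW, finrank_top] at h7
  simpa using h7

lemma finrank_ker_add_range {R : Type*} [CommRing R] [IsDomain R] {a b : ℕ}
    (D : Matrix (Fin a) (Fin b) R) :
    Module.finrank R (LinearMap.ker D.mulVecLin) + Module.finrank R (LinearMap.range D.mulVecLin)
      = b := by
  have h1 := Submodule.finrank_quotient_add_finrank (LinearMap.ker D.mulVecLin)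
  rw [(LinearMap.quotKerEquivRange D.mulVecLin).finrank_eq] at h1
  rw [add_comm, h1]
  simp

/-- The Euler characteristic bound. -/
theorem IsRes.euler (h : IsRes k g r d) : r 2 ≤ r 1 + r 3 := by
  have e0 := finrank_ker_add_range (d 0)
  have e1 := finrank_ker_add_range (d 1)
  have e2 := finrank_ker_add_range (d 2)
  rw [h.exact 0] at e0
  rw [h.exact 1] at e1
  simp only [Nat.reduceAdd] at e0 e1 e2
  omega

end Pool.Agent.MP_05ef64_al
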