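import Pool.Agent.MP_05ef64_al.Comb
import Pool.Agent.MP_05ef64_al.Gens

set_option autoImplicit false

/-!
# From the combinatorics to the ideal, four variables
-/

namespace Pool.Agent.MP_05ef64_al

open MvPolynomial

/-- `i, y, z, w` enumerate `Fin 4`. -/
structure Enum4 (i y z w : Fin 4) : Prop where
  iy : i ≠ y
  iz : i ≠ z
  iw : i ≠ w
  yz : y ≠ z
  yw : y ≠ w
  zw : z ≠ w

section
variable {i y z w : Fin 4}

lemma Enum4.all (h : Enum4 i y z w) (l : Fin 4) : l = i ∨ l = y ∨ l = z ∨ l = w := by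
  have key : ∀ i y z w : Fin 4, i ≠ y → i ≠ z → i ≠ w → y ≠ z → y ≠ w → z ≠ w →
      ∀ l : Fin 4, l = i ∨ l = y ∨ l = z ∨ l = w := by decide
  exact key i y z w h.iy h.iz h.iw h.yz h.yw h.zw l

lemma Enum4.sum (h : Enum4 i y z w) (f : Fin 4 → ℕ) : ∑ l, f l = f i + f y + f z + f w := by
  have h1 : (Finset.univ : Finset (Fin 4)) = {i, y, z, w} := by
    symm
    rw [Finset.eq_univ_iff_forall]
    intro l
    simpa using h.all l
  rw [h1, Finset.sum_insert, Finset.sum_insert, Finset.sum_insert, Finset.sum_singleton]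
  · ring
  · simpa using h.zw
  · simp [h.yz, h.yw]
  · simp [h.iy, h.iz, h.iw]

variable (g : Fin 4 → ℕ)

lemma Enum4.weight (h : Enum4 i y z w) (u : Fin 4 →₀ ℕ) :
    Finsupp.weight g u = u i * g i + u y * g y + u z * g z + u w * g w := by
  rw [weight_eq, h.sum]

/-- Exponent vectors from quadruples. -/
noncomputable def E (i y z w : Fin 4) (s j p q : ℕ) : Fin 4 →₀ ℕ :=
  Finsupp.single i s + Finsupp.single y j + Finsupp.single z p + Finsupp.single w q

lemma Enum4.E_i (h : Enum4 i y z w) (s j p q : ℕ) : E i y z w s j p q i = s := by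
  simp [E, h.iy.symm, h.iz.symm, h.iw.symm]

lemma Enum4.E_y (h : Enum4 i y z w) (s j p q : ℕ) : E i y z w s j p q y = j := by
  simp [E, h.iy, h.yz.symm, h.yw.symm]

lemma Enum4.E_z (h : Enum4 i y z w) (s j p q : ℕ) : E i y z w s j p q z = p := by
  simp [E, h.iz, h.yz, h.zw.symm]

lemma Enum4.E_w (h : Enum4 i y z w) (s j p q : ℕ) : E i y z w s j p q w = q := by
  simp [E, h.iw, h.yw, h.zw]

lemma Enum4.ext (h : Enum4 i y z w) {u v : Fin 4 →₀ ℕ} (hi : u i = v i) (hy : u y = v y)
    (hz : u z = v z) (hw : u w = v w) : u = v := by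
  ext l
  rcases h.all l with rfl | rfl | rfl | rfl <;> assumption

lemma Enum4.eq_E (h : Enum4 i y z w) (u : Fin 4 →₀ ℕ) : u = E i y z w (u i) (u y) (u z) (u w) :=
  h.ext (h.E_i _ _ _ _).symm (h.E_y _ _ _ _).symm (h.E_z _ _ _ _).symm (h.E_w _ _ _ _).symm

lemma Enum4.weight_E (h : Enum4 i y z w) (s j p q : ℕ) :
    Finsupp.weight g (E i y z w s j p q) = s * g i + j * g y + p * g z + q * g w := by
  rw [h.weight, h.E_i, h.E_y, h.E_z, h.E_w]

lemma E_add (s j p q s' j' p' q' : ℕ) : E i y z w s j p q + E i y z w s' j' p' q'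
    = E i y z w (s + s') (j + j') (p + p') (q + q') := by
  simp only [E, Finsupp.single_add]
  abel

lemma Enum4.ap_iff (h : Enum4 i y z w) (n : ℕ) :
    Ap g i n ↔ P (g i) (g y) (g z) (g w) n := by
  constructor
  · rintro ⟨⟨u, hu⟩, h2⟩
    have h0 := h2 u hu
    refine ⟨⟨u y, u z, u w, ?_⟩, ?_⟩
    · rw [← hu, h.weight, h0]; ring
    · intro s j p q hs
      have := h2 (E i y z w s j p q) (by rw [h.weight_E, hs])
      rwa [h.E_i] at this
  · rintro ⟨⟨j, p, q, h1⟩, h2⟩
    refine ⟨⟨E i y z w 0 j p q, by rw [h.weight_E, ← h1]; ring⟩, ?_⟩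
    intro u hu
    exact h2 (u i) (u y) (u z) (u w) (by rw [← h.weight, hu])

lemma Enum4.maxAp_iff (h : Enum4 i y z w) (n : ℕ) :
    MaxAp g i n ↔ (P (g i) (g y) (g z) (g w) n ∧ ¬ P (g i) (g y) (g z) (g w) (n + g y) ∧
      ¬ P (g i) (g y) (g z) (g w) (n + g z) ∧ ¬ P (g i) (g y) (g z) (g w) (n + g w)) := by
  unfold MaxAp
  constructor
  · rintro ⟨h1, h2⟩
    refine ⟨(h.ap_iff g n).1 h1, ?_, ?_, ?_⟩
    · obtain ⟨l, hl⟩ := Fin.exists_succAbove_eq h.iy.symm
      have := h2 l
      rwa [h.ap_iff, hl] at this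
    · obtain ⟨l, hl⟩ := Fin.exists_succAbove_eq h.iz.symm
      have := h2 l
      rwa [h.ap_iff, hl] at this
    · obtain ⟨l, hl⟩ := Fin.exists_succAbove_eq h.iw.symm
      have := h2 l
      rwa [h.ap_iff, hl] at this
  · rintro ⟨h1, hy, hz, hw⟩
    refine ⟨(h.ap_iff g n).2 h1, fun l => ?_⟩
    rw [h.ap_iff]
    rcases h.all (i.succAbove l) with hl | hl | hl | hl
    · exact absurd hl (Fin.succAbove_ne i l)
    · rwa [hl]
    · rwa [hl]
    · rwa [hl]

/-- The class of a triple as a set of exponent vectors. -/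
def cls (i y z w : Fin 4) (c s a b : ℕ) (u : Fin 4 →₀ ℕ) (μ : ℕ × ℕ × ℕ) : Prop :=
  u i = 0 ∧ ∃ κ : ℤ, (s = 0 ∨ κ = 0) ∧ (u y : ℤ) = μ.1 + κ * c ∧ (u z : ℤ) = μ.2.1 - κ * a ∧
    (u w : ℤ) = μ.2.2 - κ * b

variable {g} {c s a b : ℕ}

lemma cls_step (h : Enum4 i y z w) (K : KData (g i) (g y) (g z) (g w) c s a b)
    {μ : ℕ × ℕ × ℕ} (hμ : MinT (g i) (g y) (g z) (g w) c s a b μ.1 μ.2.1 μ.2.2) (l : Fin 4)
    (u v : Fin 4 →₀ ℕ) (huv : Finsupp.weight g u = Finsupp.weight g v)
    (hc : cls i y z w c s a b (u + Finsupp.single l 1) μ) :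
    cls i y z w c s a b (v + Finsupp.single l 1) μ := by
  obtain ⟨h0, κ, hκ, e1, e2, e3⟩ := hc
  have hli : l ≠ i := by
    rintro rfl
    simp at h0
  have hui : u i = 0 := by simpa [Finsupp.single_apply, hli] using h0
  -- weight of `u` is Apery
  have hPu : P (g i) (g y) (g z) (g w) (u y * g y + u z * g z + u w * g w) := by
    have hm := hμ.2 κ hκ _ _ _ e1 e2 e3
    rcases h.all l with rfl | rfl | rfl | rfl
    · exact absurd rfl hli
    · have := hm.1 (by simp)
      simpa [Finsupp.single_apply, h.yz, h.yw] using this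
    · have := hm.2.1 (by simp)
      simpa [Finsupp.single_apply, h.yz.symm, h.zw] using this
    · have := hm.2.2 (by simp)
      simpa [Finsupp.single_apply, h.yw.symm, h.zw.symm] using this
  have hwu : Finsupp.weight g u = u y * g y + u z * g z + u w * g w := by
    rw [h.weight, hui]; ring
  have hvi : v i = 0 := hPu.2 (v i) (v y) (v z) (v w) (by rw [← h.weight, ← huv, hwu])
  have hwv : Finsupp.weight g v = v y * g y + v z * g z + v w * g w := by
    rw [h.weight, hvi]; ring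
  have hPv : P (g i) (g y) (g z) (g w) (v y * g y + v z * g z + v w * g w) := by
    rw [← hwv, ← huv, hwu]; exact hPu
  obtain ⟨κ1, j1, a1, a2, a3, a4⟩ := K.exists_nf _ _ _ hPu
  obtain ⟨κ2, j2, b1, b2, b3, b4⟩ := K.exists_nf _ _ _ hPv
  obtain ⟨c1, c2, c3⟩ := K.uniq _ _ _ _ _ _ a1 b1 (by rw [a4]; exact hPu)
    (by rw [a4, b4, ← hwu, ← hwv, huv])
  refine ⟨by simp [hli, hvi], κ + (κ2 - κ1), ?_, ?_, ?_, ?_⟩
  · rcases hκ with hκ | hκ
    · exact Or.inl hκ
    · rcases a2 with a2 | a2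
      · exact Or.inl a2
      · rcases b2 with b2 | b2
        · exact Or.inl b2
        · right; rw [hκ, a2, b2]; simp
  · have a3' : (u y : ℤ) = j1 + κ1 * c := by exact_mod_cast a3
    have b3' : (v y : ℤ) = j2 + κ2 * c := by exact_mod_cast b3
    have c1' : (j1 : ℤ) = j2 := by exact_mod_cast c1
    simp only [Finsupp.add_apply, Nat.cast_add] at e1 ⊢
    linear_combination e1 + b3' - a3' - c1'
  · have c2' : (u z : ℤ) + κ1 * a = v z + κ2 * a := by exact_mod_cast c2
    simp only [Finsupp.add_apply, Nat.cast_add] at e2 ⊢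
    linear_combination e2 - c2'
  · have c3' : (u w : ℤ) + κ1 * b = v w + κ2 * b := by exact_mod_cast c3
    simp only [Finsupp.add_apply, Nat.cast_add] at e3 ⊢
    linear_combination e3 - c3'

variable {k : Type*} [Field k] {r : ℕ → ℕ}
  {d : ∀ n, Matrix (Fin (r n)) (Fin (r (n + 1))) (MvPolynomial (Fin 4) k)}

/-- The number of reduced minimal triples is at most `r 1`. -/
theorem card_min_le (h : Enum4 i y z w) (K : KData (g i) (g y) (g z) (g w) c s a b)
    (hR : IsRes k g r d) (F : Finset (ℕ × ℕ × ℕ))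
    (hF : ∀ μ ∈ F, MinT (g i) (g y) (g z) (g w) c s a b μ.1 μ.2.1 μ.2.2 ∧ (s = 0 → μ.1 < c)) :
    F.card ≤ r 1 := by
  classical
  let lam : MvPolynomial (Fin 4) k →ₗ[k] (F → k) :=
    (MvPolynomial.basisMonomials (Fin 4) k).constr k
      (fun u => fun μ : F => if cls i y z w c s a b u μ then 1 else 0)
  have hlam : ∀ u, lam (monomial u 1) = fun μ : F => if cls i y z w c s a b u μ then 1 else 0 := by
    intro u
    have := Module.Basis.constr_basis (MvPolynomial.basisMonomials (Fin 4) k) k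
      (fun u => (fun μ : F => if cls i y z w c s a b u μ then (1 : k) else 0)) u
    rwa [MvPolynomial.coe_basisMonomials] at this
  -- the binomials
  have hex : ∀ μ : F, ∃ v : Fin 4 →₀ ℕ, Finsupp.weight g v =
      μ.1.1 * g y + μ.1.2.1 * g z + μ.1.2.2 * g w ∧ v i ≠ 0 := by
    intro μ
    have h1 := (hF μ μ.2).1.1
    unfold P at h1
    push Not at h1
    obtain ⟨s', j', p', q', h2, h3⟩ := h1 ⟨_, _, _, rfl⟩
    exact ⟨E i y z w s' j' p' q', by rw [h.weight_E, h2], by rwa [h.E_i]⟩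
  choose V hV hVi using hex
  let ε : F ≃ Fin F.card := F.equivFin
  refine hR.functional_le lam ?_ (fun x : Fin F.card =>
    monomial (E i y z w 0 (ε.symm x).1.1 (ε.symm x).1.2.1 (ε.symm x).1.2.2) 1
      - monomial (V (ε.symm x)) 1) ?_ ?_
  · intro l u v huv
    rw [hlam, hlam]
    funext μ
    by_cases h1 : cls i y z w c s a b (u + Finsupp.single l 1) μ
    · rw [if_pos h1, if_pos (cls_step h K (hF μ μ.2).1 l u v huv h1)]
    · rw [if_neg h1, if_neg (fun h2 => h1 (cls_step h K (hF μ μ.2).1 l v u huv.symm h2))]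
  · intro x
    apply binom_mem
    rw [h.weight_E, hV]; ring
  · have h1 : ∀ x : Fin F.card, lam (monomial (E i y z w 0 (ε.symm x).1.1 (ε.symm x).1.2.1
        (ε.symm x).1.2.2) 1 - monomial (V (ε.symm x)) 1) = Pi.single (ε.symm x) 1 := by
      intro x
      rw [map_sub, hlam, hlam]
      funext ν
      have h2 : ¬ cls i y z w c s a b (V (ε.symm x)) ν := fun h3 => hVi _ h3.1
      rw [Pi.sub_apply, if_neg h2, sub_zero]
      by_cases hν : ν = ε.symm x
      · subst hν
        rw [if_pos, Pi.single_eq_same]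
        exact ⟨h.E_i _ _ _ _, 0, Or.inr rfl, by rw [h.E_y]; simp, by rw [h.E_z]; simp,
          by rw [h.E_w]; simp⟩
      · rw [if_neg, Pi.single_eq_of_ne hν]
        rintro ⟨_, κ, hκ, e1, e2, e3⟩
        rw [h.E_y] at e1
        rw [h.E_z] at e2
        rw [h.E_w] at e3
        have hκ0 : κ = 0 := by
          rcases hκ with hs | hκ
          · have l1 := (hF _ (ε.symm x).2).2 hs
            have l2 := (hF _ ν.2).2 hs
            have k1 := kappa_cases l2 e1
            have k2 := kappa_cases (κ := -κ) l1 (by rw [e1]; ring : (ν.1.1 : ℤ) = _)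
            omega
          · exact hκ
        subst hκ0
        simp only [zero_mul, add_zero, sub_zero, Nat.cast_inj] at e1 e2 e3
        apply hν
        apply Subtype.ext
        exact Prod.ext e1.symm (Prod.ext e2.symm e3.symm)
    simp only [h1]
    have h2 : LinearIndependent k (fun ν : F => (Pi.single ν 1 : F → k)) := by
      have := (Pi.basisFun k F).linearIndependent
      convert this using 1
      funext ν
      simp
    exact h2.comp _ ε.symm.injective

end

end Pool.Agent.MP_05ef64_al
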