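import Pool.Agent.MP_05ef64_al.CEConn

set_option autoImplicit false

/-!
# All points of equal weight are connected
-/

namespace Pool.Agent.MP_05ef64_al.CE

section
variable {M d x y z d' x' y' z' : ℤ}

lemma W_pos (hM : 4 ≤ M) (hQ : Q d x y z) (hd : 1 ≤ d) : 0 < W M d x y z := by
  obtain ⟨a1, a2, a3, a4, a5, a6⟩ := hQ
  unfold W
  have h1 : 0 < (2 * M + 1) * (2 * M * (M + 1)) := by positivity
  have h2 : 0 < (2 * M + 1) * (2 * M * (M + 1)) * d := by positivity
  have h3 : 0 ≤ (2 * M + 1) * x := by positivity
  have h4 : 0 ≤ 2 * M * (M + 1) * y := by positivity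
  have h5 : 0 ≤ (2 * M * (M + 1) + 1) * z := by positivity
  linarith

/-- Interior points exist in high degree. -/
lemma interior (hM : 4 ≤ M) (hQ : Q d x y z) (hd : 2 * M + 4 ≤ d) :
    ∃ d1 x1 y1 z1, Q d1 x1 y1 z1 ∧ W M d x y z = W M d1 x1 y1 z1 ∧ 0 < x1 ∧ x1 < d1 ∧
      0 < y1 ∧ y1 < d1 ∧ 0 < z1 ∧ z1 < d1 := by
  obtain ⟨a1, a2, a3, a4, a5, a6⟩ := hQ
  by_cases hx : x ≤ M + 1 <;> by_cases hy : y ≤ M + 1 <;> by_cases hz : z ≤ M + 1
  · exact ⟨d - 1, x + M, y + M, z + M,
      ⟨by omega, by omega, by omega, by omega, by omega, by omega⟩, by unfold W; ring,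
      by omega, by omega, by omega, by omega, by omega, by omega⟩
  · exact ⟨d, x + (M + 1), y + M, z - (M + 1),
      ⟨by omega, by omega, by omega, by omega, by omega, by omega⟩, by unfold W; ring,
      by omega, by omega, by omega, by omega, by omega, by omega⟩
  · exact ⟨d, x + M, y - (M + 1), z + M,
      ⟨by omega, by omega, by omega, by omega, by omega, by omega⟩, by unfold W; ring,
      by omega, by omega, by omega, by omega, by omega, by omega⟩
  · exact ⟨d + 1, x + (M + 1), y - (M + 1), z - (M + 1),
      ⟨by omega, by omega, by omega, by omega, by omega, by omega⟩, by unfold W; ring,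
      by omega, by omega, by omega, by omega, by omega, by omega⟩
  · exact ⟨d - 1, x - (M + 1), y + (M + 1), z + (M + 1),
      ⟨by omega, by omega, by omega, by omega, by omega, by omega⟩, by unfold W; ring,
      by omega, by omega, by omega, by omega, by omega, by omega⟩
  · exact ⟨d, x - M, y + (M + 1), z - M,
      ⟨by omega, by omega, by omega, by omega, by omega, by omega⟩, by unfold W; ring,
      by omega, by omega, by omega, by omega, by omega, by omega⟩
  · exact ⟨d, x - (M + 1), y - M, z + (M + 1),
      ⟨by omega, by omega, by omega, by omega, by omega, by omega⟩, by unfold W; ring,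
      by omega, by omega, by omega, by omega, by omega, by omega⟩
  · exact ⟨d + 1, x - M, y - M, z - M,
      ⟨by omega, by omega, by omega, by omega, by omega, by omega⟩, by unfold W; ring,
      by omega, by omega, by omega, by omega, by omega, by omega⟩

/-- The kernel of the weight. -/
lemma kernel (hM : 4 ≤ M) (h : W M d x y z = W M d' x' y' z') :
    ∃ α β γ ε : ℤ, (ε = 0 ∨ ε = 1) ∧ d' - d = -β - γ - ε ∧
      x' - x = α * (2 * M + 1) - γ + ε * M ∧ y' - y = -α + β * (2 * M + 1) + ε * M ∧
      z' - z = -α + γ * (2 * M + 1) + ε * M := by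
  obtain ⟨k, hk⟩ : ∃ k : ℤ, (z' - z) - (y' - y) = (2 * M + 1) * k := by
    refine ⟨-(2 * (2 * M * (M + 1)) * (d' - d) + 2 * (x' - x) + (2 * M + 1) * (y' - y)
      + (2 * M + 1) * (z' - z)), ?_⟩
    unfold W at h
    linear_combination (-2) * h
  have h2 := Int.emod_add_mul_ediv (k - (d' - d)) 2
  have h3 := Int.emod_two_eq_zero_or_one (k - (d' - d))
  set ε := (k - (d' - d)) % 2 with hε
  set q := (k - (d' - d)) / 2 with hq
  refine ⟨(q - k) * (2 * M + 1) + ε * M - (y' - y), q - k, q, ε, h3, ?_, ?_, ?_, ?_⟩
  · linarith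
  · have hm : (2 * M + 1) ≠ 0 := by omega
    apply mul_left_cancel₀ hm
    unfold W at h
    have hD : d' - d = -(q - k) - q - ε := by linarith
    have hZ : z' - z = (y' - y) + (2 * M + 1) * k := by linarith
    have hx : (2 * M + 1) * (x' - x) = -((2 * M + 1) * (2 * M * (M + 1)) * (d' - d))
        - 2 * M * (M + 1) * (y' - y) - (2 * M * (M + 1) + 1) * (z' - z) := by
      linear_combination (-1) * h
    rw [hx, hD, hZ]
    ring
  · ring
  · linear_combination hk

lemma bound_even (hM : 4 ≤ M) {α γ : ℤ} (h1 : α * (2 * M + 1) - γ ≤ 2 * M + 3)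
    (h2 : γ * (2 * M + 1) - α ≤ 2 * M + 3) : α ≤ 1 := by
  by_contra hc
  push Not at hc
  have h3 : (2 * M + 1) * (α * (2 * M + 1) - γ) ≤ (2 * M + 1) * (2 * M + 3) :=
    mul_le_mul_of_nonneg_left h1 (by omega)
  have h4 : α * (4 * M * (M + 1)) ≤ (2 * M + 2) * (2 * M + 3) := by nlinarith
  have h5 : 2 * (4 * M * (M + 1)) ≤ α * (4 * M * (M + 1)) := by
    apply mul_le_mul_of_nonneg_right (by omega)
    positivity
  nlinarith

lemma bound_odd (hM : 4 ≤ M) {α γ : ℤ} (h1 : α * (2 * M + 1) - γ + M ≤ 2 * M + 3)
    (h2 : γ * (2 * M + 1) - α + M ≤ 2 * M + 3) : α ≤ 0 := by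
  by_contra hc
  push Not at hc
  have h3 : (2 * M + 1) * (α * (2 * M + 1) - γ + M) ≤ (2 * M + 1) * (2 * M + 3) :=
    mul_le_mul_of_nonneg_left h1 (by omega)
  have h4 : α * (4 * M * (M + 1)) ≤ (2 * M + 2) * (M + 3) := by nlinarith
  have h5 : 1 * (4 * M * (M + 1)) ≤ α * (4 * M * (M + 1)) := by
    apply mul_le_mul_of_nonneg_right (by omega)
    positivity
  nlinarith

lemma bound_odd' (hM : 4 ≤ M) {α γ : ℤ} (h1 : -(2 * M + 3) ≤ α * (2 * M + 1) - γ + M)
    (h2 : -(2 * M + 3) ≤ γ * (2 * M + 1) - α + M) : -1 ≤ α := by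
  by_contra hc
  push Not at hc
  have h3 : (2 * M + 1) * (-(2 * M + 3)) ≤ (2 * M + 1) * (α * (2 * M + 1) - γ + M) :=
    mul_le_mul_of_nonneg_left h1 (by omega)
  have h4 : -((2 * M + 2) * (3 * M + 3)) ≤ α * (4 * M * (M + 1)) := by nlinarith
  have h5 : α * (4 * M * (M + 1)) ≤ (-2) * (4 * M * (M + 1)) := by
    apply mul_le_mul_of_nonneg_right (by omega)
    positivity
  nlinarith

/-- **Connectivity.** -/
theorem conn_all (hM : 4 ≤ M) (hQ : Q d x y z) (hQ' : Q d' x' y' z')
    (hW : W M d x y z = W M d' x' y' z') : Conn M d x y z d' x' y' z' := by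
  have hself : ∀ {d x y z : ℤ}, Q d x y z → Conn M d x y z d x y z := by
    intro d x y z h
    obtain ⟨a1, a2, a3, a4, a5, a6⟩ := id h
    by_cases hd : 1 ≤ d
    · refine Conn.share h h hd hd rfl ?_ ?_ ?_ <;> unfold NC <;> omega
    · obtain rfl : d = 0 := by omega
      obtain rfl : x = 0 := by omega
      obtain rfl : y = 0 := by omega
      obtain rfl : z = 0 := by omega
      exact Conn.zero
  obtain ⟨a1, a2, a3, a4, a5, a6⟩ := id hQ
  obtain ⟨b1, b2, b3, b4, b5, b6⟩ := id hQ'
  -- degree zero
  by_cases hd0 : d = 0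
  · by_cases hd0' : d' = 0
    · obtain rfl : x = 0 := by omega
      obtain rfl : y = 0 := by omega
      obtain rfl : z = 0 := by omega
      obtain rfl : x' = 0 := by omega
      obtain rfl : y' = 0 := by omega
      obtain rfl : z' = 0 := by omega
      subst hd0 hd0'
      exact Conn.zero
    · exfalso
      have h1 := W_pos hM hQ' (by omega)
      obtain rfl : x = 0 := by omega
      obtain rfl : y = 0 := by omega
      obtain rfl : z = 0 := by omega
      subst hd0
      rw [← hW] at h1
      simp [W] at h1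
  by_cases hd0' : d' = 0
  · exfalso
    have h1 := W_pos hM hQ (by omega)
    obtain rfl : x' = 0 := by omega
    obtain rfl : y' = 0 := by omega
    obtain rfl : z' = 0 := by omega
    subst hd0'
    rw [hW] at h1
    simp [W] at h1
  -- high degree
  have high : ∀ {d x y z d' x' y' z' : ℤ}, Q d x y z → Q d' x' y' z' → 1 ≤ d → 1 ≤ d' →
      W M d x y z = W M d' x' y' z' → 2 * M + 4 ≤ d → Conn M d x y z d' x' y' z' := by
    intro d x y z d' x' y' z' hQ hQ' h1 h1' hW hd
    obtain ⟨d1, x1, y1, z1, hq, hw, c1, c2, c3, c4, c5, c6⟩ := interior hM hQ hd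
    have s1 : Conn M d x y z d1 x1 y1 z1 := by
      refine Conn.share hQ hq h1 (by omega) hw ?_ ?_ ?_ <;> unfold NC <;> omega
    have s2 : Conn M d1 x1 y1 z1 d' x' y' z' := by
      refine Conn.share hq hQ' (by omega) h1' (hw.symm.trans hW) ?_ ?_ ?_ <;> unfold NC <;> omega
    exact s1.trans s2
  by_cases hhd : 2 * M + 4 ≤ d
  · exact high hQ hQ' (by omega) (by omega) hW hhd
  by_cases hhd' : 2 * M + 4 ≤ d'
  · exact (high hQ' hQ (by omega) (by omega) hW.symm hhd').symm
  obtain ⟨α, β, γ, ε, hε, eD, eX, eY, eZ⟩ := kernel hM hW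
  rcases hε with rfl | rfl
  · -- even differences
    have hα : α ≤ 1 := bound_even hM (γ := γ) (by linarith) (by linarith)
    have hγ : γ ≤ 1 := bound_even hM (γ := α) (by linarith) (by linarith)
    have hα' : -α ≤ 1 := bound_even hM (γ := -γ) (by linarith) (by linarith)
    have hγ' : -γ ≤ 1 := bound_even hM (γ := -α) (by linarith) (by linarith)
    have hβ : β ≤ 1 := by
      by_contra hc
      push Not at hc
      nlinarith
    have hβ' : -1 ≤ β := by
      by_contra hc
      push Not at hc
      nlinarith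
    obtain rfl | rfl | rfl : α = -1 ∨ α = 0 ∨ α = 1 := by omega
    all_goals obtain rfl | rfl | rfl : β = -1 ∨ β = 0 ∨ β = 1 := by omega
    all_goals obtain rfl | rfl | rfl : γ = -1 ∨ γ = 0 ∨ γ = 1 := by omega
    · exact even_mmm hM hQ hQ' (by omega) (by omega) (by omega) (by omega)
    · exact even_mmo hM hQ hQ' (by omega) (by omega) (by omega) (by omega)
    · exact even_mmp hM hQ hQ' (by omega) (by omega) (by omega) (by omega)
    · exact even_mom hM hQ hQ' (by omega) (by omega) (by omega) (by omega)
    · exact even_moo hM hQ hQ' (by omega) (by omega) (by omega) (by omega)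
    · exact even_mop hM hQ hQ' (by omega) (by omega) (by omega) (by omega)
    · exact even_mpm hM hQ hQ' (by omega) (by omega) (by omega) (by omega)
    · exact even_mpo hM hQ hQ' (by omega) (by omega) (by omega) (by omega)
    · exact even_mpp hM hQ hQ' (by omega) (by omega) (by omega) (by omega)
    · exact even_omm hM hQ hQ' (by omega) (by omega) (by omega) (by omega)
    · exact even_omo hM hQ hQ' (by omega) (by omega) (by omega) (by omega)
    · exact even_omp hM hQ hQ' (by omega) (by omega) (by omega) (by omega)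
    · exact even_oom hM hQ hQ' (by omega) (by omega) (by omega) (by omega)
    · obtain rfl : d' = d := by omega
      obtain rfl : x' = x := by omega
      obtain rfl : y' = y := by omega
      obtain rfl : z' = z := by omega
      exact hself hQ
    · exact even_oop hM hQ hQ' (by omega) (by omega) (by omega) (by omega)
    · exact even_opm hM hQ hQ' (by omega) (by omega) (by omega) (by omega)
    · exact even_opo hM hQ hQ' (by omega) (by omega) (by omega) (by omega)
    · exact even_opp hM hQ hQ' (by omega) (by omega) (by omega) (by omega)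
    · exact even_pmm hM hQ hQ' (by omega) (by omega) (by omega) (by omega)
    · exact even_pmo hM hQ hQ' (by omega) (by omega) (by omega) (by omega)
    · exact even_pmp hM hQ hQ' (by omega) (by omega) (by omega) (by omega)
    · exact even_pom hM hQ hQ' (by omega) (by omega) (by omega) (by omega)
    · exact even_poo hM hQ hQ' (by omega) (by omega) (by omega) (by omega)
    · exact even_pop hM hQ hQ' (by omega) (by omega) (by omega) (by omega)
    · exact even_ppm hM hQ hQ' (by omega) (by omega) (by omega) (by omega)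
    · exact even_ppo hM hQ hQ' (by omega) (by omega) (by omega) (by omega)
    · exact even_ppp hM hQ hQ' (by omega) (by omega) (by omega) (by omega)
  · -- odd differences
    have hα : α ≤ 0 := bound_odd hM (γ := γ) (by linarith) (by linarith)
    have hγ : γ ≤ 0 := bound_odd hM (γ := α) (by linarith) (by linarith)
    have hα' : -1 ≤ α := bound_odd' hM (γ := γ) (by linarith) (by linarith)
    have hγ' : -1 ≤ γ := bound_odd' hM (γ := α) (by linarith) (by linarith)
    have hβ : β ≤ 0 := by
      by_contra hc
      push Not at hc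
      nlinarith
    have hβ' : -1 ≤ β := by
      by_contra hc
      push Not at hc
      nlinarith
    obtain rfl | rfl : α = -1 ∨ α = 0 := by omega
    all_goals obtain rfl | rfl : β = -1 ∨ β = 0 := by omega
    all_goals obtain rfl | rfl : γ = -1 ∨ γ = 0 := by omega
    · exact odd_step hM hQ hQ' (isOdd4 (by omega) (by omega) (by omega) (by omega))
    · exact odd_step hM hQ hQ' (isOdd5 (by omega) (by omega) (by omega) (by omega))
    · exact odd_step hM hQ hQ' (isOdd6 (by omega) (by omega) (by omega) (by omega))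
    · exact odd_step hM hQ hQ' (isOdd7 (by omega) (by omega) (by omega) (by omega))
    · exact odd_step hM hQ hQ' (isOdd3 (by omega) (by omega) (by omega) (by omega))
    · exact odd_step hM hQ hQ' (isOdd2 (by omega) (by omega) (by omega) (by omega))
    · exact odd_step hM hQ hQ' (isOdd1 (by omega) (by omega) (by omega) (by omega))
    · exact odd_step hM hQ hQ' (isOdd0 (by omega) (by omega) (by omega) (by omega))

end

end Pool.Agent.MP_05ef64_al.CE
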