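import Mathlib

set_option autoImplicit false

/-!
# Connectivity of the fibres

Points `(d, x, y, z)` with `0 ≤ x, y, z ≤ d` are the monomials of the cube, up to straightening.
The weight of a point is `W`.  Two points of equal weight are joined by a chain of steps, each
step being between two points with a common vertex as a divisor, or one of nine exceptional
pairs.
-/

namespace Pool.Agent.MP_05ef64_al.CE

/-- Points of the cone over the cube. -/
def Q (d x y z : ℤ) : Prop := 0 ≤ x ∧ x ≤ d ∧ 0 ≤ y ∧ y ≤ d ∧ 0 ≤ z ∧ z ≤ d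

/-- The weight. -/
def W (M d x y z : ℤ) : ℤ :=
  (2 * M + 1) * (2 * M * (M + 1)) * d + (2 * M + 1) * x + 2 * M * (M + 1) * y
    + (2 * M * (M + 1) + 1) * z

/-- No conflict in one coordinate. -/
def NC (d x d' x' : ℤ) : Prop := ¬ (x = 0 ∧ x' = d') ∧ ¬ (x = d ∧ x' = 0)

/-- Chains of steps. -/
inductive Conn (M : ℤ) : ℤ → ℤ → ℤ → ℤ → ℤ → ℤ → ℤ → ℤ → Prop
  | share {d x y z d' x' y' z' : ℤ} : Q d x y z → Q d' x' y' z' → 1 ≤ d → 1 ≤ d' →
      W M d x y z = W M d' x' y' z' → NC d x d' x' → NC d y d' y' → NC d z d' z' →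
      Conn M d x y z d' x' y' z'
  | rel1 : Conn M (M + 1) 0 0 0 M M M M
  | rel2 : Conn M (M + 1) 0 (M + 1) 0 (M + 1) M 0 M
  | rel3 : Conn M (M + 1) 0 0 (M + 1) (M + 1) (M + 1) M 0
  | rel4 : Conn M (M + 1) 1 (M + 1) 0 (M + 1) (M + 1) 0 M
  | rel5 : Conn M (M + 1) 0 (M + 1) 1 (M + 1) M 0 (M + 1)
  | rel6 : Conn M (M + 1) 0 1 (M + 1) (M + 1) (M + 1) (M + 1) 0
  | rel7 : Conn M (M + 1) 1 (M + 1) 1 (M + 1) (M + 1) 0 (M + 1)
  | rel8 : Conn M (M + 1) 0 (M + 1) (M + 1) (M + 2) (M + 1) 0 0
  | rel9 : Conn M (M + 1) 1 (M + 1) (M + 1) (M + 2) (M + 2) 0 0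
  | zero : Conn M 0 0 0 0 0 0 0 0
  | symm {d x y z d' x' y' z' : ℤ} : Conn M d x y z d' x' y' z' → Conn M d' x' y' z' d x y z
  | trans {d x y z d' x' y' z' d'' x'' y'' z'' : ℤ} : Conn M d x y z d' x' y' z' →
      Conn M d' x' y' z' d'' x'' y'' z'' → Conn M d x y z d'' x'' y'' z''

section
variable {M d x y z d' x' y' z' : ℤ}

/-- Differences which are odd steps. -/
def IsOdd (M a b c e : ℤ) : Prop :=
  (a = -1 ∧ b = M ∧ c = M ∧ e = M) ∨ (a = 0 ∧ b = M + 1 ∧ c = M ∧ e = -(M + 1)) ∨
  (a = 0 ∧ b = M ∧ c = -(M + 1) ∧ e = M) ∨ (a = 1 ∧ b = M + 1 ∧ c = -(M + 1) ∧ e = -(M + 1)) ∨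
  (a = 1 ∧ b = -M ∧ c = -M ∧ e = -M) ∨ (a = 0 ∧ b = -(M + 1) ∧ c = -M ∧ e = M + 1) ∨
  (a = 0 ∧ b = -M ∧ c = M + 1 ∧ e = -M) ∨ (a = -1 ∧ b = -(M + 1) ∧ c = M + 1 ∧ e = M + 1)

lemma isOdd0 {a b c e : ℤ} (h1 : a = -1) (h2 : b = M) (h3 : c = M) (h4 : e = M) :
    IsOdd M a b c e := by
  unfold IsOdd
  exact Or.inl ⟨h1, h2, h3, h4⟩

lemma isOdd1 {a b c e : ℤ} (h1 : a = 0) (h2 : b = M + 1) (h3 : c = M) (h4 : e = -(M + 1)) :
    IsOdd M a b c e := by
  unfold IsOdd
  exact Or.inr (Or.inl ⟨h1, h2, h3, h4⟩)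

lemma isOdd2 {a b c e : ℤ} (h1 : a = 0) (h2 : b = M) (h3 : c = -(M + 1)) (h4 : e = M) :
    IsOdd M a b c e := by
  unfold IsOdd
  exact Or.inr (Or.inr (Or.inl ⟨h1, h2, h3, h4⟩))

lemma isOdd3 {a b c e : ℤ} (h1 : a = 1) (h2 : b = M + 1) (h3 : c = -(M + 1)) (h4 : e = -(M + 1)) :
    IsOdd M a b c e := by
  unfold IsOdd
  exact Or.inr (Or.inr (Or.inr (Or.inl ⟨h1, h2, h3, h4⟩)))

lemma isOdd4 {a b c e : ℤ} (h1 : a = 1) (h2 : b = -M) (h3 : c = -M) (h4 : e = -M) :
    IsOdd M a b c e := by
  unfold IsOdd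
  exact Or.inr (Or.inr (Or.inr (Or.inr (Or.inl ⟨h1, h2, h3, h4⟩))))

lemma isOdd5 {a b c e : ℤ} (h1 : a = 0) (h2 : b = -(M + 1)) (h3 : c = -M) (h4 : e = M + 1) :
    IsOdd M a b c e := by
  unfold IsOdd
  exact Or.inr (Or.inr (Or.inr (Or.inr (Or.inr (Or.inl ⟨h1, h2, h3, h4⟩)))))

lemma isOdd6 {a b c e : ℤ} (h1 : a = 0) (h2 : b = -M) (h3 : c = M + 1) (h4 : e = -M) :
    IsOdd M a b c e := by
  unfold IsOdd
  exact Or.inr (Or.inr (Or.inr (Or.inr (Or.inr (Or.inr (Or.inl ⟨h1, h2, h3, h4⟩))))))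

lemma isOdd7 {a b c e : ℤ} (h1 : a = -1) (h2 : b = -(M + 1)) (h3 : c = M + 1) (h4 : e = M + 1) :
    IsOdd M a b c e := by
  unfold IsOdd
  exact Or.inr (Or.inr (Or.inr (Or.inr (Or.inr (Or.inr (Or.inr (⟨h1, h2, h3, h4⟩)))))))

lemma odd_a (hM : 4 ≤ M) (hQ : Q d x y z) (hQ' : Q (d - 1) (x + M) (y + M) (z + M)) :
    Conn M d x y z (d - 1) (x + M) (y + M) (z + M) := by
  by_cases h : d = M + 1
  · have h1 : x = 0 := by unfold Q at *; omega
    have h2 : y = 0 := by unfold Q at *; omega
    have h3 : z = 0 := by unfold Q at *; omega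
    subst h h1 h2 h3
    have := Conn.rel1 (M := M)
    simpa using this
  · refine Conn.share hQ hQ' ?_ ?_ ?_ ?_ ?_ ?_
    · unfold Q at *; omega
    · unfold Q at *; omega
    · unfold W; ring
    · unfold Q NC at *; omega
    · unfold Q NC at *; omega
    · unfold Q NC at *; omega

lemma odd_b (hM : 4 ≤ M) (hQ : Q d x y z) (hQ' : Q d (x + M) (y - (M + 1)) (z + M)) :
    Conn M d x y z d (x + M) (y - (M + 1)) (z + M) := by
  by_cases h : d = M + 1
  · have h1 : x = 0 ∨ x = 1 := by unfold Q at *; omega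
    have h2 : y = M + 1 := by unfold Q at *; omega
    have h3 : z = 0 ∨ z = 1 := by unfold Q at *; omega
    subst h h2
    rcases h1 with rfl | rfl <;> rcases h3 with rfl | rfl
    · have := Conn.rel2 (M := M)
      simpa using this
    · have := Conn.rel5 (M := M)
      simpa [add_comm] using this
    · have := Conn.rel4 (M := M)
      simpa [add_comm] using this
    · have := Conn.rel7 (M := M)
      simpa [add_comm] using this
  · refine Conn.share hQ hQ' ?_ ?_ ?_ ?_ ?_ ?_
    · unfold Q at *; omega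
    · unfold Q at *; omega
    · unfold W; ring
    · unfold Q NC at *; omega
    · unfold Q NC at *; omega
    · unfold Q NC at *; omega

lemma odd_c (hM : 4 ≤ M) (hQ : Q d x y z) (hQ' : Q d (x + (M + 1)) (y + M) (z - (M + 1))) :
    Conn M d x y z d (x + (M + 1)) (y + M) (z - (M + 1)) := by
  by_cases h : d = M + 1
  · have h1 : x = 0 := by unfold Q at *; omega
    have h2 : y = 0 ∨ y = 1 := by unfold Q at *; omega
    have h3 : z = M + 1 := by unfold Q at *; omega
    subst h h1 h3
    rcases h2 with rfl | rfl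
    · have := Conn.rel3 (M := M)
      simpa using this
    · have := Conn.rel6 (M := M)
      simpa [add_comm] using this
  · refine Conn.share hQ hQ' ?_ ?_ ?_ ?_ ?_ ?_
    · unfold Q at *; omega
    · unfold Q at *; omega
    · unfold W; ring
    · unfold Q NC at *; omega
    · unfold Q NC at *; omega
    · unfold Q NC at *; omega

lemma odd_e (hM : 4 ≤ M) (hQ : Q d x y z)
    (hQ' : Q (d + 1) (x + (M + 1)) (y - (M + 1)) (z - (M + 1))) :
    Conn M d x y z (d + 1) (x + (M + 1)) (y - (M + 1)) (z - (M + 1)) := by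
  by_cases h : d = M + 1
  · have h1 : x = 0 ∨ x = 1 := by unfold Q at *; omega
    have h2 : y = M + 1 := by unfold Q at *; omega
    have h3 : z = M + 1 := by unfold Q at *; omega
    subst h h2 h3
    rcases h1 with rfl | rfl
    · have := Conn.rel8 (M := M)
      have e1 : M + 1 + 1 = M + 2 := by ring
      rw [e1]
      simpa using this
    · have := Conn.rel9 (M := M)
      have e1 : M + 1 + 1 = M + 2 := by ring
      have e2 : 1 + (M + 1) = M + 2 := by ring
      rw [e1, e2]
      simpa using this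
  · refine Conn.share hQ hQ' ?_ ?_ ?_ ?_ ?_ ?_
    · unfold Q at *; omega
    · unfold Q at *; omega
    · unfold W; ring
    · unfold Q NC at *; omega
    · unfold Q NC at *; omega
    · unfold Q NC at *; omega

/-- An odd step between two points is a chain. -/
lemma odd_step (hM : 4 ≤ M) (hQ : Q d x y z) (hQ' : Q d' x' y' z')
    (h : IsOdd M (d' - d) (x' - x) (y' - y) (z' - z)) : Conn M d x y z d' x' y' z' := by
  rcases h with h | h | h | h | h | h | h | h <;> obtain ⟨h1, h2, h3, h4⟩ := h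
  · obtain rfl : d' = d - 1 := by omega
    obtain rfl : x' = x + M := by omega
    obtain rfl : y' = y + M := by omega
    obtain rfl : z' = z + M := by omega
    exact odd_a hM hQ hQ'
  · obtain rfl : d' = d := by omega
    obtain rfl : x' = x + (M + 1) := by omega
    obtain rfl : y' = y + M := by omega
    obtain rfl : z' = z - (M + 1) := by omega
    exact odd_c hM hQ hQ'
  · obtain rfl : d' = d := by omega
    obtain rfl : x' = x + M := by omega
    obtain rfl : y' = y - (M + 1) := by omega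
    obtain rfl : z' = z + M := by omega
    exact odd_b hM hQ hQ'
  · obtain rfl : d' = d + 1 := by omega
    obtain rfl : x' = x + (M + 1) := by omega
    obtain rfl : y' = y - (M + 1) := by omega
    obtain rfl : z' = z - (M + 1) := by omega
    exact odd_e hM hQ hQ'
  · obtain rfl : d = d' - 1 := by omega
    obtain rfl : x = x' + M := by omega
    obtain rfl : y = y' + M := by omega
    obtain rfl : z = z' + M := by omega
    exact (odd_a hM hQ' hQ).symm
  · obtain rfl : d = d' := by omega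
    obtain rfl : x = x' + (M + 1) := by omega
    obtain rfl : y = y' + M := by omega
    obtain rfl : z = z' - (M + 1) := by omega
    exact (odd_c hM hQ' hQ).symm
  · obtain rfl : d = d' := by omega
    obtain rfl : x = x' + M := by omega
    obtain rfl : y = y' - (M + 1) := by omega
    obtain rfl : z = z' + M := by omega
    exact (odd_b hM hQ' hQ).symm
  · obtain rfl : d = d' + 1 := by omega
    obtain rfl : x = x' + (M + 1) := by omega
    obtain rfl : y = y' - (M + 1) := by omega
    obtain rfl : z = z' - (M + 1) := by omega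
    exact (odd_e hM hQ' hQ).symm

/-- Two odd steps. -/
lemma two_step (hM : 4 ≤ M) (hQ : Q d x y z) (hQ' : Q d' x' y' z') {d1 x1 y1 z1 : ℤ}
    (hm : Q d1 x1 y1 z1) (h : IsOdd M (d1 - d) (x1 - x) (y1 - y) (z1 - z))
    (h' : IsOdd M (d' - d1) (x' - x1) (y' - y1) (z' - z1)) : Conn M d x y z d' x' y' z' :=
  (odd_step hM hQ hm h).trans (odd_step hM hm hQ' h')

lemma even_mmm (hM : 4 ≤ M) (hQ : Q d x y z) (hQ' : Q d' x' y' z')
    (hd : d' = d + (2)) (hx : x' = x + (-1 * (2 * M + 1) + 1)) (hy : y' = y + (-1 * (2 * M + 1) + 1))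
    (hz : z' = z + (-1 * (2 * M + 1) + 1)) : Conn M d x y z d' x' y' z' := by
  obtain ⟨a1, a2, a3, a4, a5, a6⟩ := id hQ
  obtain ⟨b1, b2, b3, b4, b5, b6⟩ := id hQ'
  exact two_step hM hQ hQ' (d1 := d + 1) (x1 := x - M) (y1 := y - M) (z1 := z - M)
    ⟨by omega, by omega, by omega, by omega, by omega, by omega⟩
    (isOdd4 (by omega) (by omega) (by omega) (by omega))
    (isOdd4 (by omega) (by omega) (by omega) (by omega))

lemma even_mmo (hM : 4 ≤ M) (hQ : Q d x y z) (hQ' : Q d' x' y' z')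
    (hd : d' = d + (1)) (hx : x' = x + (-1 * (2 * M + 1) + 0)) (hy : y' = y + (-1 * (2 * M + 1) + 1))
    (hz : z' = z + (0 * (2 * M + 1) + 1)) : Conn M d x y z d' x' y' z' := by
  obtain ⟨a1, a2, a3, a4, a5, a6⟩ := id hQ
  obtain ⟨b1, b2, b3, b4, b5, b6⟩ := id hQ'
  by_cases h0 : z ≤ M
  · exact two_step hM hQ hQ' (d1 := d) (x1 := x - (M+1)) (y1 := y - M) (z1 := z + (M+1))
      ⟨by omega, by omega, by omega, by omega, by omega, by omega⟩
      (isOdd5 (by omega) (by omega) (by omega) (by omega))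
      (isOdd4 (by omega) (by omega) (by omega) (by omega))
  · exact two_step hM hQ hQ' (d1 := d + 1) (x1 := x - M) (y1 := y - M) (z1 := z - M)
      ⟨by omega, by omega, by omega, by omega, by omega, by omega⟩
      (isOdd4 (by omega) (by omega) (by omega) (by omega))
      (isOdd5 (by omega) (by omega) (by omega) (by omega))

lemma even_mmp (hM : 4 ≤ M) (hQ : Q d x y z) (hQ' : Q d' x' y' z')
    (hd : d' = d + (0)) (hx : x' = x + (-1 * (2 * M + 1) + -1)) (hy : y' = y + (-1 * (2 * M + 1) + 1))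
    (hz : z' = z + (1 * (2 * M + 1) + 1)) : Conn M d x y z d' x' y' z' := by
  obtain ⟨a1, a2, a3, a4, a5, a6⟩ := id hQ
  obtain ⟨b1, b2, b3, b4, b5, b6⟩ := id hQ'
  exact two_step hM hQ hQ' (d1 := d) (x1 := x - (M+1)) (y1 := y - M) (z1 := z + (M+1))
    ⟨by omega, by omega, by omega, by omega, by omega, by omega⟩
    (isOdd5 (by omega) (by omega) (by omega) (by omega))
    (isOdd5 (by omega) (by omega) (by omega) (by omega))

lemma even_mom (hM : 4 ≤ M) (hQ : Q d x y z) (hQ' : Q d' x' y' z')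
    (hd : d' = d + (1)) (hx : x' = x + (-1 * (2 * M + 1) + 1)) (hy : y' = y + (0 * (2 * M + 1) + 1))
    (hz : z' = z + (-1 * (2 * M + 1) + 1)) : Conn M d x y z d' x' y' z' := by
  obtain ⟨a1, a2, a3, a4, a5, a6⟩ := id hQ
  obtain ⟨b1, b2, b3, b4, b5, b6⟩ := id hQ'
  by_cases h0 : y ≤ M - 1
  · exact two_step hM hQ hQ' (d1 := d) (x1 := x - M) (y1 := y + (M+1)) (z1 := z - M)
      ⟨by omega, by omega, by omega, by omega, by omega, by omega⟩
      (isOdd6 (by omega) (by omega) (by omega) (by omega))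
      (isOdd4 (by omega) (by omega) (by omega) (by omega))
  · exact two_step hM hQ hQ' (d1 := d + 1) (x1 := x - M) (y1 := y - M) (z1 := z - M)
      ⟨by omega, by omega, by omega, by omega, by omega, by omega⟩
      (isOdd4 (by omega) (by omega) (by omega) (by omega))
      (isOdd6 (by omega) (by omega) (by omega) (by omega))

lemma even_moo (hM : 4 ≤ M) (hQ : Q d x y z) (hQ' : Q d' x' y' z')
    (hd : d' = d + (0)) (hx : x' = x + (-1 * (2 * M + 1) + 0)) (hy : y' = y + (0 * (2 * M + 1) + 1))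
    (hz : z' = z + (0 * (2 * M + 1) + 1)) : Conn M d x y z d' x' y' z' := by
  obtain ⟨a1, a2, a3, a4, a5, a6⟩ := id hQ
  obtain ⟨b1, b2, b3, b4, b5, b6⟩ := id hQ'
  by_cases h0 : y ≤ M - 1
  · by_cases h1 : z ≤ M - 1
    · exact two_step hM hQ hQ' (d1 := d - 1) (x1 := x - (M+1)) (y1 := y + (M+1)) (z1 := z + (M+1))
        ⟨by omega, by omega, by omega, by omega, by omega, by omega⟩
        (isOdd7 (by omega) (by omega) (by omega) (by omega))
        (isOdd4 (by omega) (by omega) (by omega) (by omega))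
    · exact two_step hM hQ hQ' (d1 := d) (x1 := x - M) (y1 := y + (M+1)) (z1 := z - M)
        ⟨by omega, by omega, by omega, by omega, by omega, by omega⟩
        (isOdd6 (by omega) (by omega) (by omega) (by omega))
        (isOdd5 (by omega) (by omega) (by omega) (by omega))
  · by_cases h1 : z ≤ M - 1
    · exact two_step hM hQ hQ' (d1 := d) (x1 := x - (M+1)) (y1 := y - M) (z1 := z + (M+1))
        ⟨by omega, by omega, by omega, by omega, by omega, by omega⟩
        (isOdd5 (by omega) (by omega) (by omega) (by omega))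
        (isOdd6 (by omega) (by omega) (by omega) (by omega))
    · exact two_step hM hQ hQ' (d1 := d + 1) (x1 := x - M) (y1 := y - M) (z1 := z - M)
        ⟨by omega, by omega, by omega, by omega, by omega, by omega⟩
        (isOdd4 (by omega) (by omega) (by omega) (by omega))
        (isOdd7 (by omega) (by omega) (by omega) (by omega))

lemma even_mop (hM : 4 ≤ M) (hQ : Q d x y z) (hQ' : Q d' x' y' z')
    (hd : d' = d + (-1)) (hx : x' = x + (-1 * (2 * M + 1) + -1)) (hy : y' = y + (0 * (2 * M + 1) + 1))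
    (hz : z' = z + (1 * (2 * M + 1) + 1)) : Conn M d x y z d' x' y' z' := by
  obtain ⟨a1, a2, a3, a4, a5, a6⟩ := id hQ
  obtain ⟨b1, b2, b3, b4, b5, b6⟩ := id hQ'
  by_cases h0 : y ≤ M
  · exact two_step hM hQ hQ' (d1 := d - 1) (x1 := x - (M+1)) (y1 := y + (M+1)) (z1 := z + (M+1))
      ⟨by omega, by omega, by omega, by omega, by omega, by omega⟩
      (isOdd7 (by omega) (by omega) (by omega) (by omega))
      (isOdd5 (by omega) (by omega) (by omega) (by omega))
  · exact two_step hM hQ hQ' (d1 := d) (x1 := x - (M+1)) (y1 := y - M) (z1 := z + (M+1))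
      ⟨by omega, by omega, by omega, by omega, by omega, by omega⟩
      (isOdd5 (by omega) (by omega) (by omega) (by omega))
      (isOdd7 (by omega) (by omega) (by omega) (by omega))

lemma even_mpm (hM : 4 ≤ M) (hQ : Q d x y z) (hQ' : Q d' x' y' z')
    (hd : d' = d + (0)) (hx : x' = x + (-1 * (2 * M + 1) + 1)) (hy : y' = y + (1 * (2 * M + 1) + 1))
    (hz : z' = z + (-1 * (2 * M + 1) + 1)) : Conn M d x y z d' x' y' z' := by
  obtain ⟨a1, a2, a3, a4, a5, a6⟩ := id hQ
  obtain ⟨b1, b2, b3, b4, b5, b6⟩ := id hQ'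
  exact two_step hM hQ hQ' (d1 := d) (x1 := x - M) (y1 := y + (M+1)) (z1 := z - M)
    ⟨by omega, by omega, by omega, by omega, by omega, by omega⟩
    (isOdd6 (by omega) (by omega) (by omega) (by omega))
    (isOdd6 (by omega) (by omega) (by omega) (by omega))

lemma even_mpo (hM : 4 ≤ M) (hQ : Q d x y z) (hQ' : Q d' x' y' z')
    (hd : d' = d + (-1)) (hx : x' = x + (-1 * (2 * M + 1) + 0)) (hy : y' = y + (1 * (2 * M + 1) + 1))
    (hz : z' = z + (0 * (2 * M + 1) + 1)) : Conn M d x y z d' x' y' z' := by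
  obtain ⟨a1, a2, a3, a4, a5, a6⟩ := id hQ
  obtain ⟨b1, b2, b3, b4, b5, b6⟩ := id hQ'
  by_cases h0 : z ≤ M
  · exact two_step hM hQ hQ' (d1 := d - 1) (x1 := x - (M+1)) (y1 := y + (M+1)) (z1 := z + (M+1))
      ⟨by omega, by omega, by omega, by omega, by omega, by omega⟩
      (isOdd7 (by omega) (by omega) (by omega) (by omega))
      (isOdd6 (by omega) (by omega) (by omega) (by omega))
  · exact two_step hM hQ hQ' (d1 := d) (x1 := x - M) (y1 := y + (M+1)) (z1 := z - M)
      ⟨by omega, by omega, by omega, by omega, by omega, by omega⟩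
      (isOdd6 (by omega) (by omega) (by omega) (by omega))
      (isOdd7 (by omega) (by omega) (by omega) (by omega))

lemma even_mpp (hM : 4 ≤ M) (hQ : Q d x y z) (hQ' : Q d' x' y' z')
    (hd : d' = d + (-2)) (hx : x' = x + (-1 * (2 * M + 1) + -1)) (hy : y' = y + (1 * (2 * M + 1) + 1))
    (hz : z' = z + (1 * (2 * M + 1) + 1)) : Conn M d x y z d' x' y' z' := by
  obtain ⟨a1, a2, a3, a4, a5, a6⟩ := id hQ
  obtain ⟨b1, b2, b3, b4, b5, b6⟩ := id hQ'
  exact two_step hM hQ hQ' (d1 := d - 1) (x1 := x - (M+1)) (y1 := y + (M+1)) (z1 := z + (M+1))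
    ⟨by omega, by omega, by omega, by omega, by omega, by omega⟩
    (isOdd7 (by omega) (by omega) (by omega) (by omega))
    (isOdd7 (by omega) (by omega) (by omega) (by omega))

lemma even_omm (hM : 4 ≤ M) (hQ : Q d x y z) (hQ' : Q d' x' y' z')
    (hd : d' = d + (2)) (hx : x' = x + (0 * (2 * M + 1) + 1)) (hy : y' = y + (-1 * (2 * M + 1) + 0))
    (hz : z' = z + (-1 * (2 * M + 1) + 0)) : Conn M d x y z d' x' y' z' := by
  obtain ⟨a1, a2, a3, a4, a5, a6⟩ := id hQ
  obtain ⟨b1, b2, b3, b4, b5, b6⟩ := id hQ'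
  by_cases h0 : x ≤ M
  · exact two_step hM hQ hQ' (d1 := d + 1) (x1 := x + (M+1)) (y1 := y - (M+1)) (z1 := z - (M+1))
      ⟨by omega, by omega, by omega, by omega, by omega, by omega⟩
      (isOdd3 (by omega) (by omega) (by omega) (by omega))
      (isOdd4 (by omega) (by omega) (by omega) (by omega))
  · exact two_step hM hQ hQ' (d1 := d + 1) (x1 := x - M) (y1 := y - M) (z1 := z - M)
      ⟨by omega, by omega, by omega, by omega, by omega, by omega⟩
      (isOdd4 (by omega) (by omega) (by omega) (by omega))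
      (isOdd3 (by omega) (by omega) (by omega) (by omega))

lemma even_omo (hM : 4 ≤ M) (hQ : Q d x y z) (hQ' : Q d' x' y' z')
    (hd : d' = d + (1)) (hx : x' = x + (0 * (2 * M + 1) + 0)) (hy : y' = y + (-1 * (2 * M + 1) + 0))
    (hz : z' = z + (0 * (2 * M + 1) + 0)) : Conn M d x y z d' x' y' z' := by
  obtain ⟨a1, a2, a3, a4, a5, a6⟩ := id hQ
  obtain ⟨b1, b2, b3, b4, b5, b6⟩ := id hQ'
  by_cases h0 : x ≤ M
  · by_cases h1 : z ≤ M
    · exact two_step hM hQ hQ' (d1 := d) (x1 := x + M) (y1 := y - (M+1)) (z1 := z + M)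
        ⟨by omega, by omega, by omega, by omega, by omega, by omega⟩
        (isOdd2 (by omega) (by omega) (by omega) (by omega))
        (isOdd4 (by omega) (by omega) (by omega) (by omega))
    · exact two_step hM hQ hQ' (d1 := d + 1) (x1 := x + (M+1)) (y1 := y - (M+1)) (z1 := z - (M+1))
        ⟨by omega, by omega, by omega, by omega, by omega, by omega⟩
        (isOdd3 (by omega) (by omega) (by omega) (by omega))
        (isOdd5 (by omega) (by omega) (by omega) (by omega))
  · by_cases h1 : z ≤ M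
    · exact two_step hM hQ hQ' (d1 := d) (x1 := x - (M+1)) (y1 := y - M) (z1 := z + (M+1))
        ⟨by omega, by omega, by omega, by omega, by omega, by omega⟩
        (isOdd5 (by omega) (by omega) (by omega) (by omega))
        (isOdd3 (by omega) (by omega) (by omega) (by omega))
    · exact two_step hM hQ hQ' (d1 := d + 1) (x1 := x - M) (y1 := y - M) (z1 := z - M)
        ⟨by omega, by omega, by omega, by omega, by omega, by omega⟩
        (isOdd4 (by omega) (by omega) (by omega) (by omega))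
        (isOdd2 (by omega) (by omega) (by omega) (by omega))

lemma even_omp (hM : 4 ≤ M) (hQ : Q d x y z) (hQ' : Q d' x' y' z')
    (hd : d' = d + (0)) (hx : x' = x + (0 * (2 * M + 1) + -1)) (hy : y' = y + (-1 * (2 * M + 1) + 0))
    (hz : z' = z + (1 * (2 * M + 1) + 0)) : Conn M d x y z d' x' y' z' := by
  obtain ⟨a1, a2, a3, a4, a5, a6⟩ := id hQ
  obtain ⟨b1, b2, b3, b4, b5, b6⟩ := id hQ'
  by_cases h0 : x ≤ M
  · exact two_step hM hQ hQ' (d1 := d) (x1 := x + M) (y1 := y - (M+1)) (z1 := z + M)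
      ⟨by omega, by omega, by omega, by omega, by omega, by omega⟩
      (isOdd2 (by omega) (by omega) (by omega) (by omega))
      (isOdd5 (by omega) (by omega) (by omega) (by omega))
  · exact two_step hM hQ hQ' (d1 := d) (x1 := x - (M+1)) (y1 := y - M) (z1 := z + (M+1))
      ⟨by omega, by omega, by omega, by omega, by omega, by omega⟩
      (isOdd5 (by omega) (by omega) (by omega) (by omega))
      (isOdd2 (by omega) (by omega) (by omega) (by omega))

lemma even_oom (hM : 4 ≤ M) (hQ : Q d x y z) (hQ' : Q d' x' y' z')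
    (hd : d' = d + (1)) (hx : x' = x + (0 * (2 * M + 1) + 1)) (hy : y' = y + (0 * (2 * M + 1) + 0))
    (hz : z' = z + (-1 * (2 * M + 1) + 0)) : Conn M d x y z d' x' y' z' := by
  obtain ⟨a1, a2, a3, a4, a5, a6⟩ := id hQ
  obtain ⟨b1, b2, b3, b4, b5, b6⟩ := id hQ'
  by_cases h0 : x ≤ M
  · by_cases h1 : y ≤ M
    · exact two_step hM hQ hQ' (d1 := d) (x1 := x + (M+1)) (y1 := y + M) (z1 := z - (M+1))
        ⟨by omega, by omega, by omega, by omega, by omega, by omega⟩
        (isOdd1 (by omega) (by omega) (by omega) (by omega))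
        (isOdd4 (by omega) (by omega) (by omega) (by omega))
    · exact two_step hM hQ hQ' (d1 := d + 1) (x1 := x + (M+1)) (y1 := y - (M+1)) (z1 := z - (M+1))
        ⟨by omega, by omega, by omega, by omega, by omega, by omega⟩
        (isOdd3 (by omega) (by omega) (by omega) (by omega))
        (isOdd6 (by omega) (by omega) (by omega) (by omega))
  · by_cases h1 : y ≤ M
    · exact two_step hM hQ hQ' (d1 := d) (x1 := x - M) (y1 := y + (M+1)) (z1 := z - M)
        ⟨by omega, by omega, by omega, by omega, by omega, by omega⟩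
        (isOdd6 (by omega) (by omega) (by omega) (by omega))
        (isOdd3 (by omega) (by omega) (by omega) (by omega))
    · exact two_step hM hQ hQ' (d1 := d + 1) (x1 := x - M) (y1 := y - M) (z1 := z - M)
        ⟨by omega, by omega, by omega, by omega, by omega, by omega⟩
        (isOdd4 (by omega) (by omega) (by omega) (by omega))
        (isOdd1 (by omega) (by omega) (by omega) (by omega))

lemma even_oop (hM : 4 ≤ M) (hQ : Q d x y z) (hQ' : Q d' x' y' z')
    (hd : d' = d + (-1)) (hx : x' = x + (0 * (2 * M + 1) + -1)) (hy : y' = y + (0 * (2 * M + 1) + 0))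
    (hz : z' = z + (1 * (2 * M + 1) + 0)) : Conn M d x y z d' x' y' z' := by
  obtain ⟨a1, a2, a3, a4, a5, a6⟩ := id hQ
  obtain ⟨b1, b2, b3, b4, b5, b6⟩ := id hQ'
  by_cases h0 : x ≤ M
  · by_cases h1 : y ≤ M
    · exact two_step hM hQ hQ' (d1 := d - 1) (x1 := x + M) (y1 := y + M) (z1 := z + M)
        ⟨by omega, by omega, by omega, by omega, by omega, by omega⟩
        (isOdd0 (by omega) (by omega) (by omega) (by omega))
        (isOdd5 (by omega) (by omega) (by omega) (by omega))
    · exact two_step hM hQ hQ' (d1 := d) (x1 := x + M) (y1 := y - (M+1)) (z1 := z + M)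
        ⟨by omega, by omega, by omega, by omega, by omega, by omega⟩
        (isOdd2 (by omega) (by omega) (by omega) (by omega))
        (isOdd7 (by omega) (by omega) (by omega) (by omega))
  · by_cases h1 : y ≤ M
    · exact two_step hM hQ hQ' (d1 := d - 1) (x1 := x - (M+1)) (y1 := y + (M+1)) (z1 := z + (M+1))
        ⟨by omega, by omega, by omega, by omega, by omega, by omega⟩
        (isOdd7 (by omega) (by omega) (by omega) (by omega))
        (isOdd2 (by omega) (by omega) (by omega) (by omega))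
    · exact two_step hM hQ hQ' (d1 := d) (x1 := x - (M+1)) (y1 := y - M) (z1 := z + (M+1))
        ⟨by omega, by omega, by omega, by omega, by omega, by omega⟩
        (isOdd5 (by omega) (by omega) (by omega) (by omega))
        (isOdd0 (by omega) (by omega) (by omega) (by omega))

lemma even_opm (hM : 4 ≤ M) (hQ : Q d x y z) (hQ' : Q d' x' y' z')
    (hd : d' = d + (0)) (hx : x' = x + (0 * (2 * M + 1) + 1)) (hy : y' = y + (1 * (2 * M + 1) + 0))
    (hz : z' = z + (-1 * (2 * M + 1) + 0)) : Conn M d x y z d' x' y' z' := by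
  obtain ⟨a1, a2, a3, a4, a5, a6⟩ := id hQ
  obtain ⟨b1, b2, b3, b4, b5, b6⟩ := id hQ'
  by_cases h0 : x ≤ M
  · exact two_step hM hQ hQ' (d1 := d) (x1 := x + (M+1)) (y1 := y + M) (z1 := z - (M+1))
      ⟨by omega, by omega, by omega, by omega, by omega, by omega⟩
      (isOdd1 (by omega) (by omega) (by omega) (by omega))
      (isOdd6 (by omega) (by omega) (by omega) (by omega))
  · exact two_step hM hQ hQ' (d1 := d) (x1 := x - M) (y1 := y + (M+1)) (z1 := z - M)
      ⟨by omega, by omega, by omega, by omega, by omega, by omega⟩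
      (isOdd6 (by omega) (by omega) (by omega) (by omega))
      (isOdd1 (by omega) (by omega) (by omega) (by omega))

lemma even_opo (hM : 4 ≤ M) (hQ : Q d x y z) (hQ' : Q d' x' y' z')
    (hd : d' = d + (-1)) (hx : x' = x + (0 * (2 * M + 1) + 0)) (hy : y' = y + (1 * (2 * M + 1) + 0))
    (hz : z' = z + (0 * (2 * M + 1) + 0)) : Conn M d x y z d' x' y' z' := by
  obtain ⟨a1, a2, a3, a4, a5, a6⟩ := id hQ
  obtain ⟨b1, b2, b3, b4, b5, b6⟩ := id hQ'
  by_cases h0 : x ≤ M
  · by_cases h1 : z ≤ M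
    · exact two_step hM hQ hQ' (d1 := d - 1) (x1 := x + M) (y1 := y + M) (z1 := z + M)
        ⟨by omega, by omega, by omega, by omega, by omega, by omega⟩
        (isOdd0 (by omega) (by omega) (by omega) (by omega))
        (isOdd6 (by omega) (by omega) (by omega) (by omega))
    · exact two_step hM hQ hQ' (d1 := d) (x1 := x + (M+1)) (y1 := y + M) (z1 := z - (M+1))
        ⟨by omega, by omega, by omega, by omega, by omega, by omega⟩
        (isOdd1 (by omega) (by omega) (by omega) (by omega))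
        (isOdd7 (by omega) (by omega) (by omega) (by omega))
  · by_cases h1 : z ≤ M
    · exact two_step hM hQ hQ' (d1 := d - 1) (x1 := x - (M+1)) (y1 := y + (M+1)) (z1 := z + (M+1))
        ⟨by omega, by omega, by omega, by omega, by omega, by omega⟩
        (isOdd7 (by omega) (by omega) (by omega) (by omega))
        (isOdd1 (by omega) (by omega) (by omega) (by omega))
    · exact two_step hM hQ hQ' (d1 := d) (x1 := x - M) (y1 := y + (M+1)) (z1 := z - M)
        ⟨by omega, by omega, by omega, by omega, by omega, by omega⟩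
        (isOdd6 (by omega) (by omega) (by omega) (by omega))
        (isOdd0 (by omega) (by omega) (by omega) (by omega))

lemma even_opp (hM : 4 ≤ M) (hQ : Q d x y z) (hQ' : Q d' x' y' z')
    (hd : d' = d + (-2)) (hx : x' = x + (0 * (2 * M + 1) + -1)) (hy : y' = y + (1 * (2 * M + 1) + 0))
    (hz : z' = z + (1 * (2 * M + 1) + 0)) : Conn M d x y z d' x' y' z' := by
  obtain ⟨a1, a2, a3, a4, a5, a6⟩ := id hQ
  obtain ⟨b1, b2, b3, b4, b5, b6⟩ := id hQ'
  by_cases h0 : x ≤ M
  · exact two_step hM hQ hQ' (d1 := d - 1) (x1 := x + M) (y1 := y + M) (z1 := z + M)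
      ⟨by omega, by omega, by omega, by omega, by omega, by omega⟩
      (isOdd0 (by omega) (by omega) (by omega) (by omega))
      (isOdd7 (by omega) (by omega) (by omega) (by omega))
  · exact two_step hM hQ hQ' (d1 := d - 1) (x1 := x - (M+1)) (y1 := y + (M+1)) (z1 := z + (M+1))
      ⟨by omega, by omega, by omega, by omega, by omega, by omega⟩
      (isOdd7 (by omega) (by omega) (by omega) (by omega))
      (isOdd0 (by omega) (by omega) (by omega) (by omega))

lemma even_pmm (hM : 4 ≤ M) (hQ : Q d x y z) (hQ' : Q d' x' y' z')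
    (hd : d' = d + (2)) (hx : x' = x + (1 * (2 * M + 1) + 1)) (hy : y' = y + (-1 * (2 * M + 1) + -1))
    (hz : z' = z + (-1 * (2 * M + 1) + -1)) : Conn M d x y z d' x' y' z' := by
  obtain ⟨a1, a2, a3, a4, a5, a6⟩ := id hQ
  obtain ⟨b1, b2, b3, b4, b5, b6⟩ := id hQ'
  exact two_step hM hQ hQ' (d1 := d + 1) (x1 := x + (M+1)) (y1 := y - (M+1)) (z1 := z - (M+1))
    ⟨by omega, by omega, by omega, by omega, by omega, by omega⟩
    (isOdd3 (by omega) (by omega) (by omega) (by omega))
    (isOdd3 (by omega) (by omega) (by omega) (by omega))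

lemma even_pmo (hM : 4 ≤ M) (hQ : Q d x y z) (hQ' : Q d' x' y' z')
    (hd : d' = d + (1)) (hx : x' = x + (1 * (2 * M + 1) + 0)) (hy : y' = y + (-1 * (2 * M + 1) + -1))
    (hz : z' = z + (0 * (2 * M + 1) + -1)) : Conn M d x y z d' x' y' z' := by
  obtain ⟨a1, a2, a3, a4, a5, a6⟩ := id hQ
  obtain ⟨b1, b2, b3, b4, b5, b6⟩ := id hQ'
  by_cases h0 : z ≤ M
  · exact two_step hM hQ hQ' (d1 := d) (x1 := x + M) (y1 := y - (M+1)) (z1 := z + M)
      ⟨by omega, by omega, by omega, by omega, by omega, by omega⟩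
      (isOdd2 (by omega) (by omega) (by omega) (by omega))
      (isOdd3 (by omega) (by omega) (by omega) (by omega))
  · exact two_step hM hQ hQ' (d1 := d + 1) (x1 := x + (M+1)) (y1 := y - (M+1)) (z1 := z - (M+1))
      ⟨by omega, by omega, by omega, by omega, by omega, by omega⟩
      (isOdd3 (by omega) (by omega) (by omega) (by omega))
      (isOdd2 (by omega) (by omega) (by omega) (by omega))

lemma even_pmp (hM : 4 ≤ M) (hQ : Q d x y z) (hQ' : Q d' x' y' z')
    (hd : d' = d + (0)) (hx : x' = x + (1 * (2 * M + 1) + -1)) (hy : y' = y + (-1 * (2 * M + 1) + -1))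
    (hz : z' = z + (1 * (2 * M + 1) + -1)) : Conn M d x y z d' x' y' z' := by
  obtain ⟨a1, a2, a3, a4, a5, a6⟩ := id hQ
  obtain ⟨b1, b2, b3, b4, b5, b6⟩ := id hQ'
  exact two_step hM hQ hQ' (d1 := d) (x1 := x + M) (y1 := y - (M+1)) (z1 := z + M)
    ⟨by omega, by omega, by omega, by omega, by omega, by omega⟩
    (isOdd2 (by omega) (by omega) (by omega) (by omega))
    (isOdd2 (by omega) (by omega) (by omega) (by omega))

lemma even_pom (hM : 4 ≤ M) (hQ : Q d x y z) (hQ' : Q d' x' y' z')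
    (hd : d' = d + (1)) (hx : x' = x + (1 * (2 * M + 1) + 1)) (hy : y' = y + (0 * (2 * M + 1) + -1))
    (hz : z' = z + (-1 * (2 * M + 1) + -1)) : Conn M d x y z d' x' y' z' := by
  obtain ⟨a1, a2, a3, a4, a5, a6⟩ := id hQ
  obtain ⟨b1, b2, b3, b4, b5, b6⟩ := id hQ'
  by_cases h0 : y ≤ M
  · exact two_step hM hQ hQ' (d1 := d) (x1 := x + (M+1)) (y1 := y + M) (z1 := z - (M+1))
      ⟨by omega, by omega, by omega, by omega, by omega, by omega⟩
      (isOdd1 (by omega) (by omega) (by omega) (by omega))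
      (isOdd3 (by omega) (by omega) (by omega) (by omega))
  · exact two_step hM hQ hQ' (d1 := d + 1) (x1 := x + (M+1)) (y1 := y - (M+1)) (z1 := z - (M+1))
      ⟨by omega, by omega, by omega, by omega, by omega, by omega⟩
      (isOdd3 (by omega) (by omega) (by omega) (by omega))
      (isOdd1 (by omega) (by omega) (by omega) (by omega))

lemma even_poo (hM : 4 ≤ M) (hQ : Q d x y z) (hQ' : Q d' x' y' z')
    (hd : d' = d + (0)) (hx : x' = x + (1 * (2 * M + 1) + 0)) (hy : y' = y + (0 * (2 * M + 1) + -1))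
    (hz : z' = z + (0 * (2 * M + 1) + -1)) : Conn M d x y z d' x' y' z' := by
  obtain ⟨a1, a2, a3, a4, a5, a6⟩ := id hQ
  obtain ⟨b1, b2, b3, b4, b5, b6⟩ := id hQ'
  by_cases h0 : y ≤ M
  · by_cases h1 : z ≤ M
    · exact two_step hM hQ hQ' (d1 := d - 1) (x1 := x + M) (y1 := y + M) (z1 := z + M)
        ⟨by omega, by omega, by omega, by omega, by omega, by omega⟩
        (isOdd0 (by omega) (by omega) (by omega) (by omega))
        (isOdd3 (by omega) (by omega) (by omega) (by omega))
    · exact two_step hM hQ hQ' (d1 := d) (x1 := x + (M+1)) (y1 := y + M) (z1 := z - (M+1))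
        ⟨by omega, by omega, by omega, by omega, by omega, by omega⟩
        (isOdd1 (by omega) (by omega) (by omega) (by omega))
        (isOdd2 (by omega) (by omega) (by omega) (by omega))
  · by_cases h1 : z ≤ M
    · exact two_step hM hQ hQ' (d1 := d) (x1 := x + M) (y1 := y - (M+1)) (z1 := z + M)
        ⟨by omega, by omega, by omega, by omega, by omega, by omega⟩
        (isOdd2 (by omega) (by omega) (by omega) (by omega))
        (isOdd1 (by omega) (by omega) (by omega) (by omega))
    · exact two_step hM hQ hQ' (d1 := d + 1) (x1 := x + (M+1)) (y1 := y - (M+1)) (z1 := z - (M+1))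
        ⟨by omega, by omega, by omega, by omega, by omega, by omega⟩
        (isOdd3 (by omega) (by omega) (by omega) (by omega))
        (isOdd0 (by omega) (by omega) (by omega) (by omega))

lemma even_pop (hM : 4 ≤ M) (hQ : Q d x y z) (hQ' : Q d' x' y' z')
    (hd : d' = d + (-1)) (hx : x' = x + (1 * (2 * M + 1) + -1)) (hy : y' = y + (0 * (2 * M + 1) + -1))
    (hz : z' = z + (1 * (2 * M + 1) + -1)) : Conn M d x y z d' x' y' z' := by
  obtain ⟨a1, a2, a3, a4, a5, a6⟩ := id hQ
  obtain ⟨b1, b2, b3, b4, b5, b6⟩ := id hQ'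
  by_cases h0 : y ≤ M
  · exact two_step hM hQ hQ' (d1 := d - 1) (x1 := x + M) (y1 := y + M) (z1 := z + M)
      ⟨by omega, by omega, by omega, by omega, by omega, by omega⟩
      (isOdd0 (by omega) (by omega) (by omega) (by omega))
      (isOdd2 (by omega) (by omega) (by omega) (by omega))
  · exact two_step hM hQ hQ' (d1 := d) (x1 := x + M) (y1 := y - (M+1)) (z1 := z + M)
      ⟨by omega, by omega, by omega, by omega, by omega, by omega⟩
      (isOdd2 (by omega) (by omega) (by omega) (by omega))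
      (isOdd0 (by omega) (by omega) (by omega) (by omega))

lemma even_ppm (hM : 4 ≤ M) (hQ : Q d x y z) (hQ' : Q d' x' y' z')
    (hd : d' = d + (0)) (hx : x' = x + (1 * (2 * M + 1) + 1)) (hy : y' = y + (1 * (2 * M + 1) + -1))
    (hz : z' = z + (-1 * (2 * M + 1) + -1)) : Conn M d x y z d' x' y' z' := by
  obtain ⟨a1, a2, a3, a4, a5, a6⟩ := id hQ
  obtain ⟨b1, b2, b3, b4, b5, b6⟩ := id hQ'
  exact two_step hM hQ hQ' (d1 := d) (x1 := x + (M+1)) (y1 := y + M) (z1 := z - (M+1))
    ⟨by omega, by omega, by omega, by omega, by omega, by omega⟩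
    (isOdd1 (by omega) (by omega) (by omega) (by omega))
    (isOdd1 (by omega) (by omega) (by omega) (by omega))

lemma even_ppo (hM : 4 ≤ M) (hQ : Q d x y z) (hQ' : Q d' x' y' z')
    (hd : d' = d + (-1)) (hx : x' = x + (1 * (2 * M + 1) + 0)) (hy : y' = y + (1 * (2 * M + 1) + -1))
    (hz : z' = z + (0 * (2 * M + 1) + -1)) : Conn M d x y z d' x' y' z' := by
  obtain ⟨a1, a2, a3, a4, a5, a6⟩ := id hQ
  obtain ⟨b1, b2, b3, b4, b5, b6⟩ := id hQ'
  by_cases h0 : z ≤ M
  · exact two_step hM hQ hQ' (d1 := d - 1) (x1 := x + M) (y1 := y + M) (z1 := z + M)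
      ⟨by omega, by omega, by omega, by omega, by omega, by omega⟩
      (isOdd0 (by omega) (by omega) (by omega) (by omega))
      (isOdd1 (by omega) (by omega) (by omega) (by omega))
  · exact two_step hM hQ hQ' (d1 := d) (x1 := x + (M+1)) (y1 := y + M) (z1 := z - (M+1))
      ⟨by omega, by omega, by omega, by omega, by omega, by omega⟩
      (isOdd1 (by omega) (by omega) (by omega) (by omega))
      (isOdd0 (by omega) (by omega) (by omega) (by omega))

lemma even_ppp (hM : 4 ≤ M) (hQ : Q d x y z) (hQ' : Q d' x' y' z')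
    (hd : d' = d + (-2)) (hx : x' = x + (1 * (2 * M + 1) + -1)) (hy : y' = y + (1 * (2 * M + 1) + -1))
    (hz : z' = z + (1 * (2 * M + 1) + -1)) : Conn M d x y z d' x' y' z' := by
  obtain ⟨a1, a2, a3, a4, a5, a6⟩ := id hQ
  obtain ⟨b1, b2, b3, b4, b5, b6⟩ := id hQ'
  exact two_step hM hQ hQ' (d1 := d - 1) (x1 := x + M) (y1 := y + M) (z1 := z + M)
    ⟨by omega, by omega, by omega, by omega, by omega, by omega⟩
    (isOdd0 (by omega) (by omega) (by omega) (by omega))
    (isOdd0 (by omega) (by omega) (by omega) (by omega))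

end

end Pool.Agent.MP_05ef64_al.CE
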