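import Pool.Agent.MP_05ef64_al.CEGens

set_option autoImplicit false

/-!
# The numerical semigroups of the counterexample
-/

namespace Pool.Agent.MP_05ef64_al.CE

open MvPolynomial

variable {M : ℕ}

lemma gg_strictMono (hM : 4 ≤ M) : StrictMono (gg M) := by
  have h1 : 2 * M + 1 < 2 * M * (M + 1) := by nlinarith
  rw [Fin.strictMono_iff_lt_succ (n := 7)]
  intro i
  fin_cases i <;> simp [gg, xb, yb, zb] <;> omega

lemma gg_mem (M : ℕ) (i : Fin 8) : gg M i ∈ AddSubmonoid.closure (Set.range (gg M)) :=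
  AddSubmonoid.subset_closure ⟨i, rfl⟩

lemma gg_cofinite (M : ℕ) :
    ((AddSubmonoid.closure (Set.range (gg M)) : Set ℕ)ᶜ).Finite := by
  refine (Set.finite_lt_nat (gg M 2 * gg M 2)).subset ?_
  intro n hn
  by_contra hc
  simp only [Set.mem_ofPred_eq, not_lt] at hc
  apply hn
  have h3 : gg M 3 = gg M 2 + 1 := by
    simp [gg, xb, yb, zb]
    ring
  rcases Nat.eq_zero_or_pos (gg M 2) with h0 | h0
  · have h1 : gg M 3 = 1 := by omega
    have h2 := AddSubmonoid.nsmul_mem _ (gg_mem M 3) n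
    rw [h1, smul_eq_mul, mul_one] at h2
    exact h2
  · have h4 := Nat.div_add_mod n (gg M 2)
    have h5 := Nat.mod_lt n h0
    have h6 : gg M 2 ≤ n / gg M 2 := (Nat.le_div_iff_mul_le h0).2 hc
    have h7 : n = (n / gg M 2 - n % gg M 2) * gg M 2 + (n % gg M 2) * gg M 3 := by
      obtain ⟨t, ht⟩ := Nat.exists_eq_add_of_le (h5.le.trans h6)
      rw [h3, ht, Nat.add_sub_cancel_left]
      rw [ht] at h4
      linarith
    rw [SetLike.mem_coe, h7]
    apply AddSubmonoid.add_mem
    · have := AddSubmonoid.nsmul_mem _ (gg_mem M 2) (n / gg M 2 - n % gg M 2)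
      rwa [smul_eq_mul] at this
    · have := AddSubmonoid.nsmul_mem _ (gg_mem M 3) (n % gg M 2)
      rwa [smul_eq_mul] at this

lemma gg_minimal (hM : 4 ≤ M) (j : Fin 8) :
    gg M j ∉ AddSubmonoid.closure (gg M '' {l | l ≠ j}) := by
  intro hj
  have h0 : ∀ i, (2 * M + 1) * (2 * M * (M + 1)) ≤ gg M i := fun i => by unfold gg; omega
  have h1 : ∀ x ∈ AddSubmonoid.closure (gg M '' {l | l ≠ j}), x = 0 ∨
      (∃ l, l ≠ j ∧ x = gg M l) ∨ 2 * ((2 * M + 1) * (2 * M * (M + 1))) ≤ x := by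
    intro x hx
    induction hx using AddSubmonoid.closure_induction with
    | mem x hx =>
      obtain ⟨l, hl, rfl⟩ := hx
      exact Or.inr (Or.inl ⟨l, hl, rfl⟩)
    | zero => exact Or.inl rfl
    | add x y _ _ hx hy =>
      rcases hx with rfl | hx
      · rw [zero_add]; exact hy
      rcases hy with rfl | hy
      · rw [add_zero]; exact Or.inr hx
      right; right
      have hx' : (2 * M + 1) * (2 * M * (M + 1)) ≤ x := by
        rcases hx with ⟨l, _, rfl⟩ | hx
        · exact h0 l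
        · omega
      have hy' : (2 * M + 1) * (2 * M * (M + 1)) ≤ y := by
        rcases hy with ⟨l, _, rfl⟩ | hy
        · exact h0 l
        · omega
      omega
  rcases h1 _ hj with h | ⟨l, hl, h⟩ | h
  · have := gg_pos hM j
    omega
  · exact hl ((gg_strictMono hM).injective h.symm)
  · have b1 := xb_le j
    have b2 := yb_le j
    have b3 := zb_le j
    have c1 : (2 * M + 1) * xb j ≤ (2 * M + 1) * 1 := Nat.mul_le_mul le_rfl b1
    have c2 : 2 * M * (M + 1) * yb j ≤ 2 * M * (M + 1) * 1 := Nat.mul_le_mul le_rfl b2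
    have c3 : (2 * M * (M + 1) + 1) * zb j ≤ (2 * M * (M + 1) + 1) * 1 :=
      Nat.mul_le_mul le_rfl b3
    unfold gg at h
    have c4 : 2 * M + 1 < 2 * M * (M + 1) := by nlinarith
    have c5 : 9 * (2 * M * (M + 1)) ≤ (2 * M + 1) * (2 * M * (M + 1)) :=
      Nat.mul_le_mul (by omega) le_rfl
    omega

end Pool.Agent.MP_05ef64_al.CE
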