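import Pool.Agent.MP_05ef64_al.CEIdeal

set_option autoImplicit false

/-!
# Bounded first Betti number, unbounded last Betti number
-/

namespace Pool.Agent.MP_05ef64_al.CE

open MvPolynomial

section
variable {k : Type*} [Field k] {M : ℕ}

lemma weight_rep (M d x y z : ℕ) (hx : x ≤ d) (hy : y ≤ d) (hz : z ≤ d) :
    (Finsupp.weight (gg M) (rep d x y z) : ℤ) = W M d x y z := by
  rw [weight_gg_int, dg_rep, sx_rep, sy_rep, sz_rep, min_eq_left hx, min_eq_left hy,
    min_eq_left hz]

lemma weight_rep_eq {M d x y z d' x' y' z' : ℕ} (hx : x ≤ d) (hy : y ≤ d) (hz : z ≤ d)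
    (hx' : x' ≤ d') (hy' : y' ≤ d') (hz' : z' ≤ d')
    (h : W M d x y z = W M d' x' y' z') :
    Finsupp.weight (gg M) (rep d x y z) = Finsupp.weight (gg M) (rep d' x' y' z') := by
  have h1 := weight_rep M d x y z hx hy hz
  have h2 := weight_rep M d' x' y' z' hx' hy' hz'
  have h3 : (Finsupp.weight (gg M) (rep d x y z) : ℤ)
      = Finsupp.weight (gg M) (rep d' x' y' z') := by rw [h1, h2, h]
  exact_mod_cast h3

lemma rel_weight (hM : 4 ≤ M) (a : Fin 9) :
    Finsupp.weight (gg M) (relL M a) = Finsupp.weight (gg M) (relR M a) := by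
  fin_cases a
  all_goals
    refine weight_rep_eq (by omega) (by omega) (by omega) (by omega) (by omega) (by omega) ?_
    unfold W
    push_cast
    ring

lemma gg_swap (M : ℕ) (i j : Fin 8) : gg M i + gg M j = gg M (mt i j) + gg M (jn i j) := by
  have h1 := xb_jn i j
  have h2 := yb_jn i j
  have h3 := zb_jn i j
  have h4 := xb_mt i j
  have h5 := yb_mt i j
  have h6 := zb_mt i j
  have e1 : xb i + xb j = xb (mt i j) + xb (jn i j) := by omega
  have e2 : yb i + yb j = yb (mt i j) + yb (jn i j) := by omega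
  have e3 : zb i + zb j = zb (mt i j) + zb (jn i j) := by omega
  unfold gg
  linear_combination (2 * M + 1) * e1 + 2 * M * (M + 1) * e2 + (2 * M * (M + 1) + 1) * e3

variable (k M) in
/-- The generating family. -/
noncomputable def gen : (Fin 8 × Fin 8) ⊕ Fin 9 → MvPolynomial (Fin 8) k :=
  Sum.elim (fun p => X p.1 * X p.2 - X (mt p.1 p.2) * X (jn p.1 p.2))
    (fun a => monomial (relL M a) 1 - monomial (relR M a) 1)

/-- **The ideals have 73 generators.** -/
theorem span_gen (hM : 4 ≤ M) :
    Ideal.span (Set.range (gen k M)) = RingHom.ker (par k (gg M)) := by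
  apply le_antisymm
  · rw [Ideal.span_le]
    rintro _ ⟨p | a, rfl⟩
    · have h1 : (gen k M (Sum.inl p)) = monomial (Finsupp.single p.1 1 + Finsupp.single p.2 1) 1
          - monomial (Finsupp.single (mt p.1 p.2) 1 + Finsupp.single (jn p.1 p.2) 1) 1 := by
        simp only [gen, Sum.elim_inl, X, monomial_mul, mul_one]
      rw [h1]
      apply binom_mem
      simp only [map_add, Finsupp.weight_single, smul_eq_mul, one_mul]
      exact gg_swap M _ _
    · exact binom_mem _ (rel_weight hM a)
  · intro p hp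
    have hbin := binom_all (k := k) (I := Ideal.span (Set.range (gen k M))) hM
      (fun i j => Ideal.subset_span ⟨Sum.inl (i, j), rfl⟩)
      (fun a => Ideal.subset_span ⟨Sum.inr a, rfl⟩)
    have h1 := mem_span_binom (gg M) hp
    have h2 : Submodule.span k {b : MvPolynomial (Fin 8) k | ∃ u v : Fin 8 →₀ ℕ,
        Finsupp.weight (gg M) u = Finsupp.weight (gg M) v ∧ b = monomial u 1 - monomial v 1}
        ≤ (Ideal.span (Set.range (gen k M))).restrictScalars k := by
      rw [Submodule.span_le]
      rintro _ ⟨u, v, huv, rfl⟩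
      exact hbin _ u v huv rfl
    exact h2 h1

/-- **The first Betti numbers are at most 73.** -/
theorem exists_res (hM : 4 ≤ M) :
    ∃ (r : ℕ → ℕ) (d : ∀ n, Matrix (Fin (r n)) (Fin (r (n + 1))) (MvPolynomial (Fin 8) k)),
      IsRes k (gg M) r d ∧ r 1 ≤ 73 := by
  obtain ⟨r, d, e0, e1, e2, hmin⟩ := exists_minRes (k := k) (gg M) (gg_pos hM)
    (RingHom.ker (par k (gg M)))
    (fun p hp m => whc_mem (gg M) hp m) (fun p hp => const_mem (gg M) (gg_pos hM) hp)
  have hR : IsRes k (gg M) r d := ⟨e0, e1, e2⟩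
  refine ⟨r, d, hR, ?_⟩
  let ε := Fintype.equivFin ((Fin 8 × Fin 8) ⊕ Fin 9)
  have h := hR.le_gens hmin (fun j => gen k M (ε.symm j)) (by
    rw [← span_gen hM]
    congr 1
    exact ε.symm.surjective.range_comp (gen k M))
  simpa using h

end

section
variable {M D X Y Z' Z : ℤ}

/-- The differences `W (2M-1; 2M, M-1, Z)` do not lie in the semigroup. -/
lemma not_mem (hM : 4 ≤ M) (hQ : Q D X Y Z') (hZ : Z ≤ 2 * M - 2)
    (h : W M (2 * M - 1) (2 * M) (M - 1) Z = W M D X Y Z') : False := by
  obtain ⟨a1, a2, a3, a4, a5, a6⟩ := hQ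
  obtain ⟨α, β, γ, ε, hε, eD, eX, eY, eZ⟩ := kernel hM h
  rcases hε with rfl | rfl
  · -- even differences
    have h1 : α * (2 * M + 1) + β ≤ -1 := by linarith
    have h2 : 0 ≤ M - 1 - α + β * (2 * M + 1) := by linarith
    have h3 : 0 ≤ 2 * M + α * (2 * M + 1) - γ := by linarith
    have h4 : 0 ≤ Z - α + γ * (2 * M + 1) := by linarith
    have h5 : 0 ≤ α := by
      by_contra hc
      push Not at hc
      have h6 : 0 ≤ (2 * M + 1) * (2 * M + α * (2 * M + 1) - γ) := by
        apply mul_nonneg (by omega) h3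
      have h7 : 0 ≤ 2 * M * (2 * M + 1) + Z + α * (4 * M * (M + 1)) := by linarith
      have h8 : α * (4 * M * (M + 1)) ≤ (-1) * (4 * M * (M + 1)) :=
        mul_le_mul_of_nonneg_right (by omega) (by positivity)
      linarith
    have h7 : (2 * M + 1) * (α * (2 * M + 1) + β) ≤ (2 * M + 1) * (-1) :=
      mul_le_mul_of_nonneg_left h1 (by omega)
    have h8 : 0 ≤ α * ((2 * M + 1) * (2 * M + 1) + 1) := by positivity
    linarith
  · -- odd differences
    have h1 : α * (2 * M + 1) + β ≤ -M - 2 := by linarith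
    have h2 : 0 ≤ 2 * M - 1 - α + β * (2 * M + 1) := by linarith
    have h3 : 0 ≤ 3 * M + α * (2 * M + 1) - γ := by linarith
    have h4 : 0 ≤ Z + M - α + γ * (2 * M + 1) := by linarith
    have h5 : -1 ≤ α := by
      by_contra hc
      push Not at hc
      have h6 : 0 ≤ (2 * M + 1) * (3 * M + α * (2 * M + 1) - γ) := by
        apply mul_nonneg (by omega) h3
      have h7 : 0 ≤ 3 * M * (2 * M + 1) + Z + M + α * (4 * M * (M + 1)) := by linarith
      have h8 : α * (4 * M * (M + 1)) ≤ (-2) * (4 * M * (M + 1)) :=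
        mul_le_mul_of_nonneg_right (by omega) (by positivity)
      nlinarith
    have h8 : α < 0 := by
      by_contra hc
      push Not at hc
      have h7 : (2 * M + 1) * (α * (2 * M + 1) + β) ≤ (2 * M + 1) * (-M - 2) :=
        mul_le_mul_of_nonneg_left h1 (by omega)
      have h8 : 0 ≤ α * ((2 * M + 1) * (2 * M + 1) + 1) := by positivity
      nlinarith
    obtain rfl : α = -1 := by omega
    have h9 : 0 ≤ β := by
      by_contra hc
      push Not at hc
      nlinarith
    have h10 : -1 ≤ γ := by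
      by_contra hc
      push Not at hc
      nlinarith
    have h11 : β * (2 * M + 2) ≤ -2 - γ := by linarith
    have h12 : 0 ≤ β * (2 * M + 2) := by positivity
    omega

end

section
variable {M : ℕ}

/-- Elements of the Apery set which are maximal. -/
lemma maxAp_rep (hM : 4 ≤ M) {Z : ℕ} (hZ : Z < 2 * M - 1) :
    MaxAp (m := 7) (gg M) 0 (Finsupp.weight (gg M) (rep (2 * M) (2 * M) (M - 1) Z)) := by
  have hw := weight_rep M (2 * M) (2 * M) (M - 1) Z (by omega) (by omega) (by omega)
  refine ⟨⟨⟨_, rfl⟩, ?_⟩, ?_⟩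
  · intro u hu
    by_contra hc
    obtain ⟨w, rfl⟩ := split_single hc
    rw [map_add, Finsupp.weight_single, smul_eq_mul, one_mul] at hu
    have hw2 := weight_gg_int M w
    have hg0 : (gg M 0 : ℤ) = (2 * M + 1) * (2 * M * (M + 1)) := by
      simp [gg, xb, yb, zb]
    refine not_mem (M := (M : ℤ)) (Z := (Z : ℤ)) (by omega) (Q_of w) (by omega) ?_
    rw [← hw2]
    have h1 : (Finsupp.weight (gg M) w : ℤ) =
        Finsupp.weight (gg M) (rep (2 * M) (2 * M) (M - 1) Z) - gg M 0 := by
      rw [← hu]; push_cast; ring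
    rw [h1, hw, hg0]
    unfold W
    push_cast [Nat.cast_sub (show 1 ≤ M by omega)]
    ring
  · intro l hAp
    have hg : ∀ i : Fin 8, (gg M i : ℤ) = (2 * M + 1) * (2 * M * (M + 1)) + (2 * M + 1) * xb i
        + 2 * M * (M + 1) * yb i + (2 * M * (M + 1) + 1) * zb i := by
      intro i
      unfold gg
      push_cast
      ring
    set i : Fin 8 := Fin.succAbove 0 l
    have b1 := xb_le i
    have b2 := yb_le i
    have b3 := zb_le i
    have key : ∃ u : Fin 8 →₀ ℕ, Finsupp.weight (gg M) (u + Finsupp.single 0 1) =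
        Finsupp.weight (gg M) (rep (2 * M) (2 * M) (M - 1) Z) + gg M i := by
      rcases (by omega : xb i = 0 ∨ xb i = 1) with hx | hx
      · refine ⟨rep (2 * M) (2 * M) (M - 1 + yb i) (Z + zb i), ?_⟩
        have h2 := weight_rep M (2 * M) (2 * M) (M - 1 + yb i) (Z + zb i) (by omega) (by omega)
          (by omega)
        rw [map_add, Finsupp.weight_single, smul_eq_mul, one_mul]
        have h3 : ((Finsupp.weight (gg M) (rep (2 * M) (2 * M) (M - 1 + yb i) (Z + zb i))
            + gg M 0 : ℕ) : ℤ) =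
            ((Finsupp.weight (gg M) (rep (2 * M) (2 * M) (M - 1) Z) + gg M i : ℕ) : ℤ) := by
          push_cast
          rw [h2, hw, hg, hg, hx]
          simp only [xb, yb, zb]
          unfold W
          push_cast [Nat.cast_sub (show 1 ≤ M by omega)]
          simp
          ring
        exact_mod_cast h3
      · refine ⟨rep (2 * M) 0 (M + yb i) (Z + zb i + 1), ?_⟩
        have h2 := weight_rep M (2 * M) 0 (M + yb i) (Z + zb i + 1) (by omega) (by omega)
          (by omega)
        rw [map_add, Finsupp.weight_single, smul_eq_mul, one_mul]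
        have h3 : ((Finsupp.weight (gg M) (rep (2 * M) 0 (M + yb i) (Z + zb i + 1))
            + gg M 0 : ℕ) : ℤ) =
            ((Finsupp.weight (gg M) (rep (2 * M) (2 * M) (M - 1) Z) + gg M i : ℕ) : ℤ) := by
          push_cast
          rw [h2, hw, hg, hg, hx]
          simp only [xb, yb, zb]
          unfold W
          push_cast [Nat.cast_sub (show 1 ≤ M by omega)]
          simp
          ring
        exact_mod_cast h3
    obtain ⟨u, hu⟩ := key
    have := hAp.2 _ hu
    simp at this

variable {k : Type*} [Field k]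

/-- **The last Betti numbers are at least `2M - 1`.** -/
theorem res_ge (hM : 4 ≤ M) {r : ℕ → ℕ}
    {d : ∀ n, Matrix (Fin (r n)) (Fin (r (n + 1))) (MvPolynomial (Fin 8) k)}
    (h : IsRes k (gg M) r d) : 2 * M - 1 ≤ r 7 := by
  classical
  let T : Finset ℕ := (Finset.range (2 * M - 1)).image
    (fun Z => Finsupp.weight (gg M) (rep (2 * M) (2 * M) (M - 1) Z))
  have hT : ∀ n ∈ T, MaxAp (m := 7) (gg M) 0 n := by
    intro n hn
    simp only [T, Finset.mem_image, Finset.mem_range] at hn
    obtain ⟨Z, hZ, rfl⟩ := hn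
    exact maxAp_rep hM hZ
  have hc : T.card = 2 * M - 1 := by
    rw [Finset.card_image_of_injOn, Finset.card_range]
    intro Z hZ Z' hZ' he
    simp only [Finset.coe_range, Set.mem_Iio] at hZ hZ'
    have h1 := weight_rep M (2 * M) (2 * M) (M - 1) Z (by omega) (by omega) (by omega)
    have h2 := weight_rep M (2 * M) (2 * M) (M - 1) Z' (by omega) (by omega) (by omega)
    simp only at he
    rw [he, h2] at h1
    unfold W at h1
    have h3 : ((2 * (M : ℤ) * (M + 1) + 1)) * ((Z' : ℤ) - Z) = 0 := by linarith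
    have h4 : (2 * (M : ℤ) * (M + 1) + 1) ≠ 0 := by positivity
    have h5 := (mul_eq_zero.1 h3).resolve_left h4
    omega
  have := h.card_le (0 : Fin 8) T hT
  omega

end

end Pool.Agent.MP_05ef64_al.CE
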