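import Pool.Agent.MP_05ef64_al.CEStraight
import Pool.Agent.MP_05ef64_al.CEAll

set_option autoImplicit false

/-!
# Generators of the defining ideals

The ideal of the semigroup generated by the `gg M i` is generated by 73 binomials.
-/

namespace Pool.Agent.MP_05ef64_al.CE

open MvPolynomial

/-- The generators of the semigroups. -/
def gg (M : ℕ) (i : Fin 8) : ℕ :=
  (2 * M + 1) * (2 * M * (M + 1)) + (2 * M + 1) * xb i + 2 * M * (M + 1) * yb i
    + (2 * M * (M + 1) + 1) * zb i

lemma gg_pos {M : ℕ} (hM : 4 ≤ M) (i : Fin 8) : 0 < gg M i := by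
  unfold gg
  have : 0 < (2 * M + 1) * (2 * M * (M + 1)) := by positivity
  omega

lemma weight_gg (M : ℕ) (u : Fin 8 →₀ ℕ) : Finsupp.weight (gg M) u =
    (2 * M + 1) * (2 * M * (M + 1)) * dg u + (2 * M + 1) * sx u + 2 * M * (M + 1) * sy u
      + (2 * M * (M + 1) + 1) * sz u := by
  simp only [weight_eq, dg, sx, sy, sz, gg, Finset.mul_sum, ← Finset.sum_add_distrib]
  exact Finset.sum_congr rfl fun i _ => by ring

lemma weight_gg_int (M : ℕ) (u : Fin 8 →₀ ℕ) : (Finsupp.weight (gg M) u : ℤ) =
    W M (dg u) (sx u) (sy u) (sz u) := by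
  rw [weight_gg]
  unfold W
  push_cast
  ring

lemma sx_le (u : Fin 8 →₀ ℕ) : sx u ≤ dg u := by
  unfold sx dg
  rw [weight_eq, weight_eq]
  exact Finset.sum_le_sum fun i _ => Nat.mul_le_mul le_rfl (xb_le i)

lemma sy_le (u : Fin 8 →₀ ℕ) : sy u ≤ dg u := by
  unfold sy dg
  rw [weight_eq, weight_eq]
  exact Finset.sum_le_sum fun i _ => Nat.mul_le_mul le_rfl (yb_le i)

lemma sz_le (u : Fin 8 →₀ ℕ) : sz u ≤ dg u := by
  unfold sz dg
  rw [weight_eq, weight_eq]
  exact Finset.sum_le_sum fun i _ => Nat.mul_le_mul le_rfl (zb_le i)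

lemma Q_of (u : Fin 8 →₀ ℕ) : Q (dg u) (sx u) (sy u) (sz u) := by
  have h1 := sx_le u
  have h2 := sy_le u
  have h3 := sz_le u
  unfold Q
  omega

/-- A monomial with given degree and coordinate sums. -/
noncomputable def rep : ℕ → ℕ → ℕ → ℕ → (Fin 8 →₀ ℕ)
  | 0, _, _, _ => 0
  | d + 1, x, y, z => rep d (x - 1) (y - 1) (z - 1) +
      Finsupp.single (idx (min x 1) (min y 1) (min z 1)) 1

lemma xb_idx (a b c : ℕ) : xb (idx a b c) = min a 1 := by
  unfold idx
  split_ifs <;> simp [xb] <;> omega

lemma yb_idx (a b c : ℕ) : yb (idx a b c) = min b 1 := by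
  unfold idx
  split_ifs <;> simp [yb] <;> omega

lemma zb_idx (a b c : ℕ) : zb (idx a b c) = min c 1 := by
  unfold idx
  split_ifs <;> simp [zb] <;> omega

lemma dg_rep : ∀ d x y z : ℕ, dg (rep d x y z) = d
  | 0, _, _, _ => by simp [rep, dg]
  | d + 1, x, y, z => by rw [rep, dg_add, dg_single, dg_rep d]

lemma sx_rep : ∀ d x y z : ℕ, sx (rep d x y z) = min x d
  | 0, x, _, _ => by simp [rep, sx]
  | d + 1, x, y, z => by rw [rep, sx_add, sx_single, sx_rep d, xb_idx]; omega

lemma sy_rep : ∀ d x y z : ℕ, sy (rep d x y z) = min y d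
  | 0, x, _, _ => by simp [rep, sy]
  | d + 1, x, y, z => by rw [rep, sy_add, sy_single, sy_rep d, yb_idx]; omega

lemma sz_rep : ∀ d x y z : ℕ, sz (rep d x y z) = min z d
  | 0, x, _, _ => by simp [rep, sz]
  | d + 1, x, y, z => by rw [rep, sz_add, sz_single, sz_rep d, zb_idx]; omega

/-- The nine exceptional pairs. -/
noncomputable def relL (M : ℕ) : Fin 9 → (Fin 8 →₀ ℕ) :=
  ![rep (M + 1) 0 0 0, rep (M + 1) 0 (M + 1) 0, rep (M + 1) 0 0 (M + 1),
    rep (M + 1) 1 (M + 1) 0, rep (M + 1) 0 (M + 1) 1, rep (M + 1) 0 1 (M + 1),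
    rep (M + 1) 1 (M + 1) 1, rep (M + 1) 0 (M + 1) (M + 1), rep (M + 1) 1 (M + 1) (M + 1)]

noncomputable def relR (M : ℕ) : Fin 9 → (Fin 8 →₀ ℕ) :=
  ![rep M M M M, rep (M + 1) M 0 M, rep (M + 1) (M + 1) M 0,
    rep (M + 1) (M + 1) 0 M, rep (M + 1) M 0 (M + 1), rep (M + 1) (M + 1) (M + 1) 0,
    rep (M + 1) (M + 1) 0 (M + 1), rep (M + 2) (M + 1) 0 0, rep (M + 2) (M + 2) 0 0]

section
variable {k : Type*} [Field k] {I : Ideal (MvPolynomial (Fin 8) k)} {M : ℕ}

/-- Congruence of all monomials over two points. -/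
def CgP (I : Ideal (MvPolynomial (Fin 8) k)) (d x y z d' x' y' z' : ℤ) : Prop :=
  ∀ u v : Fin 8 →₀ ℕ, (dg u : ℤ) = d → (sx u : ℤ) = x → (sy u : ℤ) = y → (sz u : ℤ) = z →
    (dg v : ℤ) = d' → (sx v : ℤ) = x' → (sy v : ℤ) = y' → (sz v : ℤ) = z' → Cg I u v

lemma CgP.of_rep (hH : ∀ i j : Fin 8,
      (X i * X j - X (mt i j) * X (jn i j) : MvPolynomial (Fin 8) k) ∈ I)
    {d x y z d' x' y' z' : ℕ} (h : Cg I (rep d x y z) (rep d' x' y' z'))
    (h1 : x ≤ d) (h2 : y ≤ d) (h3 : z ≤ d) (h1' : x' ≤ d') (h2' : y' ≤ d') (h3' : z' ≤ d') :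
    CgP I d x y z d' x' y' z' := by
  intro u v e1 e2 e3 e4 e5 e6 e7 e8
  norm_cast at *
  have s1 : SameP u (rep d x y z) := by
    refine ⟨?_, ?_, ?_, ?_⟩
    · rw [dg_rep, e1]
    · rw [sx_rep, e2]; omega
    · rw [sy_rep, e3]; omega
    · rw [sz_rep, e4]; omega
  have s2 : SameP v (rep d' x' y' z') := by
    refine ⟨?_, ?_, ?_, ?_⟩
    · rw [dg_rep, e5]
    · rw [sx_rep, e6]; omega
    · rw [sy_rep, e7]; omega
    · rw [sz_rep, e8]; omega
  exact (straighten hH _ _ _ rfl s1).trans (h.trans (straighten hH _ _ _ rfl s2).symm)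

lemma CgP.symm {d x y z d' x' y' z' : ℤ} (h : CgP I d x y z d' x' y' z') :
    CgP I d' x' y' z' d x y z :=
  fun u v e1 e2 e3 e4 e5 e6 e7 e8 => (h v u e5 e6 e7 e8 e1 e2 e3 e4).symm

lemma CgP.trans {d x y z d' x' y' z' d'' x'' y'' z'' : ℤ} (hQ : Q d' x' y' z')
    (h : CgP I d x y z d' x' y' z') (h' : CgP I d' x' y' z' d'' x'' y'' z'') :
    CgP I d x y z d'' x'' y'' z'' := by
  intro u v e1 e2 e3 e4 e5 e6 e7 e8
  obtain ⟨a1, a2, a3, a4, a5, a6⟩ := hQ
  obtain ⟨d1, rfl⟩ := Int.eq_ofNat_of_zero_le (show 0 ≤ d' by omega)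
  obtain ⟨x1, rfl⟩ := Int.eq_ofNat_of_zero_le a1
  obtain ⟨y1, rfl⟩ := Int.eq_ofNat_of_zero_le a3
  obtain ⟨z1, rfl⟩ := Int.eq_ofNat_of_zero_le a5
  have b1 : (dg (rep d1 x1 y1 z1) : ℤ) = d1 := by rw [dg_rep]
  have b2 : (sx (rep d1 x1 y1 z1) : ℤ) = x1 := by rw [sx_rep, min_eq_left (by omega)]
  have b3 : (sy (rep d1 x1 y1 z1) : ℤ) = y1 := by rw [sy_rep, min_eq_left (by omega)]
  have b4 : (sz (rep d1 x1 y1 z1) : ℤ) = z1 := by rw [sz_rep, min_eq_left (by omega)]
  exact (h u _ e1 e2 e3 e4 b1 b2 b3 b4).trans (h' _ v b1 b2 b3 b4 e5 e6 e7 e8)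

/-- A shared bit. -/
lemma exists_bit {d x d' x' : ℕ} (h1 : x ≤ d) (h1' : x' ≤ d') (hd : 1 ≤ d) (hd' : 1 ≤ d')
    (h : NC d x d' x') : ∃ a : ℕ, a ≤ 1 ∧ a ≤ x ∧ a ≤ x' ∧ x - a ≤ d - 1 ∧ x' - a ≤ d' - 1 := by
  unfold NC at h
  by_cases hx : 1 ≤ x ∧ 1 ≤ x'
  · exact ⟨1, by omega, by omega, by omega, by omega, by omega⟩
  · exact ⟨0, by omega, by omega, by omega, by omega, by omega⟩

/-- **All binomials lie in the ideal.** -/
theorem binom_all (hM : 4 ≤ M)
    (hH : ∀ i j : Fin 8, (X i * X j - X (mt i j) * X (jn i j) : MvPolynomial (Fin 8) k) ∈ I)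
    (hR : ∀ a : Fin 9, Cg I (relL M a) (relR M a)) :
    ∀ (n : ℕ) (u v : Fin 8 →₀ ℕ), Finsupp.weight (gg M) u = n → Finsupp.weight (gg M) v = n →
      Cg I u v := by
  intro n
  induction n using Nat.strong_induction_on with
  | _ n ih =>
    have key : ∀ {d x y z d' x' y' z' : ℤ}, Conn M d x y z d' x' y' z' →
        Q d x y z ∧ Q d' x' y' z' ∧ W M d x y z = W M d' x' y' z' ∧
          (W M d x y z = n → CgP I d x y z d' x' y' z') := by
      intro d x y z d' x' y' z' hc
      induction hc with
      | share hQ hQ' hd hd' hW n1 n2 n3 =>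
        rename_i d x y z d' x' y' z'
        refine ⟨hQ, hQ', hW, ?_⟩
        intro hn u v e1 e2 e3 e4 e5 e6 e7 e8
        have hQu := Q_of u
        have hQv := Q_of v
        subst e1 e2 e3 e4 e5 e6 e7 e8
        obtain ⟨a, a1, a2, a3, a4, a5⟩ := exists_bit (sx_le u) (sx_le v) (by omega) (by omega) n1
        obtain ⟨b, b1, b2, b3, b4, b5⟩ := exists_bit (sy_le u) (sy_le v) (by omega) (by omega) n2
        obtain ⟨c, c1, c2, c3, c4, c5⟩ := exists_bit (sz_le u) (sz_le v) (by omega) (by omega) n3
        have s1 : SameP u (Finsupp.single (idx a b c) 1 +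
            rep (dg u - 1) (sx u - a) (sy u - b) (sz u - c)) := by
          refine ⟨?_, ?_, ?_, ?_⟩
          · rw [dg_add, dg_single, dg_rep]; omega
          · rw [sx_add, sx_single, sx_rep, xb_idx]; omega
          · rw [sy_add, sy_single, sy_rep, yb_idx]; omega
          · rw [sz_add, sz_single, sz_rep, zb_idx]; omega
        have s2 : SameP v (Finsupp.single (idx a b c) 1 +
            rep (dg v - 1) (sx v - a) (sy v - b) (sz v - c)) := by
          refine ⟨?_, ?_, ?_, ?_⟩
          · rw [dg_add, dg_single, dg_rep]; omega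
          · rw [sx_add, sx_single, sx_rep, xb_idx]; omega
          · rw [sy_add, sy_single, sy_rep, yb_idx]; omega
          · rw [sz_add, sz_single, sz_rep, zb_idx]; omega
        have hpos := gg_pos hM (idx a b c)
        have w1 : Finsupp.weight (gg M) (rep (dg u - 1) (sx u - a) (sy u - b) (sz u - c))
            + gg M (idx a b c) = n := by
          have t1 : (Finsupp.weight (gg M) (Finsupp.single (idx a b c) 1 +
              rep (dg u - 1) (sx u - a) (sy u - b) (sz u - c)) : ℤ) = n := by
            rw [weight_gg_int, ← s1.1, ← s1.2.1, ← s1.2.2.1, ← s1.2.2.2, hn]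
          rw [map_add, Finsupp.weight_single] at t1
          simp only [smul_eq_mul, one_mul] at t1
          omega
        have w2 : Finsupp.weight (gg M) (rep (dg v - 1) (sx v - a) (sy v - b) (sz v - c))
            + gg M (idx a b c) = n := by
          have t1 : (Finsupp.weight (gg M) (Finsupp.single (idx a b c) 1 +
              rep (dg v - 1) (sx v - a) (sy v - b) (sz v - c)) : ℤ) = n := by
            rw [weight_gg_int, ← s2.1, ← s2.2.1, ← s2.2.2.1, ← s2.2.2.2, ← hW, hn]
          rw [map_add, Finsupp.weight_single] at t1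
          simp only [smul_eq_mul, one_mul] at t1
          omega
        have h3 := (ih (n - gg M (idx a b c)) (by omega) _ _ (by omega :
          Finsupp.weight (gg M) (rep (dg u - 1) (sx u - a) (sy u - b) (sz u - c))
            = n - gg M (idx a b c)) (by omega :
          Finsupp.weight (gg M) (rep (dg v - 1) (sx v - a) (sy v - b) (sz v - c))
            = n - gg M (idx a b c))).add (Finsupp.single (idx a b c) 1)
        exact (straighten hH _ _ _ rfl s1).trans (h3.trans (straighten hH _ _ _ rfl s2).symm)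
      | rel1 =>
        refine ⟨?_, ?_, ?_, fun _ => ?_⟩
        · unfold Q; omega
        · unfold Q; omega
        · unfold W; ring
        · have := CgP.of_rep hH (hR 0) (by omega) (by omega) (by omega) (by omega) (by omega)
            (by omega)
          push_cast at this
          exact this
      | rel2 =>
        refine ⟨?_, ?_, ?_, fun _ => ?_⟩
        · unfold Q; omega
        · unfold Q; omega
        · unfold W; ring
        · have := CgP.of_rep hH (hR 1) (by omega) (by omega) (by omega) (by omega) (by omega)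
            (by omega)
          push_cast at this
          exact this
      | rel3 =>
        refine ⟨?_, ?_, ?_, fun _ => ?_⟩
        · unfold Q; omega
        · unfold Q; omega
        · unfold W; ring
        · have := CgP.of_rep hH (hR 2) (by omega) (by omega) (by omega) (by omega) (by omega)
            (by omega)
          push_cast at this
          exact this
      | rel4 =>
        refine ⟨?_, ?_, ?_, fun _ => ?_⟩
        · unfold Q; omega
        · unfold Q; omega
        · unfold W; ring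
        · have := CgP.of_rep hH (hR 3) (by omega) (by omega) (by omega) (by omega) (by omega)
            (by omega)
          push_cast at this
          exact this
      | rel5 =>
        refine ⟨?_, ?_, ?_, fun _ => ?_⟩
        · unfold Q; omega
        · unfold Q; omega
        · unfold W; ring
        · have := CgP.of_rep hH (hR 4) (by omega) (by omega) (by omega) (by omega) (by omega)
            (by omega)
          push_cast at this
          exact this
      | rel6 =>
        refine ⟨?_, ?_, ?_, fun _ => ?_⟩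
        · unfold Q; omega
        · unfold Q; omega
        · unfold W; ring
        · have := CgP.of_rep hH (hR 5) (by omega) (by omega) (by omega) (by omega) (by omega)
            (by omega)
          push_cast at this
          exact this
      | rel7 =>
        refine ⟨?_, ?_, ?_, fun _ => ?_⟩
        · unfold Q; omega
        · unfold Q; omega
        · unfold W; ring
        · have := CgP.of_rep hH (hR 6) (by omega) (by omega) (by omega) (by omega) (by omega)
            (by omega)
          push_cast at this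
          exact this
      | rel8 =>
        refine ⟨?_, ?_, ?_, fun _ => ?_⟩
        · unfold Q; omega
        · unfold Q; omega
        · unfold W; ring
        · have := CgP.of_rep hH (hR 7) (by omega) (by omega) (by omega) (by omega) (by omega)
            (by omega)
          push_cast at this
          exact this
      | rel9 =>
        refine ⟨?_, ?_, ?_, fun _ => ?_⟩
        · unfold Q; omega
        · unfold Q; omega
        · unfold W; ring
        · have := CgP.of_rep hH (hR 8) (by omega) (by omega) (by omega) (by omega) (by omega)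
            (by omega)
          push_cast at this
          exact this
      | zero =>
        refine ⟨?_, ?_, rfl, fun _ => ?_⟩
        · unfold Q; omega
        · unfold Q; omega
        · intro u v e1 e2 e3 e4 e5 e6 e7 e8
          apply straighten hH _ _ _ rfl
          refine ⟨by omega, by omega, by omega, by omega⟩
      | symm _ h =>
        obtain ⟨h1, h2, h3, h4⟩ := h
        exact ⟨h2, h1, h3.symm, fun hn => (h4 (h3.trans hn)).symm⟩
      | trans _ _ h h' =>
        obtain ⟨h1, h2, h3, h4⟩ := h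
        obtain ⟨h1', h2', h3', h4'⟩ := h'
        exact ⟨h1, h2', h3.trans h3', fun hn => (h4 hn).trans h1' (h4' (h3.symm.trans hn))⟩
    intro u v hu hv
    have hW : W M (dg u) (sx u) (sy u) (sz u) = W M (dg v) (sx v) (sy v) (sz v) := by
      rw [← weight_gg_int, ← weight_gg_int, hu, hv]
    have hc := conn_all (M := (M : ℤ)) (by omega) (Q_of u) (Q_of v) hW
    exact (key hc).2.2.2 (by rw [← weight_gg_int, hu]) u v rfl rfl rfl rfl rfl rfl rfl rfl

end

end Pool.Agent.MP_05ef64_al.CE
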