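import Pool.Agent.MP_05ef64_al.Gens

set_option autoImplicit false

/-!
# Straightening monomials on the vertices of the cube

Eight variables indexed by the vertices of the cube `{0,1}^3`.
-/

namespace Pool.Agent.MP_05ef64_al.CE

open MvPolynomial

/-- Coordinates of the vertices. -/
def xb : Fin 8 → ℕ := ![0, 1, 0, 0, 1, 1, 0, 1]
def yb : Fin 8 → ℕ := ![0, 0, 1, 0, 1, 0, 1, 1]
def zb : Fin 8 → ℕ := ![0, 0, 0, 1, 0, 1, 1, 1]

/-- The vertex with given coordinates. -/
def idx (a b c : ℕ) : Fin 8 :=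
  if a = 0 then (if b = 0 then (if c = 0 then 0 else 3) else (if c = 0 then 2 else 6))
  else (if b = 0 then (if c = 0 then 1 else 5) else (if c = 0 then 4 else 7))

/-- Join and meet of vertices. -/
def jn (i j : Fin 8) : Fin 8 := idx (max (xb i) (xb j)) (max (yb i) (yb j)) (max (zb i) (zb j))
def mt (i j : Fin 8) : Fin 8 := idx (min (xb i) (xb j)) (min (yb i) (yb j)) (min (zb i) (zb j))

lemma xb_le (i : Fin 8) : xb i ≤ 1 := by revert i; decide
lemma yb_le (i : Fin 8) : yb i ≤ 1 := by revert i; decide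
lemma zb_le (i : Fin 8) : zb i ≤ 1 := by revert i; decide

lemma xb_jn (i j : Fin 8) : xb (jn i j) = max (xb i) (xb j) := by revert i j; decide
lemma yb_jn (i j : Fin 8) : yb (jn i j) = max (yb i) (yb j) := by revert i j; decide
lemma zb_jn (i j : Fin 8) : zb (jn i j) = max (zb i) (zb j) := by revert i j; decide
lemma xb_mt (i j : Fin 8) : xb (mt i j) = min (xb i) (xb j) := by revert i j; decide
lemma yb_mt (i j : Fin 8) : yb (mt i j) = min (yb i) (yb j) := by revert i j; decide
lemma zb_mt (i j : Fin 8) : zb (mt i j) = min (zb i) (zb j) := by revert i j; decide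
lemma jn_self (i : Fin 8) : jn i i = i := by revert i; decide

lemma bits_inj (i j : Fin 8) (h1 : xb i = xb j) (h2 : yb i = yb j) (h3 : zb i = zb j) :
    i = j := by
  revert i j; decide

/-- Degree and coordinate sums of an exponent vector. -/
noncomputable def dg (u : Fin 8 →₀ ℕ) : ℕ := Finsupp.weight (fun _ : Fin 8 => (1 : ℕ)) u
noncomputable def sx (u : Fin 8 →₀ ℕ) : ℕ := Finsupp.weight xb u
noncomputable def sy (u : Fin 8 →₀ ℕ) : ℕ := Finsupp.weight yb u
noncomputable def sz (u : Fin 8 →₀ ℕ) : ℕ := Finsupp.weight zb u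

lemma dg_add (u v : Fin 8 →₀ ℕ) : dg (u + v) = dg u + dg v := map_add _ _ _
lemma sx_add (u v : Fin 8 →₀ ℕ) : sx (u + v) = sx u + sx v := map_add _ _ _
lemma sy_add (u v : Fin 8 →₀ ℕ) : sy (u + v) = sy u + sy v := map_add _ _ _
lemma sz_add (u v : Fin 8 →₀ ℕ) : sz (u + v) = sz u + sz v := map_add _ _ _

lemma dg_single (i : Fin 8) : dg (Finsupp.single i 1) = 1 := by
  simp [dg, Finsupp.weight_single]
lemma sx_single (i : Fin 8) : sx (Finsupp.single i 1) = xb i := by
  simp [sx, Finsupp.weight_single]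
lemma sy_single (i : Fin 8) : sy (Finsupp.single i 1) = yb i := by
  simp [sy, Finsupp.weight_single]
lemma sz_single (i : Fin 8) : sz (Finsupp.single i 1) = zb i := by
  simp [sz, Finsupp.weight_single]

lemma exists_of_weight_ne {w : Fin 8 → ℕ} {u : Fin 8 →₀ ℕ} (h : Finsupp.weight w u ≠ 0) :
    ∃ i, u i ≠ 0 ∧ w i ≠ 0 := by
  rw [weight_eq] at h
  obtain ⟨i, _, hi⟩ := Finset.exists_ne_zero_of_sum_ne_zero h
  exact ⟨i, left_ne_zero_of_mul hi, right_ne_zero_of_mul hi⟩

lemma weight_ne_of {w : Fin 8 → ℕ} {u : Fin 8 →₀ ℕ} {i : Fin 8} (h : u i ≠ 0) (hw : w i ≠ 0) :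
    Finsupp.weight w u ≠ 0 := by
  rw [weight_eq]
  intro h0
  rw [Finset.sum_eq_zero_iff] at h0
  have := h0 i (Finset.mem_univ i)
  rcases Nat.mul_eq_zero.mp this with h1 | h1
  · exact h h1
  · exact hw h1

lemma split_single {u : Fin 8 →₀ ℕ} {i : Fin 8} (h : u i ≠ 0) :
    ∃ w : Fin 8 →₀ ℕ, u = w + Finsupp.single i 1 := by
  refine ⟨u - Finsupp.single i 1, ?_⟩
  symm
  apply tsub_add_cancel_of_le
  rw [Finsupp.single_le_iff]; omega

/-- Equal degrees and coordinate sums. -/
def SameP (u v : Fin 8 →₀ ℕ) : Prop := dg u = dg v ∧ sx u = sx v ∧ sy u = sy v ∧ sz u = sz v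

section
variable {k : Type*} [Field k] (I : Ideal (MvPolynomial (Fin 8) k))

/-- Congruence of monomials modulo the ideal. -/
def Cg (u v : Fin 8 →₀ ℕ) : Prop := monomial u (1 : k) - monomial v 1 ∈ I

variable {I}

lemma Cg.refl (u : Fin 8 →₀ ℕ) : Cg I u u := by simp [Cg]

lemma Cg.symm {u v : Fin 8 →₀ ℕ} (h : Cg I u v) : Cg I v u := by
  have := I.neg_mem h
  rwa [neg_sub] at this

lemma Cg.trans {u v w : Fin 8 →₀ ℕ} (h : Cg I u v) (h' : Cg I v w) : Cg I u w := by
  have := I.add_mem h h'
  rwa [sub_add_sub_cancel] at this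

lemma Cg.add {u v : Fin 8 →₀ ℕ} (h : Cg I u v) (w : Fin 8 →₀ ℕ) : Cg I (w + u) (w + v) := by
  have := I.mul_mem_left (monomial w (1 : k)) h
  rwa [mul_sub, monomial_mul, monomial_mul, mul_one] at this

variable (hH : ∀ i j : Fin 8, (X i * X j - X (mt i j) * X (jn i j) : MvPolynomial (Fin 8) k) ∈ I)

include hH in
lemma swap (i j : Fin 8) : Cg I (Finsupp.single i 1 + Finsupp.single j 1)
    (Finsupp.single (mt i j) 1 + Finsupp.single (jn i j) 1) := by
  have := hH i j
  simp only [X, monomial_mul, mul_one] at this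
  exact this

include hH in
/-- Move the join of two vertices into the support. -/
lemma join_step {u : Fin 8 →₀ ℕ} {i j : Fin 8} (hi : u i ≠ 0) (hj : u j ≠ 0) :
    ∃ u', Cg I u u' ∧ SameP u u' ∧ u' (jn i j) ≠ 0 := by
  by_cases hij : i = j
  · subst hij
    exact ⟨u, Cg.refl u, ⟨rfl, rfl, rfl, rfl⟩, by rwa [jn_self]⟩
  · obtain ⟨w, rfl⟩ := split_single hj
    have hwi : w i ≠ 0 := by
      simpa [Finsupp.single_apply, Ne.symm hij] using hi
    obtain ⟨w', rfl⟩ := split_single hwi
    refine ⟨w' + (Finsupp.single (mt i j) 1 + Finsupp.single (jn i j) 1), ?_, ?_, ?_⟩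
    · have := (swap hH i j).add w'
      rwa [← add_assoc] at this
    · have h1 := xb_jn i j
      have h2 := yb_jn i j
      have h3 := zb_jn i j
      have h4 := xb_mt i j
      have h5 := yb_mt i j
      have h6 := zb_mt i j
      refine ⟨?_, ?_, ?_, ?_⟩
      · simp only [dg_add, dg_single]
      · simp only [sx_add, sx_single]
        omega
      · simp only [sy_add, sy_single]
        omega
      · simp only [sz_add, sz_single]
        omega
    · simp only [Finsupp.add_apply, Finsupp.single_apply]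
      split_ifs <;> omega

lemma SameP.symm {u v : Fin 8 →₀ ℕ} (h : SameP u v) : SameP v u :=
  ⟨h.1.symm, h.2.1.symm, h.2.2.1.symm, h.2.2.2.symm⟩

lemma SameP.trans {u v w : Fin 8 →₀ ℕ} (h : SameP u v) (h' : SameP v w) : SameP u w :=
  ⟨h.1.trans h'.1, h.2.1.trans h'.2.1, h.2.2.1.trans h'.2.2.1, h.2.2.2.trans h'.2.2.2⟩

include hH in
/-- Every non-constant monomial is congruent to one divisible by the top vertex. -/
lemma exists_top {u : Fin 8 →₀ ℕ} (hu : dg u ≠ 0) :
    ∃ u' i, Cg I u u' ∧ SameP u u' ∧ u' i ≠ 0 ∧ (sx u ≠ 0 → xb i = 1) ∧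
      (sy u ≠ 0 → yb i = 1) ∧ (sz u ≠ 0 → zb i = 1) := by
  -- first vertex
  obtain ⟨i1, h1, h1x⟩ : ∃ i, u i ≠ 0 ∧ (sx u ≠ 0 → xb i = 1) := by
    by_cases hx : sx u = 0
    · obtain ⟨i, hi, _⟩ := exists_of_weight_ne hu
      exact ⟨i, hi, fun h => absurd hx h⟩
    · obtain ⟨i, hi, hi'⟩ := exists_of_weight_ne hx
      exact ⟨i, hi, fun _ => by have := xb_le i; omega⟩
  -- second vertex
  obtain ⟨u2, i2, c2, p2, h2, h2x, h2y⟩ : ∃ u' i, Cg I u u' ∧ SameP u u' ∧ u' i ≠ 0 ∧
      (sx u ≠ 0 → xb i = 1) ∧ (sy u ≠ 0 → yb i = 1) := by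
    by_cases hy : sy u = 0
    · exact ⟨u, i1, Cg.refl u, ⟨rfl, rfl, rfl, rfl⟩, h1, h1x, fun h => absurd hy h⟩
    · obtain ⟨j, hj, hj'⟩ := exists_of_weight_ne hy
      obtain ⟨u', hc, hp, hu'⟩ := join_step hH h1 hj
      refine ⟨u', jn i1 j, hc, hp, hu', fun h => ?_, fun _ => ?_⟩
      · have a1 := h1x h
        have a2 := xb_jn i1 j
        have a3 := xb_le j
        omega
      · have a1 := yb_le j
        have a2 := yb_jn i1 j
        have a3 := yb_le i1
        omega
  by_cases hz : sz u = 0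
  · exact ⟨u2, i2, c2, p2, h2, h2x, h2y, fun h => absurd hz h⟩
  · have hz2 : sz u2 ≠ 0 := by rw [← p2.2.2.2]; exact hz
    obtain ⟨j, hj, hj'⟩ := exists_of_weight_ne hz2
    obtain ⟨u', hc, hp, hu'⟩ := join_step hH h2 hj
    refine ⟨u', jn i2 j, c2.trans hc, p2.trans hp, hu', fun h => ?_, fun h => ?_, fun _ => ?_⟩
    · have a1 := h2x h
      have a2 := xb_jn i2 j
      have a3 := xb_le j
      omega
    · have a1 := h2y h
      have a2 := yb_jn i2 j
      have a3 := yb_le j
      omega
    · have a1 := zb_le j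
      have a2 := zb_jn i2 j
      have a3 := zb_le i2
      omega

include hH in
/-- **Straightening**: monomials with equal degree and coordinate sums are congruent. -/
theorem straighten : ∀ (n : ℕ) (u v : Fin 8 →₀ ℕ), dg u = n → SameP u v → Cg I u v := by
  intro n
  induction n with
  | zero =>
    intro u v hu hp
    have hone : ∀ i : Fin 8, 0 < (fun _ : Fin 8 => (1 : ℕ)) i := fun _ => Nat.one_pos
    have h1 : u = 0 := weight_pos (fun _ : Fin 8 => (1 : ℕ)) hone hu
    have h2 : v = 0 := weight_pos (fun _ : Fin 8 => (1 : ℕ)) hone (hp.1.symm.trans hu)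
    rw [h1, h2]
    exact Cg.refl 0
  | succ n ih =>
    intro u v hu hp
    obtain ⟨u', i, cu, pu, hi, hix, hiy, hiz⟩ := exists_top hH (u := u) (by omega)
    obtain ⟨v', j, cv, pv, hj, hjx, hjy, hjz⟩ := exists_top hH (u := v) (by have := hp.1; omega)
    have hij : i = j := by
      obtain ⟨p1, p2, p3, p4⟩ := hp
      obtain ⟨q1, q2, q3, q4⟩ := pu
      obtain ⟨r1, r2, r3, r4⟩ := pv
      apply bits_inj
      · have a1 := xb_le i
        have a2 := xb_le j
        by_cases h0 : sx u = 0
        · have b1 : xb i = 0 := by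
            by_contra hne
            exact weight_ne_of hi hne (q2.symm.trans h0)
          have b2 : xb j = 0 := by
            by_contra hne
            exact weight_ne_of hj hne (r2.symm.trans (p2.symm.trans h0))
          rw [b1, b2]
        · rw [hix h0, hjx (p2 ▸ h0)]
      · by_cases h0 : sy u = 0
        · have b1 : yb i = 0 := by
            by_contra hne
            exact weight_ne_of hi hne (q3.symm.trans h0)
          have b2 : yb j = 0 := by
            by_contra hne
            exact weight_ne_of hj hne (r3.symm.trans (p3.symm.trans h0))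
          rw [b1, b2]
        · rw [hiy h0, hjy (p3 ▸ h0)]
      · by_cases h0 : sz u = 0
        · have b1 : zb i = 0 := by
            by_contra hne
            exact weight_ne_of hi hne (q4.symm.trans h0)
          have b2 : zb j = 0 := by
            by_contra hne
            exact weight_ne_of hj hne (r4.symm.trans (p4.symm.trans h0))
          rw [b1, b2]
        · rw [hiz h0, hjz (p4 ▸ h0)]
    subst hij
    obtain ⟨w, rfl⟩ := split_single hi
    obtain ⟨w', rfl⟩ := split_single hj
    have hpw : SameP (w + Finsupp.single i 1) (w' + Finsupp.single i 1) :=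
      pu.symm.trans (hp.trans pv)
    have hpw' : SameP w w' := by
      obtain ⟨p1, p2, p3, p4⟩ := hpw
      simp only [dg_add, sx_add, sy_add, sz_add] at p1 p2 p3 p4
      exact ⟨by omega, by omega, by omega, by omega⟩
    have hdw : dg w = n := by
      have := pu.1
      rw [dg_add, dg_single] at this
      omega
    have h3 := (ih w w' hdw hpw').add (Finsupp.single i 1)
    rw [add_comm _ w, add_comm _ w'] at h3
    exact cu.trans (h3.trans cv.symm)

end

end Pool.Agent.MP_05ef64_al.CE
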