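import Pool.Agent.MP_05ef64_al.GenBound

set_option autoImplicit false

/-!
# Existence of the combinatorial structure for four generators
-/

namespace Pool.Agent.MP_05ef64_al

section
variable {gx gy gz gw c : ℕ}

lemma P_of_le_z {j p q α : ℕ} (hα : α ≤ p) (h : P gx gy gz gw (j * gy + p * gz + q * gw)) :
    P gx gy gz gw (α * gz) := by
  have := P_down' (j := 0) (p := α) (q := 0) (Nat.zero_le j) hα (Nat.zero_le q) h
  simpa using this

lemma P_of_le_w {j p q α : ℕ} (hα : α ≤ q) (h : P gx gy gz gw (j * gy + p * gz + q * gw)) :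
    P gx gy gz gw (α * gw) := by
  have := P_down' (j := 0) (p := 0) (q := α) (Nat.zero_le j) (Nat.zero_le p) hα h
  simpa using this

/-- Uniqueness of normal forms from three pure power statements. -/
lemma uniq_of (hy : 0 < gy) (hz : 0 < gz) (hw : 0 < gw)
    (Fy : ∀ α β γ : ℕ, 0 < α → α < c → α * gy ≠ β * gz + γ * gw)
    (Fz : ∀ α β γ : ℕ, 0 < α → β < c → α * gz = β * gy + γ * gw → ¬ P gx gy gz gw (α * gz))
    (Fw : ∀ α β γ : ℕ, 0 < α → β < c → α * gw = β * gy + γ * gz → ¬ P gx gy gz gw (α * gw)) :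
    ∀ j p q j' p' q', j < c → j' < c → P gx gy gz gw (j * gy + p * gz + q * gw) →
    j * gy + p * gz + q * gw = j' * gy + p' * gz + q' * gw → j = j' ∧ p = p' ∧ q = q' := by
  intro j p q j' p' q' hj hj' hP he
  have hP' := hP
  rw [he] at hP'
  rcases Nat.lt_or_ge j' j with h1 | h1 <;> rcases Nat.lt_or_ge p' p with h2 | h2 <;>
    rcases Nat.lt_or_ge q' q with h3 | h3
  · exfalso
    have e1 : j' * gy < j * gy := Nat.mul_lt_mul_of_pos_right h1 hy
    have e2 : p' * gz < p * gz := Nat.mul_lt_mul_of_pos_right h2 hz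
    have e3 : q' * gw < q * gw := Nat.mul_lt_mul_of_pos_right h3 hw
    omega
  · exfalso
    obtain ⟨α, rfl⟩ := Nat.exists_eq_add_of_lt h1
    obtain ⟨β, rfl⟩ := Nat.exists_eq_add_of_lt h2
    obtain ⟨γ, rfl⟩ := Nat.exists_eq_add_of_le h3
    have e : γ * gw = (α + 1) * gy + (β + 1) * gz := by
      have : (q + γ) * gw = q * gw + γ * gw := by ring
      rw [this] at he
      have e1 : (j' + α + 1) * gy = j' * gy + (α + 1) * gy := by ring
      have e2 : (p' + β + 1) * gz = p' * gz + (β + 1) * gz := by ring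
      rw [e1, e2] at he
      omega
    have hpos : 0 < γ := by
      rcases Nat.eq_zero_or_pos γ with h0 | h0
      · subst h0
        have : 0 < (α + 1) * gy := by positivity
        omega
      · exact h0
    exact Fw γ (α + 1) (β + 1) hpos (by omega) e (P_of_le_w (by omega) hP')
  · exfalso
    obtain ⟨α, rfl⟩ := Nat.exists_eq_add_of_lt h1
    obtain ⟨β, rfl⟩ := Nat.exists_eq_add_of_le h2
    obtain ⟨γ, rfl⟩ := Nat.exists_eq_add_of_lt h3
    have e : β * gz = (α + 1) * gy + (γ + 1) * gw := by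
      have : (p + β) * gz = p * gz + β * gz := by ring
      rw [this] at he
      have e1 : (j' + α + 1) * gy = j' * gy + (α + 1) * gy := by ring
      have e2 : (q' + γ + 1) * gw = q' * gw + (γ + 1) * gw := by ring
      rw [e1, e2] at he
      omega
    have hpos : 0 < β := by
      rcases Nat.eq_zero_or_pos β with h0 | h0
      · subst h0
        have : 0 < (α + 1) * gy := by positivity
        omega
      · exact h0
    exact Fz β (α + 1) (γ + 1) hpos (by omega) e (P_of_le_z (by omega) hP')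
  · exfalso
    obtain ⟨α, rfl⟩ := Nat.exists_eq_add_of_lt h1
    obtain ⟨β, rfl⟩ := Nat.exists_eq_add_of_le h2
    obtain ⟨γ, rfl⟩ := Nat.exists_eq_add_of_le h3
    refine Fy (α + 1) β γ (by omega) (by omega) ?_
    have e1 : (j' + α + 1) * gy = j' * gy + (α + 1) * gy := by ring
    have e2 : (p + β) * gz = p * gz + β * gz := by ring
    have e3 : (q + γ) * gw = q * gw + γ * gw := by ring
    rw [e1, e2, e3] at he
    omega
  · exfalso
    obtain ⟨α, rfl⟩ := Nat.exists_eq_add_of_le h1
    obtain ⟨β, rfl⟩ := Nat.exists_eq_add_of_lt h2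
    obtain ⟨γ, rfl⟩ := Nat.exists_eq_add_of_lt h3
    have e : α * gy = (β + 1) * gz + (γ + 1) * gw := by
      have e1 : (j + α) * gy = j * gy + α * gy := by ring
      have e2 : (p' + β + 1) * gz = p' * gz + (β + 1) * gz := by ring
      have e3 : (q' + γ + 1) * gw = q' * gw + (γ + 1) * gw := by ring
      rw [e1, e2, e3] at he
      omega
    have hpos : 0 < α := by
      rcases Nat.eq_zero_or_pos α with h0 | h0
      · subst h0
        have : 0 < (β + 1) * gz := by positivity
        omega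
      · exact h0
    exact Fy α _ _ hpos (by omega) e
  · exfalso
    obtain ⟨α, rfl⟩ := Nat.exists_eq_add_of_le h1
    obtain ⟨β, rfl⟩ := Nat.exists_eq_add_of_lt h2
    obtain ⟨γ, rfl⟩ := Nat.exists_eq_add_of_le h3
    have e : (β + 1) * gz = α * gy + γ * gw := by
      have e1 : (j + α) * gy = j * gy + α * gy := by ring
      have e2 : (p' + β + 1) * gz = p' * gz + (β + 1) * gz := by ring
      have e3 : (q + γ) * gw = q * gw + γ * gw := by ring
      rw [e1, e2, e3] at he
      omega
    exact Fz (β + 1) α γ (by omega) (by omega) e (P_of_le_z (by omega) hP)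
  · exfalso
    obtain ⟨α, rfl⟩ := Nat.exists_eq_add_of_le h1
    obtain ⟨β, rfl⟩ := Nat.exists_eq_add_of_le h2
    obtain ⟨γ, rfl⟩ := Nat.exists_eq_add_of_lt h3
    have e : (γ + 1) * gw = α * gy + β * gz := by
      have e1 : (j + α) * gy = j * gy + α * gy := by ring
      have e2 : (p + β) * gz = p * gz + β * gz := by ring
      have e3 : (q' + γ + 1) * gw = q' * gw + (γ + 1) * gw := by ring
      rw [e1, e2, e3] at he
      omega
    exact Fw (γ + 1) α β (by omega) (by omega) e (P_of_le_w (by omega) hP)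
  · have e1 : j * gy ≤ j' * gy := Nat.mul_le_mul_right _ h1
    have e2 : p * gz ≤ p' * gz := Nat.mul_le_mul_right _ h2
    have e3 : q * gw ≤ q' * gw := Nat.mul_le_mul_right _ h3
    exact ⟨Nat.eq_of_mul_eq_mul_right hy (by omega), Nat.eq_of_mul_eq_mul_right hz (by omega),
      Nat.eq_of_mul_eq_mul_right hw (by omega)⟩

end

section
variable (g : Fin 4 → ℕ)

/-- `c g_j` is a combination of the other generators. -/
def Rep (j : Fin 4) (c : ℕ) (m : Fin 4 →₀ ℕ) : Prop :=
  m j = 0 ∧ Finsupp.weight g m = c * g j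

lemma exists_rep (j : Fin 4) (hg : ∀ l, 0 < g l) : ∃ c, 0 < c ∧ ∃ m, Rep g j c m := by
  obtain ⟨l, hl⟩ : ∃ l : Fin 4, l ≠ j := by
    have : ∀ j : Fin 4, ∃ l : Fin 4, l ≠ j := by decide
    exact this j
  refine ⟨g l, hg l, Finsupp.single l (g j), ?_, ?_⟩
  · simp [hl.symm]
  · rw [Finsupp.weight_single, smul_eq_mul, mul_comm]

open Classical in
/-- The critical number `c_j`. -/
noncomputable def crit (hg : ∀ l, 0 < g l) (j : Fin 4) : ℕ := Nat.find (exists_rep g j hg)

lemma crit_pos (hg : ∀ l, 0 < g l) (j : Fin 4) : 0 < crit g hg j := by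
  classical
  exact (Nat.find_spec (exists_rep g j hg)).1

lemma crit_rep (hg : ∀ l, 0 < g l) (j : Fin 4) : ∃ m, Rep g j (crit g hg j) m := by
  classical
  exact (Nat.find_spec (exists_rep g j hg)).2

lemma crit_le (hg : ∀ l, 0 < g l) {j : Fin 4} {c : ℕ} (hc : 0 < c) {m : Fin 4 →₀ ℕ}
    (hm : Rep g j c m) : crit g hg j ≤ c := by
  classical
  exact Nat.find_min' _ ⟨hc, m, hm⟩

/-- `j → l`: some representation of `c_j g_j` uses `g_l`. -/
def Arrow (hg : ∀ l, 0 < g l) (j l : Fin 4) : Prop :=
  ∃ m, Rep g j (crit g hg j) m ∧ m l ≠ 0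

variable {g}

lemma Enum4.rep_iff_y {i y z w : Fin 4} (h : Enum4 i y z w) {c s a b : ℕ}
    (he : c * g y = s * g i + a * g z + b * g w) : Rep g y c (E i y z w s 0 a b) := by
  refine ⟨h.E_y _ _ _ _, ?_⟩
  rw [h.weight_E, he]; ring

lemma Enum4.symm_z {i y z w : Fin 4} (h : Enum4 i y z w) : Enum4 i z y w :=
  ⟨h.iz, h.iy, h.iw, h.yz.symm, h.zw, h.yw⟩

lemma Enum4.symm_w {i y z w : Fin 4} (h : Enum4 i y z w) : Enum4 i w y z :=
  ⟨h.iw, h.iy, h.iz, h.yw.symm, h.zw.symm, h.yz⟩

/-- A pure power beyond the critical number of a variable with an arrow to `i` is not Apery. -/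
lemma not_P_of_arrow {i y z w : Fin 4} (h : Enum4 i y z w) (hg : ∀ l, 0 < g l) {l : Fin 4}
    (hl : Arrow g hg l i) {α : ℕ} (hα : crit g hg l ≤ α) :
    ¬ P (g i) (g y) (g z) (g w) (α * g l) := by
  intro hP
  obtain ⟨m, hm, hmi⟩ := hl
  obtain ⟨β, rfl⟩ := Nat.exists_eq_add_of_le hα
  have hw : Finsupp.weight g (m + Finsupp.single l β) = (crit g hg l + β) * g l := by
    rw [map_add, hm.2, Finsupp.weight_single, smul_eq_mul]; ring
  have := hP.2 _ _ _ _ ((h.weight g _).symm.trans hw)
  simp only [Finsupp.add_apply, Nat.add_eq_zero_iff] at this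
  exact hmi this.1

/-- Case 1: two variables have arrows to `i`. -/
lemma kdata_case1 {i y z w : Fin 4} (h : Enum4 i y z w) (hg : ∀ l, 0 < g l)
    (hz : Arrow g hg z i) (hw : Arrow g hg w i) :
    ∃ c s a b, KData (g i) (g y) (g z) (g w) c s a b := by
  obtain ⟨m, hm1, hm2⟩ := crit_rep g hg y
  refine ⟨crit g hg y, m i, m z, m w, hg i, hg y, hg z, hg w, crit_pos g hg y, ?_, ?_⟩
  · rw [← hm2, h.weight, hm1]; ring
  · refine uniq_of (hg y) (hg z) (hg w) ?_ ?_ ?_
    · intro α β γ h1 h2 h3
      have := crit_le g hg h1 (h.rep_iff_y (s := 0) (a := β) (b := γ) (c := α) (by rw [h3]; ring))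
      omega
    · intro α β γ h1 _ h3
      apply not_P_of_arrow h hg hz
      exact crit_le g hg h1 (h.symm_z.rep_iff_y (s := 0) (a := β) (b := γ) (c := α)
        (by rw [h3]; ring))
    · intro α β γ h1 _ h3
      apply not_P_of_arrow h hg hw
      exact crit_le g hg h1 (h.symm_w.rep_iff_y (s := 0) (a := β) (b := γ) (c := α)
        (by rw [h3]; ring))

/-- Case 2: `c_i g_i = c_w g_w` and `c_y g_y = c_z g_z`. -/
lemma kdata_case2 {i y z w : Fin 4} (h : Enum4 i y z w) (hg : ∀ l, 0 < g l)
    (h1 : crit g hg i * g i = crit g hg w * g w) (h2 : crit g hg y * g y = crit g hg z * g z) :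
    ∃ c s a b, KData (g i) (g y) (g z) (g w) c s a b := by
  have hwi : Arrow g hg w i := by
    refine ⟨Finsupp.single i (crit g hg i), ⟨by simp [h.iw], ?_⟩, ?_⟩
    · rw [Finsupp.weight_single, smul_eq_mul, h1]
    · simpa using (crit_pos g hg i).ne'
  refine ⟨crit g hg y, 0, crit g hg z, 0, hg i, hg y, hg z, hg w, crit_pos g hg y, ?_, ?_⟩
  · rw [h2]; ring
  · refine uniq_of (hg y) (hg z) (hg w) ?_ ?_ ?_
    · intro α β γ h1 h2 h3
      have := crit_le g hg h1 (h.rep_iff_y (s := 0) (a := β) (b := γ) (c := α) (by rw [h3]; ring))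
      omega
    · intro α β γ hα hβ h3 hP
      have hzα := crit_le g hg hα (h.symm_z.rep_iff_y (s := 0) (a := β) (b := γ) (c := α)
        (by rw [h3]; ring))
      obtain ⟨δ, rfl⟩ := Nat.exists_eq_add_of_le hzα
      obtain ⟨ε, hε⟩ := Nat.exists_eq_add_of_lt hβ
      -- `γ g_w = (c - β) g_y + δ g_z`
      have e : γ * g w = (ε + 1) * g y + δ * g z := by
        have e1 : (crit g hg z + δ) * g z = crit g hg y * g y + δ * g z := by rw [h2]; ring
        rw [e1] at h3
        have e2 : crit g hg y * g y = β * g y + (ε + 1) * g y := by rw [hε]; ring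
        rw [e2] at h3
        omega
      have hγ : 0 < γ := by
        rcases Nat.eq_zero_or_pos γ with h0 | h0
        · subst h0
          have := hg y
          have : 0 < (ε + 1) * g y := by positivity
          omega
        · exact h0
      have hwγ := crit_le g hg hγ (h.symm_w.rep_iff_y (s := 0) (a := ε + 1) (b := δ) (c := γ)
        (by rw [e]; ring))
      obtain ⟨η, rfl⟩ := Nat.exists_eq_add_of_le hwγ
      have := hP.2 (crit g hg i) β 0 η (by rw [h3, h1]; ring)
      exact (crit_pos g hg i).ne' this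
    · intro α β γ hα _ h3
      apply not_P_of_arrow h hg hwi
      exact crit_le g hg hα (h.symm_w.rep_iff_y (s := 0) (a := β) (b := γ) (c := α)
        (by rw [h3]; ring))

/-- The combinatorial structure always exists. -/
theorem exists_kdata (hg : ∀ l, 0 < g l) :
    ∃ i y z w c s a b, Enum4 i y z w ∧ KData (g i) (g y) (g z) (g w) c s a b := by
  classical
  by_cases hc : ∃ i z w : Fin 4, z ≠ i ∧ w ≠ i ∧ z ≠ w ∧ Arrow g hg z i ∧ Arrow g hg w i
  · obtain ⟨i, z, w, h1, h2, h3, h4, h5⟩ := hc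
    obtain ⟨y, hy1, hy2, hy3⟩ : ∃ y : Fin 4, i ≠ y ∧ y ≠ z ∧ y ≠ w := by
      have : ∀ i z w : Fin 4, ∃ y : Fin 4, i ≠ y ∧ y ≠ z ∧ y ≠ w := by decide
      exact this i z w
    have h : Enum4 i y z w := ⟨hy1, h1.symm, h2.symm, hy2, hy3, h3⟩
    obtain ⟨c, s, a, b, K⟩ := kdata_case1 h hg h4 h5
    exact ⟨i, y, z, w, c, s, a, b, h, K⟩
  · have H : ∀ i j j' : Fin 4, j ≠ i → j' ≠ i → Arrow g hg j i → Arrow g hg j' i → j = j' := by
      intro i j j' h1 h2 h3 h4
      by_contra hne
      exact hc ⟨i, j, j', h1, h2, hne, h3, h4⟩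
    have hout : ∀ j : Fin 4, ∃ l, l ≠ j ∧ Arrow g hg j l := by
      intro j
      obtain ⟨m, hm1, hm2⟩ := crit_rep g hg j
      have hm0 : m ≠ 0 := by
        rintro rfl
        have h1 := crit_pos g hg j
        have h2 := hg j
        have : 0 < crit g hg j * g j := by positivity
        rw [map_zero] at hm2
        omega
      obtain ⟨l, hl⟩ := Finsupp.ne_iff.1 hm0
      have hl' : m l ≠ 0 := by simpa using hl
      exact ⟨l, fun h => hl' (h ▸ hm1), m, ⟨hm1, hm2⟩, hl'⟩
    choose π hπ1 hπ2 using hout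
    have hinj : Function.Injective π := by
      intro j j' hjj
      exact H (π j) j j' (hπ1 j).symm (hjj ▸ (hπ1 j').symm) (hπ2 j) (hjj ▸ hπ2 j')
    have hbij : Function.Bijective π := Finite.injective_iff_bijective.1 hinj
    have huniq : ∀ j l, l ≠ j → Arrow g hg j l → l = π j := by
      intro j l h1 h2
      obtain ⟨j', rfl⟩ := hbij.2 l
      rw [H (π j') j j' h1.symm (hπ1 j').symm h2 (hπ2 j')]
    have hle : ∀ j, crit g hg (π j) * g (π j) ≤ crit g hg j * g j := by
      intro j
      obtain ⟨m, hm, hml⟩ := hπ2 j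
      have hsupp : ∀ l, l ≠ π j → m l = 0 := by
        intro l hl
        by_contra hne
        apply hl
        apply huniq j l _ ⟨m, hm, hne⟩
        rintro rfl
        exact hne hm.1
      have hwt : m (π j) * g (π j) = crit g hg j * g j := by
        rw [← hm.2, weight_eq]
        symm
        apply Finset.sum_eq_single
        · intro l _ hl
          rw [hsupp l hl, zero_mul]
        · simp
      have hrep : Rep g (π j) (m (π j)) (Finsupp.single j (crit g hg j)) := by
        refine ⟨by simp [(hπ1 j)], ?_⟩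
        rw [Finsupp.weight_single, smul_eq_mul, hwt]
      have := crit_le g hg (Nat.pos_of_ne_zero hml) hrep
      rw [← hwt]
      exact Nat.mul_le_mul_right _ this
    have heq : ∀ j, crit g hg (π j) * g (π j) = crit g hg j * g j := by
      have hsum : ∑ j, crit g hg (π j) * g (π j) = ∑ j, crit g hg j * g j :=
        Function.Bijective.sum_comp hbij (fun j => crit g hg j * g j)
      have := (Finset.sum_eq_sum_iff_of_le (fun j _ => hle j)).1 hsum
      exact fun j => this j (Finset.mem_univ j)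
    have hinv : ∀ j, π (π j) = j := by
      intro j
      by_contra hne
      have h1 : crit g hg (π (π j)) * g (π (π j)) = crit g hg j * g j := by
        rw [heq, heq]
      have h2 : Arrow g hg j (π (π j)) := by
        refine ⟨Finsupp.single (π (π j)) (crit g hg (π (π j))), ⟨by simp [hne], ?_⟩, ?_⟩
        · rw [Finsupp.weight_single, smul_eq_mul, h1]
        · simpa using (crit_pos g hg _).ne'
      exact hπ1 (π j) (huniq j _ hne h2)
    obtain ⟨y, hy1, hy2⟩ : ∃ y : Fin 4, y ≠ 0 ∧ y ≠ π 0 := by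
      have : ∀ w : Fin 4, ∃ y : Fin 4, y ≠ 0 ∧ y ≠ w := by decide
      exact this (π 0)
    have h : Enum4 0 y (π y) (π 0) :=
      { iy := hy1.symm
        iz := fun h0 => hy2 (by rw [h0, hinv])
        iw := (hπ1 0).symm
        yz := (hπ1 y).symm
        yw := hy2
        zw := fun h0 => hy1 (hinj h0) }
    obtain ⟨c, s, a, b, K⟩ := kdata_case2 h hg (heq 0).symm (heq y).symm
    exact ⟨0, y, π y, π 0, c, s, a, b, h, K⟩

end

end Pool.Agent.MP_05ef64_al
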