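import Mathlib

set_option autoImplicit false

/-!
# Combinatorics of Apery sets with at most one relation in three variables
-/

namespace Pool.Agent.MP_05ef64_al

/-- Apery set of `⟨gx, gy, gz, gw⟩` with respect to `gx`. -/
def P (gx gy gz gw n : ℕ) : Prop :=
  (∃ j p q, j * gy + p * gz + q * gw = n) ∧
    ∀ s j p q, s * gx + j * gy + p * gz + q * gw = n → s = 0

/-- The structure used: one relation `c gy = s gx + a gz + b gw`, and unique normal forms with
`j < c` in the Apery set. -/
structure KData (gx gy gz gw c s a b : ℕ) : Prop where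
  hx : 0 < gx
  hy : 0 < gy
  hz : 0 < gz
  hw : 0 < gw
  hc : 0 < c
  rel : c * gy = s * gx + a * gz + b * gw
  uniq : ∀ j p q j' p' q', j < c → j' < c → P gx gy gz gw (j * gy + p * gz + q * gw) →
    j * gy + p * gz + q * gw = j' * gy + p' * gz + q' * gw → j = j' ∧ p = p' ∧ q = q'

section
variable {gx gy gz gw c s a b : ℕ}

lemma P_down {j p q j' p' q' : ℕ}
    (h : P gx gy gz gw ((j + j') * gy + (p + p') * gz + (q + q') * gw)) :
    P gx gy gz gw (j * gy + p * gz + q * gw) := by
  refine ⟨⟨j, p, q, rfl⟩, fun s j1 p1 q1 h1 => ?_⟩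
  refine h.2 s (j1 + j') (p1 + p') (q1 + q') ?_
  have : (j + j') * gy + (p + p') * gz + (q + q') * gw
      = (j * gy + p * gz + q * gw) + (j' * gy + p' * gz + q' * gw) := by ring
  rw [this, ← h1]
  ring

lemma P_down' {j p q j' p' q' : ℕ} (hj : j ≤ j') (hp : p ≤ p') (hq : q ≤ q')
    (h : P gx gy gz gw (j' * gy + p' * gz + q' * gw)) :
    P gx gy gz gw (j * gy + p * gz + q * gw) := by
  obtain ⟨j', rfl⟩ := Nat.exists_eq_add_of_le hj
  obtain ⟨p', rfl⟩ := Nat.exists_eq_add_of_le hp
  obtain ⟨q', rfl⟩ := Nat.exists_eq_add_of_le hq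
  exact P_down h

/-- Normal forms. -/
lemma KData.exists_nf (K : KData gx gy gz gw c s a b) : ∀ (j p q : ℕ),
    P gx gy gz gw (j * gy + p * gz + q * gw) →
    ∃ κ j' , j' < c ∧ (s = 0 ∨ κ = 0) ∧ j = j' + κ * c ∧
      j' * gy + (p + κ * a) * gz + (q + κ * b) * gw = j * gy + p * gz + q * gw := by
  intro j
  induction j using Nat.strong_induction_on with
  | _ j ih =>
    intro p q hP
    by_cases hj : j < c
    · exact ⟨0, j, hj, Or.inr rfl, by simp, by simp⟩
    · push Not at hj
      obtain ⟨j1, rfl⟩ := Nat.exists_eq_add_of_le hj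
      have hrel := K.rel
      have hs : s = 0 := by
        refine hP.2 s j1 (p + a) (q + b) ?_
        have : (c + j1) * gy = c * gy + j1 * gy := by ring
        rw [this, hrel]; ring
      subst hs
      have heq : j1 * gy + (p + a) * gz + (q + b) * gw = (c + j1) * gy + p * gz + q * gw := by
        have : (c + j1) * gy = c * gy + j1 * gy := by ring
        rw [this, hrel]; ring
      obtain ⟨κ, j', h1, _, h3, h4⟩ := ih j1 (by have := K.hc; omega) (p + a) (q + b)
        (by rw [heq]; exact hP)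
      refine ⟨κ + 1, j', h1, Or.inl rfl, by rw [h3]; ring, ?_⟩
      rw [← heq, ← h4]; ring

/-- The class of a triple. -/
def MinT (gx gy gz gw c s a b : ℕ) (j p q : ℕ) : Prop :=
  ¬ P gx gy gz gw (j * gy + p * gz + q * gw) ∧
  ∀ κ : ℤ, (s = 0 ∨ κ = 0) → ∀ j' p' q' : ℕ, (j' : ℤ) = j + κ * c → (p' : ℤ) = p - κ * a →
    (q' : ℤ) = q - κ * b →
    (1 ≤ j' → P gx gy gz gw ((j' - 1) * gy + p' * gz + q' * gw)) ∧
    (1 ≤ p' → P gx gy gz gw (j' * gy + (p' - 1) * gz + q' * gw)) ∧
    (1 ≤ q' → P gx gy gz gw (j' * gy + p' * gz + (q' - 1) * gw))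

lemma KData.wt_shift (K : KData gx gy gz gw c 0 a b) {κ : ℤ} {j p q j' p' q' : ℕ}
    (hj : (j' : ℤ) = j + κ * c) (hp : (p' : ℤ) = p - κ * a) (hq : (q' : ℤ) = q - κ * b) :
    j' * gy + p' * gz + q' * gw = j * gy + p * gz + q * gw := by
  have hrel : ((c : ℤ)) * gy = a * gz + b * gw := by
    have := K.rel
    rw [zero_mul, zero_add] at this
    exact_mod_cast this
  zify
  rw [hj, hp, hq]
  linear_combination κ * hrel

lemma KData.wt_shift' (K : KData gx gy gz gw c s a b) {κ : ℤ} (hκ : s = 0 ∨ κ = 0)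
    {j p q j' p' q' : ℕ}
    (hj : (j' : ℤ) = j + κ * c) (hp : (p' : ℤ) = p - κ * a) (hq : (q' : ℤ) = q - κ * b) :
    j' * gy + p' * gz + q' * gw = j * gy + p * gz + q * gw := by
  rcases hκ with rfl | rfl
  · exact K.wt_shift hj hp hq
  · have h1 : j' = j := by simpa using hj
    have h2 : p' = p := by simpa using hp
    have h3 : q' = q := by simpa using hq
    rw [h1, h2, h3]

/-- Reduction of the first exponent below `c` when `s = 0`. -/
lemma KData.reduce (K : KData gx gy gz gw c s a b) (j p q : ℕ) :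
    ∃ (κ : ℤ) (j' p' q' : ℕ), (s = 0 ∨ κ = 0) ∧ (j' : ℤ) = j + κ * c ∧ (p' : ℤ) = p - κ * a ∧
      (q' : ℤ) = q - κ * b ∧ (s = 0 → j' < c) := by
  by_cases hs : s = 0
  · refine ⟨-(j / c : ℕ), j % c, p + (j / c) * a, q + (j / c) * b, Or.inl hs, ?_, ?_, ?_,
      fun _ => Nat.mod_lt _ K.hc⟩
    · have := Nat.mod_add_div j c
      zify at this ⊢
      linarith
    · push_cast; ring
    · push_cast; ring
  · exact ⟨0, j, p, q, Or.inr rfl, by simp, by simp, by simp, fun h => absurd h hs⟩

/-- Below every triple of non-Apery degree there is a reduced minimal triple. -/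
lemma KData.exists_min (K : KData gx gy gz gw c s a b) : ∀ (n j p q : ℕ),
    j * gy + p * gz + q * gw = n → ¬ P gx gy gz gw n →
    ∃ (j0 p0 q0 : ℕ), MinT gx gy gz gw c s a b j0 p0 q0 ∧ (s = 0 → j0 < c) ∧
      ∃ (κ : ℤ) (j' p' q' : ℕ), (s = 0 ∨ κ = 0) ∧ (j' : ℤ) = j + κ * c ∧
        (p' : ℤ) = p - κ * a ∧ (q' : ℤ) = q - κ * b ∧ j0 ≤ j' ∧ p0 ≤ p' ∧ q0 ≤ q' := by
  intro n
  induction n using Nat.strong_induction_on with
  | _ n ih =>
    intro j p q hn hP
    obtain ⟨κ, j1, p1, q1, hκ, hj, hp, hq, hred⟩ := K.reduce j p q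
    have hwt := K.wt_shift' hκ hj hp hq
    by_cases hmin : MinT gx gy gz gw c s a b j1 p1 q1
    · exact ⟨j1, p1, q1, hmin, hred, κ, j1, p1, q1, hκ, hj, hp, hq, le_rfl, le_rfl, le_rfl⟩
    · have hy := K.hy
      have hz := K.hz
      have hw := K.hw
      unfold MinT at hmin
      rw [hwt, hn] at hmin
      have h2 := not_and.1 hmin hP
      push Not at h2
      obtain ⟨κ', hκ', j2, p2, q2, hj2, hp2, hq2, h3⟩ := h2
      have hwt2 := K.wt_shift' hκ' hj2 hp2 hq2
      have hsκ : s = 0 ∨ κ + κ' = 0 := by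
        rcases hκ with h | h
        · exact Or.inl h
        · rcases hκ' with h' | h'
          · exact Or.inl h'
          · right; rw [h, h']; rfl
      by_cases hA : 1 ≤ j2 ∧ ¬ P gx gy gz gw ((j2 - 1) * gy + p2 * gz + q2 * gw)
      · obtain ⟨j3, rfl⟩ := Nat.exists_eq_add_of_le' hA.1
        simp only [Nat.add_sub_cancel] at hA
        have hlt : j3 * gy + p2 * gz + q2 * gw < n := by
          rw [← hn, ← hwt, ← hwt2, add_mul]; omega
        obtain ⟨j0, p0, q0, hm, hr, κ3, j4, p4, q4, e1, e2, e3, e4, l1, l2, l3⟩ :=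
          ih _ hlt j3 p2 q2 rfl hA.2
        refine ⟨j0, p0, q0, hm, hr, κ + κ' + κ3, j4 + 1, p4, q4, ?_, ?_, ?_, ?_, by omega, l2, l3⟩
        · rcases hsκ with h | h
          · exact Or.inl h
          · rcases e1 with h' | h'
            · exact Or.inl h'
            · right; rw [h, h']; rfl
        · push_cast at hj2 ⊢
          rw [e2]; linear_combination hj2 + hj
        · rw [e3]; linear_combination hp2 + hp
        · rw [e4]; linear_combination hq2 + hq
      · by_cases hB : 1 ≤ p2 ∧ ¬ P gx gy gz gw (j2 * gy + (p2 - 1) * gz + q2 * gw)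
        · obtain ⟨p3, rfl⟩ := Nat.exists_eq_add_of_le' hB.1
          simp only [Nat.add_sub_cancel] at hB
          have hlt : j2 * gy + p3 * gz + q2 * gw < n := by
            rw [← hn, ← hwt, ← hwt2, add_mul]; omega
          obtain ⟨j0, p0, q0, hm, hr, κ3, j4, p4, q4, e1, e2, e3, e4, l1, l2, l3⟩ :=
            ih _ hlt j2 p3 q2 rfl hB.2
          refine ⟨j0, p0, q0, hm, hr, κ + κ' + κ3, j4, p4 + 1, q4, ?_, ?_, ?_, ?_, l1, by omega,
            l3⟩
          · rcases hsκ with h | h
            · exact Or.inl h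
            · rcases e1 with h' | h'
              · exact Or.inl h'
              · right; rw [h, h']; rfl
          · rw [e2]; linear_combination hj2 + hj
          · push_cast at hp2 ⊢
            rw [e3]; linear_combination hp2 + hp
          · rw [e4]; linear_combination hq2 + hq
        · have hC : 1 ≤ q2 ∧ ¬ P gx gy gz gw (j2 * gy + p2 * gz + (q2 - 1) * gw) := by
            apply h3
            · intro h; by_contra h'; exact hA ⟨h, h'⟩
            · intro h; by_contra h'; exact hB ⟨h, h'⟩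
          obtain ⟨q3, rfl⟩ := Nat.exists_eq_add_of_le' hC.1
          simp only [Nat.add_sub_cancel] at hC
          have hlt : j2 * gy + p2 * gz + q3 * gw < n := by
            rw [← hn, ← hwt, ← hwt2, add_mul]; omega
          obtain ⟨j0, p0, q0, hm, hr, κ3, j4, p4, q4, e1, e2, e3, e4, l1, l2, l3⟩ :=
            ih _ hlt j2 p2 q3 rfl hC.2
          refine ⟨j0, p0, q0, hm, hr, κ + κ' + κ3, j4, p4, q4 + 1, ?_, ?_, ?_, ?_, l1, l2,
            by omega⟩
          · rcases hsκ with h | h
            · exact Or.inl h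
            · rcases e1 with h' | h'
              · exact Or.inl h'
              · right; rw [h, h']; rfl
          · rw [e2]; linear_combination hj2 + hj
          · rw [e3]; linear_combination hp2 + hp
          · push_cast at hq2 ⊢
            rw [e4]; linear_combination hq2 + hq

/-- If `κ ≥ 1` and `μ` lies below the shifted triple, then `μ` has Apery degree as soon as it
lies below `(j + c, p - a, q - b)`. -/
lemma KData.P_of_shift (K : KData gx gy gz gw c 0 a b) {j p q j0 p0 q0 : ℕ}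
    (hP : P gx gy gz gw (j * gy + p * gz + q * gw)) (hj : j0 ≤ j + c) (hp : p0 + a ≤ p)
    (hq : q0 + b ≤ q) : P gx gy gz gw (j0 * gy + p0 * gz + q0 * gw) := by
  have h1 := K.wt_shift (κ := 1) (j := j) (p := p) (q := q) (j' := j + c) (p' := p - a)
    (q' := q - b) (by push_cast; ring) (by rw [Nat.cast_sub (by omega)]; ring)
    (by rw [Nat.cast_sub (by omega)]; ring)
  rw [← h1] at hP
  exact P_down' hj (by omega) (by omega) hP

lemma kappa_cases {c j j' : ℕ} {κ : ℤ} (hc : j < c) (h : (j' : ℤ) = j + κ * c) : 0 ≤ κ := by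
  by_contra hneg
  push Not at hneg
  have h1 : κ * c ≤ -c := by nlinarith
  have h2 : (0 : ℤ) ≤ j' := Int.natCast_nonneg _
  have h3 : (j : ℤ) < c := by exact_mod_cast hc
  linarith

lemma KData.key_z (K : KData gx gy gz gw c s a b) {j p q : ℕ} (hj : j < c)
    (hP : P gx gy gz gw (j * gy + p * gz + q * gw))
    (hn : ¬ P gx gy gz gw (j * gy + (p + 1) * gz + q * gw)) :
    ∃ j0 p0 q0, MinT gx gy gz gw c s a b j0 p0 q0 ∧ (s = 0 → j0 < c) ∧
      (p + 1 = p0 ∨ p + 1 = p0 + a) := by
  obtain ⟨j0, p0, q0, hm, hr, κ, j', p', q', e1, e2, e3, e4, l1, l2, l3⟩ :=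
    K.exists_min _ j (p + 1) q rfl hn
  refine ⟨j0, p0, q0, hm, hr, ?_⟩
  have hκ := kappa_cases hj e2
  rcases eq_or_lt_of_le hκ with h0 | h0
  · left
    subst h0
    simp only [zero_mul, add_zero, sub_zero, Nat.cast_inj] at e2 e3 e4
    by_contra hne
    apply hm.1
    exact P_down' (by omega) (by omega) (by omega) hP
  · right
    rcases e1 with rfl | e1
    · have h1 : (a : ℤ) ≤ κ * a := by nlinarith [Int.natCast_nonneg a]
      have h2 : (b : ℤ) ≤ κ * b := by nlinarith [Int.natCast_nonneg b]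
      have h3 : p0 + a ≤ p + 1 := by
        have : (p0 : ℤ) ≤ p' := by exact_mod_cast l2
        push_cast at e3
        zify
        linarith
      have h4 : q0 + b ≤ q := by
        have : (q0 : ℤ) ≤ q' := by exact_mod_cast l3
        zify
        linarith
      by_contra hne
      apply hm.1
      have := hr rfl
      exact K.P_of_shift hP (by omega) (by omega) h4
    · omega

lemma KData.key_w (K : KData gx gy gz gw c s a b) {j p q : ℕ} (hj : j < c)
    (hP : P gx gy gz gw (j * gy + p * gz + q * gw))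
    (hn : ¬ P gx gy gz gw (j * gy + p * gz + (q + 1) * gw)) :
    ∃ j0 p0 q0, MinT gx gy gz gw c s a b j0 p0 q0 ∧ (s = 0 → j0 < c) ∧
      (q + 1 = q0 ∨ q + 1 = q0 + b) := by
  obtain ⟨j0, p0, q0, hm, hr, κ, j', p', q', e1, e2, e3, e4, l1, l2, l3⟩ :=
    K.exists_min _ j p (q + 1) rfl hn
  refine ⟨j0, p0, q0, hm, hr, ?_⟩
  have hκ := kappa_cases hj e2
  rcases eq_or_lt_of_le hκ with h0 | h0
  · left
    subst h0
    simp only [zero_mul, add_zero, sub_zero, Nat.cast_inj] at e2 e3 e4
    by_contra hne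
    apply hm.1
    exact P_down' (by omega) (by omega) (by omega) hP
  · right
    rcases e1 with rfl | e1
    · have h1 : (a : ℤ) ≤ κ * a := by nlinarith [Int.natCast_nonneg a]
      have h2 : (b : ℤ) ≤ κ * b := by nlinarith [Int.natCast_nonneg b]
      have h3 : p0 + a ≤ p := by
        have : (p0 : ℤ) ≤ p' := by exact_mod_cast l2
        zify
        linarith
      have h4 : q0 + b ≤ q + 1 := by
        have : (q0 : ℤ) ≤ q' := by exact_mod_cast l3
        push_cast at e4
        zify
        linarith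
      by_contra hne
      apply hm.1
      have := hr rfl
      exact K.P_of_shift hP (by omega) h3 (by omega)
    · omega

lemma KData.key_y (K : KData gx gy gz gw c s a b) {j p q : ℕ} (hj : j < c)
    (hP : P gx gy gz gw (j * gy + p * gz + q * gw))
    (hn : ¬ P gx gy gz gw ((j + 1) * gy + p * gz + q * gw)) :
    j + 1 = c ∨ ∃ j0 p0 q0, MinT gx gy gz gw c s a b j0 p0 q0 ∧ (s = 0 → j0 < c) ∧
      j + 1 = j0 := by
  by_cases hjc : j + 1 = c
  · exact Or.inl hjc
  right
  obtain ⟨j0, p0, q0, hm, hr, κ, j', p', q', e1, e2, e3, e4, l1, l2, l3⟩ :=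
    K.exists_min _ (j + 1) p q rfl hn
  refine ⟨j0, p0, q0, hm, hr, ?_⟩
  have hκ := kappa_cases (by omega : j + 1 < c) e2
  rcases eq_or_lt_of_le hκ with h0 | h0
  · subst h0
    simp only [zero_mul, add_zero, sub_zero, Nat.cast_inj] at e2 e3 e4
    by_contra hne
    apply hm.1
    exact P_down' (by omega) (by omega) (by omega) hP
  · exfalso
    rcases e1 with rfl | e1
    · have h1 : (a : ℤ) ≤ κ * a := by nlinarith [Int.natCast_nonneg a]
      have h2 : (b : ℤ) ≤ κ * b := by nlinarith [Int.natCast_nonneg b]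
      have h3 : p0 + a ≤ p := by
        have : (p0 : ℤ) ≤ p' := by exact_mod_cast l2
        zify
        linarith
      have h4 : q0 + b ≤ q := by
        have : (q0 : ℤ) ≤ q' := by exact_mod_cast l3
        zify
        linarith
      apply hm.1
      have := hr rfl
      exact K.P_of_shift hP (by omega) h3 h4
    · omega

/-- **First count**: the number of maximal elements of the Apery set is bounded in terms of the
number of minimal triples. -/
theorem KData.count1 (K : KData gx gy gz gw c s a b) (N : ℕ)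
    (hN : ∀ F : Finset (ℕ × ℕ × ℕ),
      (∀ μ ∈ F, MinT gx gy gz gw c s a b μ.1 μ.2.1 μ.2.2 ∧ (s = 0 → μ.1 < c)) → F.card ≤ N)
    (M : Finset ℕ) (hM : ∀ n ∈ M, P gx gy gz gw n ∧ ¬ P gx gy gz gw (n + gy) ∧
      ¬ P gx gy gz gw (n + gz) ∧ ¬ P gx gy gz gw (n + gw)) :
    M.card ≤ (N + 1) * (2 * N) * (2 * N) := by
  classical
  -- the set of all reduced minimal triples is finite
  let S : Set (ℕ × ℕ × ℕ) :=
    {μ | MinT gx gy gz gw c s a b μ.1 μ.2.1 μ.2.2 ∧ (s = 0 → μ.1 < c)}
  have hfin : S.Finite := by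
    by_contra hinf
    obtain ⟨F, hF, hFc⟩ := Set.Infinite.exists_subset_card_eq hinf (N + 1)
    have := hN F (fun μ hμ => hF hμ)
    omega
  let F := hfin.toFinset
  have hF : ∀ μ, μ ∈ F ↔ MinT gx gy gz gw c s a b μ.1 μ.2.1 μ.2.2 ∧ (s = 0 → μ.1 < c) := by
    intro μ; simp [F, S]
  have hFN : F.card ≤ N := hN F (fun μ hμ => (hF μ).1 hμ)
  let A1 : Finset ℕ := insert c (F.image (fun μ => μ.1))
  let A2 : Finset ℕ := F.image (fun μ => μ.2.1) ∪ F.image (fun μ => μ.2.1 + a)
  let A3 : Finset ℕ := F.image (fun μ => μ.2.2) ∪ F.image (fun μ => μ.2.2 + b)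
  have hA1 : A1.card ≤ N + 1 :=
    (Finset.card_insert_le _ _).trans (Nat.succ_le_succ (Finset.card_image_le.trans hFN))
  have hA2 : A2.card ≤ 2 * N := by
    refine (Finset.card_union_le _ _).trans ?_
    have h1 := (Finset.card_image_le (s := F) (f := fun μ => μ.2.1)).trans hFN
    have h2 := (Finset.card_image_le (s := F) (f := fun μ => μ.2.1 + a)).trans hFN
    omega
  have hA3 : A3.card ≤ 2 * N := by
    refine (Finset.card_union_le _ _).trans ?_
    have h1 := (Finset.card_image_le (s := F) (f := fun μ => μ.2.2)).trans hFN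
    have h2 := (Finset.card_image_le (s := F) (f := fun μ => μ.2.2 + b)).trans hFN
    omega
  -- normal forms
  have hnf : ∀ n ∈ M, ∃ j p q, j < c ∧ j * gy + p * gz + q * gw = n := by
    intro n hn
    obtain ⟨j, p, q, hjpq⟩ := (hM n hn).1.1
    have hP : P gx gy gz gw (j * gy + p * gz + q * gw) := by rw [hjpq]; exact (hM n hn).1
    obtain ⟨κ, j', h1, _, _, h4⟩ := K.exists_nf j p q hP
    exact ⟨j', _, _, h1, h4.trans hjpq⟩
  choose! J Pp Q hJ hw using hnf
  have hmap : ∀ n ∈ M, (J n + 1, Pp n + 1, Q n + 1) ∈ A1 ×ˢ (A2 ×ˢ A3) := by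
    intro n hn
    obtain ⟨hP, hy, hz, hgw⟩ := hM n hn
    rw [← hw n hn] at hP hy hz hgw
    have hy' : ¬ P gx gy gz gw ((J n + 1) * gy + Pp n * gz + Q n * gw) := by
      convert hy using 2; ring
    have hz' : ¬ P gx gy gz gw (J n * gy + (Pp n + 1) * gz + Q n * gw) := by
      convert hz using 2; ring
    have hw' : ¬ P gx gy gz gw (J n * gy + Pp n * gz + (Q n + 1) * gw) := by
      convert hgw using 2; ring
    simp only [Finset.mem_product]
    refine ⟨?_, ?_, ?_⟩
    · rcases K.key_y (hJ n hn) hP hy' with h | ⟨j0, p0, q0, h1, h2, h3⟩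
      · rw [h]; exact Finset.mem_insert_self _ _
      · exact Finset.mem_insert_of_mem (Finset.mem_image.2 ⟨(j0, p0, q0), (hF _).2 ⟨h1, h2⟩,
          h3.symm⟩)
    · obtain ⟨j0, p0, q0, h1, h2, h3⟩ := K.key_z (hJ n hn) hP hz'
      rcases h3 with h3 | h3
      · exact Finset.mem_union_left _ (Finset.mem_image.2 ⟨(j0, p0, q0), (hF _).2 ⟨h1, h2⟩,
          h3.symm⟩)
      · exact Finset.mem_union_right _ (Finset.mem_image.2 ⟨(j0, p0, q0), (hF _).2 ⟨h1, h2⟩,
          h3.symm⟩)
    · obtain ⟨j0, p0, q0, h1, h2, h3⟩ := K.key_w (hJ n hn) hP hw'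
      rcases h3 with h3 | h3
      · exact Finset.mem_union_left _ (Finset.mem_image.2 ⟨(j0, p0, q0), (hF _).2 ⟨h1, h2⟩,
          h3.symm⟩)
      · exact Finset.mem_union_right _ (Finset.mem_image.2 ⟨(j0, p0, q0), (hF _).2 ⟨h1, h2⟩,
          h3.symm⟩)
  have hcard := Finset.card_le_card_of_injOn (s := M) (t := A1 ×ˢ (A2 ×ˢ A3))
    (fun n => (J n + 1, Pp n + 1, Q n + 1)) hmap (by
      intro n hn n' hn' h
      simp only [Prod.mk.injEq, Nat.add_right_cancel_iff] at h
      rw [← hw n hn, ← hw n' hn', h.1, h.2.1, h.2.2])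
  refine hcard.trans ?_
  rw [Finset.card_product, Finset.card_product, mul_assoc]
  exact Nat.mul_le_mul hA1 (Nat.mul_le_mul hA2 hA3)

/-- Componentwise minimal triples with `j < c` of non-Apery degree. -/
def MinW (gx gy gz gw c : ℕ) (j p q : ℕ) : Prop :=
  j < c ∧ ¬ P gx gy gz gw (j * gy + p * gz + q * gw) ∧
  (1 ≤ j → P gx gy gz gw ((j - 1) * gy + p * gz + q * gw)) ∧
  (1 ≤ p → P gx gy gz gw (j * gy + (p - 1) * gz + q * gw)) ∧
  (1 ≤ q → P gx gy gz gw (j * gy + p * gz + (q - 1) * gw))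

/-- Above every Apery element there is a maximal one. -/
lemma exists_max (hy : 0 < gy) (hz : 0 < gz) (hw : 0 < gw) {B : ℕ}
    (hB : ∀ n, P gx gy gz gw n → n ≤ B) : ∀ (m n : ℕ), B ≤ n + m → P gx gy gz gw n →
    ∃ n', (P gx gy gz gw n' ∧ ¬ P gx gy gz gw (n' + gy) ∧ ¬ P gx gy gz gw (n' + gz) ∧
      ¬ P gx gy gz gw (n' + gw)) ∧ ∃ α β γ, n' = n + (α * gy + β * gz + γ * gw) := by
  intro m
  induction m with
  | zero =>
    intro n hn hP
    refine ⟨n, ⟨hP, fun h => ?_, fun h => ?_, fun h => ?_⟩, 0, 0, 0, by simp⟩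
    · have := hB _ h; omega
    · have := hB _ h; omega
    · have := hB _ h; omega
  | succ m ih =>
    intro n hn hP
    by_cases h1 : P gx gy gz gw (n + gy)
    · obtain ⟨n', h2, α, β, γ, h3⟩ := ih (n + gy) (by omega) h1
      exact ⟨n', h2, α + 1, β, γ, by rw [h3]; ring⟩
    by_cases h1' : P gx gy gz gw (n + gz)
    · obtain ⟨n', h2, α, β, γ, h3⟩ := ih (n + gz) (by omega) h1'
      exact ⟨n', h2, α, β + 1, γ, by rw [h3]; ring⟩
    by_cases h1'' : P gx gy gz gw (n + gw)
    · obtain ⟨n', h2, α, β, γ, h3⟩ := ih (n + gw) (by omega) h1''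
      exact ⟨n', h2, α, β, γ + 1, by rw [h3]; ring⟩
    exact ⟨n, ⟨hP, h1, h1', h1''⟩, 0, 0, 0, by simp⟩

lemma KData.keyW_z (K : KData gx gy gz gw c s a b) {j p q α β γ : ℕ} (hj : j < c)
    (hn : ¬ P gx gy gz gw (j * gy + (p + 1) * gz + q * gw))
    (hP : P gx gy gz gw ((j + α) * gy + (p + β) * gz + (q + γ) * gw))
    {T1 T2 T3 : ℕ} (hT : T1 < c)
    (hTw : T1 * gy + T2 * gz + T3 * gw = (j + α) * gy + (p + β) * gz + (q + γ) * gw) :
    T2 = p ∨ T2 = p + a := by
  obtain ⟨κ, j', h1, h2, h3, h4⟩ := K.exists_nf _ _ _ hP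
  have hP' := hP
  rw [← h4] at hP'
  obtain ⟨e1, e2, e3⟩ := K.uniq _ _ _ T1 T2 T3 h1 hT hP' (h4.trans hTw.symm)
  rcases Nat.eq_zero_or_pos κ with h0 | h0
  · left
    subst h0
    by_contra hne
    apply hn
    rw [← e2] at hne
    exact P_down' (by omega) (by omega) (by omega) hP
  · right
    rcases h2 with rfl | h2
    · have ha : a ≤ κ * a := Nat.le_mul_of_pos_left a h0
      have hb : b ≤ κ * b := Nat.le_mul_of_pos_left b h0
      by_contra hne
      apply hn
      exact K.P_of_shift hP' (by omega) (by omega) (by omega)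
    · omega

lemma KData.keyW_w (K : KData gx gy gz gw c s a b) {j p q α β γ : ℕ} (hj : j < c)
    (hn : ¬ P gx gy gz gw (j * gy + p * gz + (q + 1) * gw))
    (hP : P gx gy gz gw ((j + α) * gy + (p + β) * gz + (q + γ) * gw))
    {T1 T2 T3 : ℕ} (hT : T1 < c)
    (hTw : T1 * gy + T2 * gz + T3 * gw = (j + α) * gy + (p + β) * gz + (q + γ) * gw) :
    T3 = q ∨ T3 = q + b := by
  obtain ⟨κ, j', h1, h2, h3, h4⟩ := K.exists_nf _ _ _ hP
  have hP' := hP
  rw [← h4] at hP'
  obtain ⟨e1, e2, e3⟩ := K.uniq _ _ _ T1 T2 T3 h1 hT hP' (h4.trans hTw.symm)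
  rcases Nat.eq_zero_or_pos κ with h0 | h0
  · left
    subst h0
    by_contra hne
    apply hn
    rw [← e3] at hne
    exact P_down' (by omega) (by omega) (by omega) hP
  · right
    rcases h2 with rfl | h2
    · have ha : a ≤ κ * a := Nat.le_mul_of_pos_left a h0
      have hb : b ≤ κ * b := Nat.le_mul_of_pos_left b h0
      by_contra hne
      apply hn
      exact K.P_of_shift hP' (by omega) (by omega) (by omega)
    · omega

lemma KData.keyW_y (K : KData gx gy gz gw c s a b) {j p q α β γ : ℕ} (hj : j + 1 < c)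
    (hn : ¬ P gx gy gz gw ((j + 1) * gy + p * gz + q * gw))
    (hP : P gx gy gz gw ((j + α) * gy + (p + β) * gz + (q + γ) * gw))
    {T1 T2 T3 : ℕ} (hT : T1 < c)
    (hTw : T1 * gy + T2 * gz + T3 * gw = (j + α) * gy + (p + β) * gz + (q + γ) * gw) :
    T1 = j := by
  obtain ⟨κ, j', h1, h2, h3, h4⟩ := K.exists_nf _ _ _ hP
  have hP' := hP
  rw [← h4] at hP'
  obtain ⟨e1, e2, e3⟩ := K.uniq _ _ _ T1 T2 T3 h1 hT hP' (h4.trans hTw.symm)
  rcases Nat.eq_zero_or_pos κ with h0 | h0
  · subst h0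
    by_contra hne
    apply hn
    rw [← e1] at hne
    exact P_down' (by omega) (by omega) (by omega) hP
  · exfalso
    rcases h2 with rfl | h2
    · have ha : a ≤ κ * a := Nat.le_mul_of_pos_left a h0
      have hb : b ≤ κ * b := Nat.le_mul_of_pos_left b h0
      apply hn
      exact K.P_of_shift hP' (by omega) (by omega) (by omega)
    · omega

/-- **Second count**: the number of minimal triples is bounded in terms of the number of maximal
elements of the Apery set. -/
theorem KData.count2 (K : KData gx gy gz gw c s a b) {B : ℕ}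
    (hB : ∀ n, P gx gy gz gw n → n ≤ B) (M : Finset ℕ)
    (hM : ∀ n, (P gx gy gz gw n ∧ ¬ P gx gy gz gw (n + gy) ∧
      ¬ P gx gy gz gw (n + gz) ∧ ¬ P gx gy gz gw (n + gw)) → n ∈ M)
    (F : Finset (ℕ × ℕ × ℕ)) (hF : ∀ μ ∈ F, MinW gx gy gz gw c μ.1 μ.2.1 μ.2.2) :
    F.card ≤ (M.card + 1) * (2 * M.card + 1) * (2 * M.card + 1) := by
  classical
  -- normal forms
  have hnf : ∀ n, P gx gy gz gw n → ∃ j p q, j < c ∧ j * gy + p * gz + q * gw = n := by
    intro n hn
    obtain ⟨j, p, q, hjpq⟩ := hn.1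
    have hP : P gx gy gz gw (j * gy + p * gz + q * gw) := by rw [hjpq]; exact hn
    obtain ⟨κ, j', h1, _, _, h4⟩ := K.exists_nf j p q hP
    exact ⟨j', _, _, h1, h4.trans hjpq⟩
  choose! J Pp Q hJ hw using hnf
  let A1 : Finset ℕ := insert 0 (M.image (fun n => J n + 1))
  let A2 : Finset ℕ := insert 0
    (M.image (fun n => Pp n + 1) ∪ M.image (fun n => Pp n + 1 - a))
  let A3 : Finset ℕ := insert 0
    (M.image (fun n => Q n + 1) ∪ M.image (fun n => Q n + 1 - b))
  have hA1 : A1.card ≤ M.card + 1 :=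
    (Finset.card_insert_le _ _).trans (Nat.succ_le_succ Finset.card_image_le)
  have hA2 : A2.card ≤ 2 * M.card + 1 := by
    refine (Finset.card_insert_le _ _).trans (Nat.succ_le_succ ?_)
    refine (Finset.card_union_le _ _).trans ?_
    have h1 := (Finset.card_image_le (s := M) (f := fun n => Pp n + 1))
    have h2 := (Finset.card_image_le (s := M) (f := fun n => Pp n + 1 - a))
    omega
  have hA3 : A3.card ≤ 2 * M.card + 1 := by
    refine (Finset.card_insert_le _ _).trans (Nat.succ_le_succ ?_)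
    refine (Finset.card_union_le _ _).trans ?_
    have h1 := (Finset.card_image_le (s := M) (f := fun n => Q n + 1))
    have h2 := (Finset.card_image_le (s := M) (f := fun n => Q n + 1 - b))
    omega
  have hsub : F ⊆ A1 ×ˢ (A2 ×ˢ A3) := by
    rintro ⟨j, p, q⟩ hμ
    obtain ⟨hj, hnP, h1, h2, h3⟩ := hF _ hμ
    simp only at hj hnP h1 h2 h3
    simp only [Finset.mem_product]
    refine ⟨?_, ?_, ?_⟩
    · rcases Nat.eq_zero_or_pos j with rfl | hpos
      · exact Finset.mem_insert_self _ _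
      · obtain ⟨j, rfl⟩ := Nat.exists_eq_add_of_le' hpos
        have hP := h1 (by omega)
        simp only [Nat.add_sub_cancel] at hP
        obtain ⟨n', hn', α, β, γ, hn''⟩ := exists_max K.hy K.hz K.hw hB B _ (by omega) hP
        have e : n' = (j + α) * gy + (p + β) * gz + (q + γ) * gw := by rw [hn'']; ring
        have hT := K.keyW_y (α := α) (β := β) (γ := γ) (T1 := J n') (T2 := Pp n') (T3 := Q n')
          (by omega) hnP (by rw [← e]; exact hn'.1) (hJ n' hn'.1) (by rw [hw n' hn'.1, e])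
        refine Finset.mem_insert_of_mem (Finset.mem_image.2 ⟨n', hM n' hn', ?_⟩)
        omega
    · rcases Nat.eq_zero_or_pos p with rfl | hpos
      · exact Finset.mem_insert_self _ _
      · obtain ⟨p, rfl⟩ := Nat.exists_eq_add_of_le' hpos
        have hP := h2 (by omega)
        simp only [Nat.add_sub_cancel] at hP
        obtain ⟨n', hn', α, β, γ, hn''⟩ := exists_max K.hy K.hz K.hw hB B _ (by omega) hP
        have e : n' = (j + α) * gy + (p + β) * gz + (q + γ) * gw := by rw [hn'']; ring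
        have hT := K.keyW_z (α := α) (β := β) (γ := γ) (T1 := J n') (T2 := Pp n') (T3 := Q n')
          hj hnP (by rw [← e]; exact hn'.1) (hJ n' hn'.1) (by rw [hw n' hn'.1, e])
        rcases hT with hT | hT
        · refine Finset.mem_insert_of_mem (Finset.mem_union_left _
            (Finset.mem_image.2 ⟨n', hM n' hn', ?_⟩))
          omega
        · refine Finset.mem_insert_of_mem (Finset.mem_union_right _
            (Finset.mem_image.2 ⟨n', hM n' hn', ?_⟩))
          omega
    · rcases Nat.eq_zero_or_pos q with rfl | hpos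
      · exact Finset.mem_insert_self _ _
      · obtain ⟨q, rfl⟩ := Nat.exists_eq_add_of_le' hpos
        have hP := h3 (by omega)
        simp only [Nat.add_sub_cancel] at hP
        obtain ⟨n', hn', α, β, γ, hn''⟩ := exists_max K.hy K.hz K.hw hB B _ (by omega) hP
        have e : n' = (j + α) * gy + (p + β) * gz + (q + γ) * gw := by rw [hn'']; ring
        have hT := K.keyW_w (α := α) (β := β) (γ := γ) (T1 := J n') (T2 := Pp n') (T3 := Q n')
          hj hnP (by rw [← e]; exact hn'.1) (hJ n' hn'.1) (by rw [hw n' hn'.1, e])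
        rcases hT with hT | hT
        · refine Finset.mem_insert_of_mem (Finset.mem_union_left _
            (Finset.mem_image.2 ⟨n', hM n' hn', ?_⟩))
          omega
        · refine Finset.mem_insert_of_mem (Finset.mem_union_right _
            (Finset.mem_image.2 ⟨n', hM n' hn', ?_⟩))
          omega
  refine (Finset.card_le_card hsub).trans ?_
  rw [Finset.card_product, Finset.card_product, mul_assoc]
  exact Nat.mul_le_mul hA1 (Nat.mul_le_mul hA2 hA3)

end

end Pool.Agent.MP_05ef64_al
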