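import Pool.Agent.MP_05ef64_al.Bridge

set_option autoImplicit false

/-!
# Generators of the ideal from minimal triples
-/

namespace Pool.Agent.MP_05ef64_al

open MvPolynomial

section
variable {gx gy gz gw c : ℕ}

/-- Descent to a componentwise minimal triple. -/
lemma exists_minW (hy : 0 < gy) (hz : 0 < gz) (hw : 0 < gw) : ∀ (n j p q : ℕ), j < c →
    j * gy + p * gz + q * gw = n → ¬ P gx gy gz gw n →
    ∃ j0 p0 q0, MinW gx gy gz gw c j0 p0 q0 ∧ j0 ≤ j ∧ p0 ≤ p ∧ q0 ≤ q := by
  intro n
  induction n using Nat.strong_induction_on with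
  | _ n ih =>
    intro j p q hj hn hP
    by_cases hA : 1 ≤ j ∧ ¬ P gx gy gz gw ((j - 1) * gy + p * gz + q * gw)
    · obtain ⟨j3, rfl⟩ := Nat.exists_eq_add_of_le' hA.1
      simp only [Nat.add_sub_cancel] at hA
      obtain ⟨j0, p0, q0, h1, h2, h3, h4⟩ := ih (j3 * gy + p * gz + q * gw)
        (by rw [← hn, add_mul]; omega) j3 p q (by omega) rfl hA.2
      exact ⟨j0, p0, q0, h1, by omega, h3, h4⟩
    by_cases hB : 1 ≤ p ∧ ¬ P gx gy gz gw (j * gy + (p - 1) * gz + q * gw)
    · obtain ⟨p3, rfl⟩ := Nat.exists_eq_add_of_le' hB.1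
      simp only [Nat.add_sub_cancel] at hB
      obtain ⟨j0, p0, q0, h1, h2, h3, h4⟩ := ih (j * gy + p3 * gz + q * gw)
        (by rw [← hn, add_mul]; omega) j p3 q hj rfl hB.2
      exact ⟨j0, p0, q0, h1, h2, by omega, h4⟩
    by_cases hC : 1 ≤ q ∧ ¬ P gx gy gz gw (j * gy + p * gz + (q - 1) * gw)
    · obtain ⟨q3, rfl⟩ := Nat.exists_eq_add_of_le' hC.1
      simp only [Nat.add_sub_cancel] at hC
      obtain ⟨j0, p0, q0, h1, h2, h3, h4⟩ := ih (j * gy + p * gz + q3 * gw)
        (by rw [← hn, add_mul]; omega) j p q3 hj rfl hC.2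
      exact ⟨j0, p0, q0, h1, h2, h3, by omega⟩
    refine ⟨j, p, q, ⟨hj, by rw [hn]; exact hP, ?_, ?_, ?_⟩, le_rfl, le_rfl, le_rfl⟩
    · intro h; by_contra h'; exact hA ⟨h, h'⟩
    · intro h; by_contra h'; exact hB ⟨h, h'⟩
    · intro h; by_contra h'; exact hC ⟨h, h'⟩

end

section
variable {i y z w : Fin 4} {g : Fin 4 → ℕ} {c s a b : ℕ} {k : Type*} [Field k]

/-- Reduction of monomials modulo an ideal containing the chosen binomials. -/
lemma reduce_mono (h : Enum4 i y z w) (K : KData (g i) (g y) (g z) (g w) c s a b)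
    (I' : Ideal (MvPolynomial (Fin 4) k))
    (hf : monomial (E i y z w 0 c 0 0) (1 : k) - monomial (E i y z w s 0 a b) 1 ∈ I')
    (hW : ∀ j p q, MinW (g i) (g y) (g z) (g w) c j p q → ∃ v : Fin 4 →₀ ℕ, v i ≠ 0 ∧
      Finsupp.weight g v = j * g y + p * g z + q * g w ∧
      monomial (E i y z w 0 j p q) (1 : k) - monomial v 1 ∈ I') :
    ∀ j p q : ℕ, ∃ u' : Fin 4 →₀ ℕ, Finsupp.weight g u' = j * g y + p * g z + q * g w ∧
      monomial (E i y z w 0 j p q) (1 : k) - monomial u' 1 ∈ I' ∧
      (u' i ≠ 0 ∨ (P (g i) (g y) (g z) (g w) (Finsupp.weight g u') ∧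
        ∃ j' p' q', u' = E i y z w 0 j' p' q' ∧ j' < c)) := by
  intro j
  induction j using Nat.strong_induction_on with
  | _ j ih =>
    intro p q
    by_cases hj : c ≤ j
    · obtain ⟨j1, rfl⟩ := Nat.exists_eq_add_of_le hj
      have hmul : monomial (E i y z w 0 (c + j1) p q) (1 : k)
          - monomial (E i y z w s j1 (p + a) (q + b)) 1
          = monomial (E i y z w 0 j1 p q) 1 *
            (monomial (E i y z w 0 c 0 0) 1 - monomial (E i y z w s 0 a b) 1) := by
        rw [mul_sub, monomial_mul, monomial_mul, E_add, E_add, mul_one]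
        congr 3 <;> ring_nf
      have hrel := K.rel
      have hm1 : monomial (E i y z w 0 (c + j1) p q) (1 : k)
          - monomial (E i y z w s j1 (p + a) (q + b)) 1 ∈ I' := by
        rw [hmul]; exact I'.mul_mem_left _ hf
      by_cases hs : s = 0
      · subst hs
        obtain ⟨u', h1, h2, h3⟩ := ih j1 (by have := K.hc; omega) (p + a) (q + b)
        refine ⟨u', ?_, ?_, h3⟩
        · rw [h1]
          linear_combination -hrel
        · have := I'.add_mem hm1 h2
          simpa using this
      · refine ⟨E i y z w s j1 (p + a) (q + b), ?_, hm1, Or.inl (by rwa [h.E_i])⟩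
        rw [h.weight_E]
        linear_combination -hrel
    · push Not at hj
      by_cases hP : P (g i) (g y) (g z) (g w) (j * g y + p * g z + q * g w)
      · have hw1 : Finsupp.weight g (E i y z w 0 j p q) = j * g y + p * g z + q * g w := by
          rw [h.weight_E]; ring
        exact ⟨E i y z w 0 j p q, hw1, by simp, Or.inr ⟨by rw [hw1]; exact hP, j, p, q, rfl, hj⟩⟩
      · obtain ⟨j0, p0, q0, h1, h2, h3, h4⟩ := exists_minW K.hy K.hz K.hw _ j p q hj rfl hP
        obtain ⟨v, hv, hv1, hv2⟩ := hW _ _ _ h1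
        obtain ⟨j1, rfl⟩ := Nat.exists_eq_add_of_le h2
        obtain ⟨p1, rfl⟩ := Nat.exists_eq_add_of_le h3
        obtain ⟨q1, rfl⟩ := Nat.exists_eq_add_of_le h4
        refine ⟨E i y z w 0 j1 p1 q1 + v, ?_, ?_, Or.inl ?_⟩
        · rw [map_add, h.weight_E, hv1]; ring
        · have hmul : monomial (E i y z w 0 (j0 + j1) (p0 + p1) (q0 + q1)) (1 : k)
              - monomial (E i y z w 0 j1 p1 q1 + v) 1
              = monomial (E i y z w 0 j1 p1 q1) 1 *
                (monomial (E i y z w 0 j0 p0 q0) 1 - monomial v 1) := by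
            rw [mul_sub, monomial_mul, monomial_mul, E_add, mul_one]
            congr 3
            ring_nf
          rw [hmul]
          exact I'.mul_mem_left _ hv2
        · simp only [Finsupp.add_apply, ne_eq, Nat.add_eq_zero_iff, not_and]
          exact fun _ => hv

/-- All binomials lie in such an ideal. -/
lemma binom_mem_of (h : Enum4 i y z w) (K : KData (g i) (g y) (g z) (g w) c s a b)
    (I' : Ideal (MvPolynomial (Fin 4) k))
    (hf : monomial (E i y z w 0 c 0 0) (1 : k) - monomial (E i y z w s 0 a b) 1 ∈ I')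
    (hW : ∀ j p q, MinW (g i) (g y) (g z) (g w) c j p q → ∃ v : Fin 4 →₀ ℕ, v i ≠ 0 ∧
      Finsupp.weight g v = j * g y + p * g z + q * g w ∧
      monomial (E i y z w 0 j p q) (1 : k) - monomial v 1 ∈ I') :
    ∀ (n : ℕ) (u v : Fin 4 →₀ ℕ), Finsupp.weight g u = n → Finsupp.weight g v = n →
      monomial u (1 : k) - monomial v 1 ∈ I' := by
  have step : ∀ u : Fin 4 →₀ ℕ, ∃ u' : Fin 4 →₀ ℕ, Finsupp.weight g u' = Finsupp.weight g u ∧
      monomial u (1 : k) - monomial u' 1 ∈ I' ∧
      (u' i ≠ 0 ∨ (P (g i) (g y) (g z) (g w) (Finsupp.weight g u') ∧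
        ∃ j' p' q', u' = E i y z w 0 j' p' q' ∧ j' < c)) := by
    intro u
    by_cases hu : u i = 0
    · obtain ⟨u', h1, h2, h3⟩ := reduce_mono h K I' hf hW (u y) (u z) (u w)
      have he := h.eq_E u
      rw [hu] at he
      refine ⟨u', ?_, ?_, h3⟩
      · rw [h1, h.weight, hu]; ring
      · rw [← he] at h2; exact h2
    · exact ⟨u, rfl, by simp, Or.inl hu⟩
  intro n
  induction n using Nat.strong_induction_on with
  | _ n ih =>
    intro u v hu hv
    obtain ⟨u', hu1, hu2, hu3⟩ := step u
    obtain ⟨v', hv1, hv2, hv3⟩ := step v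
    have goal : monomial u' (1 : k) - monomial v' 1 ∈ I' := by
      by_cases hP : P (g i) (g y) (g z) (g w) n
      · have a1 : u' i = 0 := hP.2 (u' i) (u' y) (u' z) (u' w) (by rw [← h.weight, hu1, hu])
        have a2 : v' i = 0 := hP.2 (v' i) (v' y) (v' z) (v' w) (by rw [← h.weight, hv1, hv])
        obtain ⟨_, j1, p1, q1, e1, l1⟩ := hu3.resolve_left (by simpa using a1)
        obtain ⟨_, j2, p2, q2, e2, l2⟩ := hv3.resolve_left (by simpa using a2)
        have w1 : j1 * g y + p1 * g z + q1 * g w = n := by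
          rw [← hu, ← hu1, e1, h.weight_E]; ring
        have w2 : j2 * g y + p2 * g z + q2 * g w = n := by
          rw [← hv, ← hv1, e2, h.weight_E]; ring
        obtain ⟨c1, c2, c3⟩ := K.uniq _ _ _ _ _ _ l1 l2 (by rw [w1]; exact hP) (w1.trans w2.symm)
        rw [e1, e2, c1, c2, c3, sub_self]
        exact I'.zero_mem
      · have b1 : u' i ≠ 0 := hu3.resolve_right (fun h3 => hP (by rw [← hu, ← hu1]; exact h3.1))
        have b2 : v' i ≠ 0 := hv3.resolve_right (fun h3 => hP (by rw [← hv, ← hv1]; exact h3.1))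
        have c1 : u' - Finsupp.single i 1 + Finsupp.single i 1 = u' :=
          tsub_add_cancel_of_le (by rw [Finsupp.single_le_iff]; omega)
        have c2 : v' - Finsupp.single i 1 + Finsupp.single i 1 = v' :=
          tsub_add_cancel_of_le (by rw [Finsupp.single_le_iff]; omega)
        have w1 : Finsupp.weight g (u' - Finsupp.single i 1) + g i = n := by
          rw [← hu, ← hu1]
          conv_rhs => rw [← c1]
          rw [map_add, Finsupp.weight_single]; simp
        have w2 : Finsupp.weight g (v' - Finsupp.single i 1) + g i = n := by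
          rw [← hv, ← hv1]
          conv_rhs => rw [← c2]
          rw [map_add, Finsupp.weight_single]; simp
        have hx := K.hx
        have h5 := ih (n - g i) (by omega) (u' - Finsupp.single i 1) (v' - Finsupp.single i 1)
          (by omega) (by omega)
        have h6 := I'.mul_mem_left (X i) h5
        rw [mul_sub, X, monomial_mul, monomial_mul, mul_one, add_comm _ (u' - _),
          add_comm _ (v' - _), c1, c2] at h6
        exact h6
    have := I'.sub_mem (I'.add_mem hu2 goal) hv2
    have e : monomial u (1 : k) - monomial u' 1 + (monomial u' 1 - monomial v' 1)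
        - (monomial v 1 - monomial v' 1) = monomial u 1 - monomial v 1 := by ring
    rwa [e] at this

/-- **Generators**: the ideal has a generating family with one element more than the number of
componentwise minimal triples. -/
theorem exists_gens (h : Enum4 i y z w) (K : KData (g i) (g y) (g z) (g w) c s a b)
    (W : Finset (ℕ × ℕ × ℕ))
    (hW : ∀ μ, μ ∈ W ↔ MinW (g i) (g y) (g z) (g w) c μ.1 μ.2.1 μ.2.2) :
    ∃ f : Fin (W.card + 1) → MvPolynomial (Fin 4) k,
      Ideal.span (Set.range f) = RingHom.ker (par k g) := by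
  classical
  have hex : ∀ μ : W, ∃ v : Fin 4 →₀ ℕ, Finsupp.weight g v =
      μ.1.1 * g y + μ.1.2.1 * g z + μ.1.2.2 * g w ∧ v i ≠ 0 := by
    intro μ
    have h1 := ((hW μ).1 μ.2).2.1
    unfold P at h1
    push Not at h1
    obtain ⟨s', j', p', q', h2, h3⟩ := h1 ⟨_, _, _, rfl⟩
    exact ⟨E i y z w s' j' p' q', by rw [h.weight_E, h2], by rwa [h.E_i]⟩
  choose V hV hVi using hex
  let ε : W ≃ Fin W.card := W.equivFin
  let f : Fin (W.card + 1) → MvPolynomial (Fin 4) k :=
    Fin.cons (monomial (E i y z w 0 c 0 0) 1 - monomial (E i y z w s 0 a b) 1)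
      (fun x => monomial (E i y z w 0 (ε.symm x).1.1 (ε.symm x).1.2.1 (ε.symm x).1.2.2) 1
        - monomial (V (ε.symm x)) 1)
  refine ⟨f, le_antisymm ?_ ?_⟩
  · rw [Ideal.span_le]
    rintro _ ⟨x, rfl⟩
    refine Fin.cases ?_ (fun x => ?_) x
    · simp only [f, Fin.cons_zero]
      apply binom_mem
      rw [h.weight_E, h.weight_E]
      linear_combination K.rel
    · simp only [f, Fin.cons_succ]
      apply binom_mem
      rw [h.weight_E, hV]; ring
  · intro p hp
    have hbin := binom_mem_of h K (Ideal.span (Set.range f))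
      (Ideal.subset_span ⟨0, by simp [f]⟩)
      (fun j p q hm => by
        have hmem : (j, p, q) ∈ W := (hW _).2 hm
        refine ⟨V ⟨_, hmem⟩, hVi _, hV _, Ideal.subset_span ⟨(ε ⟨_, hmem⟩).succ, ?_⟩⟩
        simp [f])
    have h1 := mem_span_binom g hp
    have h2 : Submodule.span k {b : MvPolynomial (Fin 4) k | ∃ u v : Fin 4 →₀ ℕ,
        Finsupp.weight g u = Finsupp.weight g v ∧ b = monomial u 1 - monomial v 1}
        ≤ (Ideal.span (Set.range f)).restrictScalars k := by
      rw [Submodule.span_le]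
      rintro _ ⟨u, v, huv, rfl⟩
      exact hbin _ u v huv rfl
    exact h2 h1

end

end Pool.Agent.MP_05ef64_al
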