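import Pool.Agent.MP_05ef64_al.Socle

set_option autoImplicit false

/-!
# Minimal graded free resolutions over a polynomial ring with positive weights
-/

namespace Pool.Agent.MP_05ef64_al

open Matrix MvPolynomial

variable {k : Type*} [Field k] {e : ℕ} (g : Fin e → ℕ)

/-- Component of degree `m` of an element of the free module of rank one shifted by `s`. -/
noncomputable def pc (s m : ℕ) (p : MvPolynomial (Fin e) k) : MvPolynomial (Fin e) k :=
  if s ≤ m then weightedHomogeneousComponent g (m - s) p else 0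

lemma coeff_pc (s m : ℕ) (p : MvPolynomial (Fin e) k) (u : Fin e →₀ ℕ) :
    coeff u (pc g s m p) = if Finsupp.weight g u + s = m then coeff u p else 0 := by
  unfold pc
  split_ifs with h1 h2 h2
  · rw [coeff_weightedHomogeneousComponent, if_pos (by omega)]
  · rw [coeff_weightedHomogeneousComponent, if_neg (by omega)]
  · omega
  · simp

/-- Component of degree `m` of an element of a shifted free module. -/
noncomputable def vc {r : ℕ} (s : Fin r → ℕ) (m : ℕ) (v : Fin r → MvPolynomial (Fin e) k) :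
    Fin r → MvPolynomial (Fin e) k :=
  fun a => pc g (s a) m (v a)

/-- Homogeneous matrices. -/
def HomMat {r r' : ℕ} (s : Fin r → ℕ) (s' : Fin r' → ℕ)
    (D : Matrix (Fin r) (Fin r') (MvPolynomial (Fin e) k)) : Prop :=
  ∀ a b u, coeff u (D a b) ≠ 0 → Finsupp.weight g u + s a = s' b

lemma vc_mulVec {r r' : ℕ} {s : Fin r → ℕ} {s' : Fin r' → ℕ}
    {D : Matrix (Fin r) (Fin r') (MvPolynomial (Fin e) k)} (hD : HomMat g s s' D) (m : ℕ)
    (v : Fin r' → MvPolynomial (Fin e) k) :
    vc g s m (D *ᵥ v) = D *ᵥ (vc g s' m v) := by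
  funext a
  ext u
  classical
  simp only [vc, coeff_pc, mulVec, dotProduct, coeff_sum, coeff_mul]
  by_cases h : Finsupp.weight g u + s a = m
  · rw [if_pos h]
    refine Finset.sum_congr rfl fun b _ => Finset.sum_congr rfl fun x hx => ?_
    rw [Finset.HasAntidiagonal.mem_antidiagonal] at hx
    by_cases h0 : coeff x.1 (D a b) = 0
    · rw [h0, zero_mul, zero_mul]
    · have h1 := hD a b x.1 h0
      rw [if_pos]
      rw [← h, ← hx, map_add]
      omega
  · rw [if_neg h]
    symm
    refine Finset.sum_eq_zero fun b _ => Finset.sum_eq_zero fun x hx => ?_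
    rw [Finset.HasAntidiagonal.mem_antidiagonal] at hx
    by_cases h0 : coeff x.1 (D a b) = 0
    · rw [h0, zero_mul]
    · have h1 := hD a b x.1 h0
      rw [if_neg, mul_zero]
      intro h2
      apply h
      rw [← h2, ← hx, map_add]
      omega

lemma exists_bound {r : ℕ} (s : Fin r → ℕ) (v : Fin r → MvPolynomial (Fin e) k) :
    ∃ B, ∀ B', B ≤ B' → v = ∑ m ∈ Finset.range B', vc g s m v := by
  classical
  refine ⟨(Finset.univ.sup fun a => (v a).support.sup fun u => Finsupp.weight g u + s a) + 1, ?_⟩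
  intro B' hB'
  funext a
  ext u
  simp only [Finset.sum_apply, coeff_sum, vc, coeff_pc]
  by_cases h : coeff u (v a) = 0
  · simp [h]
  · rw [Finset.sum_ite_eq, if_pos]
    rw [Finset.mem_range]
    have h1 : Finsupp.weight g u + s a ≤ (v a).support.sup fun u => Finsupp.weight g u + s a :=
      Finset.le_sup (f := fun u => Finsupp.weight g u + s a) (mem_support_iff.2 h)
    have h2 : ((v a).support.sup fun u => Finsupp.weight g u + s a) ≤
        Finset.univ.sup fun a => (v a).support.sup fun u => Finsupp.weight g u + s a :=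
      Finset.le_sup (f := fun a => (v a).support.sup fun u => Finsupp.weight g u + s a)
        (Finset.mem_univ a)
    omega

/-- Graded submodules. -/
def IsGr {r : ℕ} (s : Fin r → ℕ)
    (K : Submodule (MvPolynomial (Fin e) k) (Fin r → MvPolynomial (Fin e) k)) : Prop :=
  ∀ v ∈ K, ∀ m, vc g s m v ∈ K

/-- `K` has a homogeneous generating family with `n` elements. -/
def HG {r : ℕ} (s : Fin r → ℕ)
    (K : Submodule (MvPolynomial (Fin e) k) (Fin r → MvPolynomial (Fin e) k)) (n : ℕ) : Prop :=
  ∃ (D : Matrix (Fin r) (Fin n) (MvPolynomial (Fin e) k)) (s' : Fin n → ℕ),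
    HomMat g s s' D ∧ LinearMap.range D.mulVecLin = K

lemma exists_HG {r : ℕ} (s : Fin r → ℕ)
    (K : Submodule (MvPolynomial (Fin e) k) (Fin r → MvPolynomial (Fin e) k))
    (hK : IsGr g s K) : ∃ n, HG g s K n := by
  classical
  obtain ⟨G, hG⟩ := (isNoetherian_def.1 (inferInstance :
    IsNoetherian (MvPolynomial (Fin e) k) (Fin r → MvPolynomial (Fin e) k)) K)
  choose B hB using fun v : Fin r → MvPolynomial (Fin e) k => exists_bound g s v
  let Bm := G.sup B
  let ι := {v // v ∈ G} × Fin Bm
  let ε : ι ≃ Fin (Fintype.card ι) := Fintype.equivFin ι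
  refine ⟨Fintype.card ι, Matrix.of fun a b => vc g s ((ε.symm b).2 : ℕ) (ε.symm b).1.1 a,
    fun b => ((ε.symm b).2 : ℕ), ?_, ?_⟩
  · intro a b u hu
    simp only [of_apply, vc, coeff_pc] at hu
    by_contra h
    exact hu (if_neg h)
  · rw [Matrix.range_mulVecLin]
    apply le_antisymm
    · rw [Submodule.span_le]
      rintro _ ⟨b, rfl⟩
      have : (ε.symm b).1.1 ∈ K := by
        rw [← hG]; exact Submodule.subset_span (ε.symm b).1.2
      exact hK _ this _
    · rw [← hG, Submodule.span_le]
      intro v hv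
      have h1 := hB v Bm (Finset.le_sup hv)
      rw [SetLike.mem_coe, h1]
      refine Submodule.sum_mem _ fun m hm => Submodule.subset_span ?_
      refine ⟨ε (⟨v, hv⟩, ⟨m, Finset.mem_range.1 hm⟩), ?_⟩
      funext a
      simp [Matrix.col]

lemma weight_eq (u : Fin e →₀ ℕ) : Finsupp.weight g u = ∑ i, u i * g i := by
  rw [Finsupp.weight_eq_sum]
  simp

lemma weight_pos (hg : ∀ i, 0 < g i) {u : Fin e →₀ ℕ} (hu : Finsupp.weight g u = 0) : u = 0 := by
  rw [weight_eq, Finset.sum_eq_zero_iff] at hu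
  ext i
  have h1 := hu i (Finset.mem_univ i)
  have h2 := hg i
  rcases Nat.mul_eq_zero.mp h1 with h | h
  · simpa using h
  · omega

lemma vc_zero {r : ℕ} (s : Fin r → ℕ) (m : ℕ) :
    vc g s m (0 : Fin r → MvPolynomial (Fin e) k) = 0 := by
  funext a
  ext u
  simp [vc, coeff_pc]

lemma ker_isGr {r r' : ℕ} {s : Fin r → ℕ} {s' : Fin r' → ℕ}
    {D : Matrix (Fin r) (Fin r') (MvPolynomial (Fin e) k)} (hD : HomMat g s s' D) :
    IsGr g s' (LinearMap.ker D.mulVecLin) := by
  intro v hv m
  rw [LinearMap.mem_ker, mulVecLin_apply] at hv ⊢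
  rw [← vc_mulVec g hD, hv, vc_zero]

/-- A homogeneous generating family of smallest size has relations with coefficients in the
maximal ideal. -/
lemma exists_min_cover (hg : ∀ i, 0 < g i) {r : ℕ} (s : Fin r → ℕ)
    (K : Submodule (MvPolynomial (Fin e) k) (Fin r → MvPolynomial (Fin e) k))
    (hK : IsGr g s K) :
    ∃ (n : ℕ) (D : Matrix (Fin r) (Fin n) (MvPolynomial (Fin e) k)) (s' : Fin n → ℕ),
      HomMat g s s' D ∧ LinearMap.range D.mulVecLin = K ∧
      ∀ u, D *ᵥ u = 0 → ∀ b, constantCoeff (u b) = 0 := by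
  classical
  obtain ⟨n, ⟨D, s', hD, hr⟩, hmin⟩ : ∃ n, HG g s K n ∧ ∀ m < n, ¬ HG g s K m :=
    ⟨Nat.find (exists_HG g s K hK), Nat.find_spec _, fun m hm => Nat.find_min _ hm⟩
  refine ⟨n, D, s', hD, hr, ?_⟩
  intro u hu b0
  by_contra hc
  -- the homogeneous relation
  have hu' : D *ᵥ (vc g s' (s' b0) u) = 0 := by
    rw [← vc_mulVec g hD, hu, vc_zero]
  have hb : vc g s' (s' b0) u b0 = C (constantCoeff (u b0)) := by
    ext w
    rw [vc, coeff_pc, coeff_C]
    by_cases hw : w = 0
    · subst hw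
      simp [constantCoeff_eq]
    · rw [if_neg, if_neg (Ne.symm hw)]
      intro h
      exact hw (weight_pos g hg (by omega))
  obtain ⟨n', rfl⟩ : ∃ n', n = n' + 1 := ⟨n - 1, by have := b0.2; omega⟩
  apply hmin n' (Nat.lt_succ_self _)
  refine ⟨D.submatrix id b0.succAbove, s' ∘ b0.succAbove, fun a b w hw => hD a _ w hw, ?_⟩
  rw [← hr, range_mulVecLin, range_mulVecLin]
  apply le_antisymm
  · apply Submodule.span_mono
    rintro _ ⟨b, rfl⟩
    exact ⟨b0.succAbove b, rfl⟩
  · rw [Submodule.span_le]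
    rintro _ ⟨b, rfl⟩
    rcases eq_or_ne b b0 with rfl | hne
    · -- the removed column
      have h1 : ∑ b', (vc g s' (s' b) u b') • D.col b' = 0 := by
        have h2 := hu'
        rw [Matrix.mulVec_eq_sum] at h2
        simp at h2
        exact h2
      rw [Fin.sum_univ_succAbove _ b, hb] at h1
      have h3 : D.col b = (C (constantCoeff (u b))⁻¹ : MvPolynomial (Fin e) k) •
          (-(∑ i : Fin n', vc g s' (s' b) u (b.succAbove i) • D.col (b.succAbove i))) := by
        rw [← eq_neg_iff_add_eq_zero] at h1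
        rw [← h1, smul_smul, ← C_mul, inv_mul_cancel₀ hc, C_1, one_smul]
      rw [SetLike.mem_coe, h3]
      refine Submodule.smul_mem _ _ (Submodule.neg_mem _ (Submodule.sum_mem _ fun i _ =>
        Submodule.smul_mem _ _ (Submodule.subset_span ⟨i, rfl⟩)))
    · obtain ⟨l, rfl⟩ := Fin.exists_succAbove_eq hne
      exact Submodule.subset_span ⟨l, rfl⟩

/-- A stage in the construction of the minimal resolution: a graded submodule of a shifted free
module, contained in the maximal ideal times the module. -/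
structure Stage (k : Type*) [Field k] {e : ℕ} (g : Fin e → ℕ) where
  r : ℕ
  s : Fin r → ℕ
  K : Submodule (MvPolynomial (Fin e) k) (Fin r → MvPolynomial (Fin e) k)
  gr : IsGr g s K
  min : ∀ u ∈ K, ∀ b, constantCoeff (u b) = 0

lemma Stage.exists_next (hg : ∀ i, 0 < g i) (S : Stage k g) :
    ∃ (T : Stage k g) (D : Matrix (Fin S.r) (Fin T.r) (MvPolynomial (Fin e) k)),
      LinearMap.range D.mulVecLin = S.K ∧ LinearMap.ker D.mulVecLin = T.K := by
  obtain ⟨n, D, s', hD, hr, hm⟩ := exists_min_cover g hg S.s S.K S.gr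
  refine ⟨⟨n, s', LinearMap.ker D.mulVecLin, ker_isGr g hD, fun u hu b => ?_⟩, D, hr, rfl⟩
  exact hm u (by simpa using hu) b

noncomputable def Stage.next (hg : ∀ i, 0 < g i) (S : Stage k g) : Stage k g :=
  (S.exists_next g hg).choose

noncomputable def Stage.mat (hg : ∀ i, 0 < g i) (S : Stage k g) :
    Matrix (Fin S.r) (Fin (S.next g hg).r) (MvPolynomial (Fin e) k) :=
  (S.exists_next g hg).choose_spec.choose

lemma Stage.mat_spec (hg : ∀ i, 0 < g i) (S : Stage k g) :
    LinearMap.range (S.mat g hg).mulVecLin = S.K ∧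
      LinearMap.ker (S.mat g hg).mulVecLin = (S.next g hg).K :=
  (S.exists_next g hg).choose_spec.choose_spec

noncomputable def Stage.seq (hg : ∀ i, 0 < g i) (S : Stage k g) : ℕ → Stage k g
  | 0 => S
  | n + 1 => (Stage.seq hg S n).next g hg

/-- Existence of minimal graded resolutions of cyclic modules `S / I`. -/
theorem exists_minRes (hg : ∀ i, 0 < g i) (I : Ideal (MvPolynomial (Fin e) k))
    (hI : ∀ p ∈ I, ∀ m, weightedHomogeneousComponent g m p ∈ I)
    (hI1 : ∀ p ∈ I, constantCoeff p = 0) :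
    ∃ (r : ℕ → ℕ) (d : ∀ n, Matrix (Fin (r n)) (Fin (r (n + 1))) (MvPolynomial (Fin e) k)),
      r 0 = 1 ∧ (∀ v, v ∈ LinearMap.range (d 0).mulVecLin ↔ ∀ a, v a ∈ I) ∧
      (∀ n, LinearMap.ker (d n).mulVecLin = LinearMap.range (d (n + 1)).mulVecLin) ∧
      MinRes r d := by
  let S0 : Stage k g :=
    { r := 1
      s := fun _ => 0
      K := Submodule.pi Set.univ (fun _ => I)
      gr := by
        intro v hv m
        rw [Submodule.mem_pi] at hv ⊢
        intro a _
        have := hI _ (hv a (Set.mem_univ _)) m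
        simpa [vc, pc] using this
      min := by
        intro u hu b
        rw [Submodule.mem_pi] at hu
        exact hI1 _ (hu b (Set.mem_univ _)) }
  refine ⟨fun n => (Stage.seq g hg S0 n).r, fun n => (Stage.seq g hg S0 n).mat g hg, rfl, ?_, ?_,
    ?_⟩
  · intro v
    have h := ((Stage.seq g hg S0 0).mat_spec g hg).1
    have h2 : v ∈ S0.K ↔ ∀ a, v a ∈ I := by
      simp only [S0]
      exact ⟨fun h a => h a (Set.mem_univ _), fun h a _ => h a⟩
    exact (iff_of_eq (congrArg (fun Z => v ∈ Z) h)).trans h2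
  · intro n
    have h1 := ((Stage.seq g hg S0 n).mat_spec g hg).2
    have h2 := ((Stage.seq g hg S0 (n + 1)).mat_spec g hg).1
    exact h1.trans h2.symm
  · intro m i j
    have h1 := ((Stage.seq g hg S0 m).mat_spec g hg).1
    have h2 : ((Stage.seq g hg S0 m).mat g hg).col j ∈ (Stage.seq g hg S0 m).K := by
      rw [← h1, range_mulVecLin]
      exact Submodule.subset_span ⟨j, rfl⟩
    exact (Stage.seq g hg S0 m).min _ h2 i

end Pool.Agent.MP_05ef64_al
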