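import Mathlib

set_option autoImplicit false

/-!
# Matrices, base change along `x = 0`, and socles

Elementary homological algebra with matrices.  A complex of finite free modules is a sequence
of matrices `d n`, with exactness written as
`d n *ᵥ v = 0 ↔ ∃ u, v = d (n+1) *ᵥ u`.
-/

namespace Pool.Agent.MP_05ef64_al

open Matrix MvPolynomial

/-- `φ` is surjective with kernel generated by the regular element `x`. -/
structure Kill {R R' : Type*} [CommRing R] [CommRing R'] (φ : R →+* R') (x : R) : Prop where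
  surj : Function.Surjective φ
  ker : ∀ a, φ a = 0 → ∃ b, a = x * b
  kx : φ x = 0
  reg : ∀ a, x * a = 0 → a = 0

section kill
variable {R R' : Type*} [CommRing R] [CommRing R'] {φ : R →+* R'} {x : R}

lemma Kill.lift (h : Kill φ x) {n : ℕ} (v : Fin n → R') : ∃ w : Fin n → R, φ ∘ w = v := by
  choose f hf using h.surj
  exact ⟨fun i => f (v i), funext fun i => hf _⟩

lemma Kill.div (h : Kill φ x) {n : ℕ} (v : Fin n → R) (hv : φ ∘ v = 0) :
    ∃ w : Fin n → R, v = x • w := by
  choose f hf using h.ker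
  exact ⟨fun i => f (v i) (congrFun hv i), funext fun i => by simpa using hf (v i) (congrFun hv i)⟩

lemma Kill.cancel (h : Kill φ x) {n : ℕ} {v : Fin n → R} (hv : x • v = 0) : v = 0 := by
  funext i
  exact h.reg _ (by simpa using congrFun hv i)

lemma Kill.cancel' (h : Kill φ x) {n : ℕ} {v w : Fin n → R} (hv : x • v = x • w) : v = w := by
  have : x • (v - w) = 0 := by rw [smul_sub, hv, sub_self]
  exact sub_eq_zero.mp (h.cancel this)

lemma Kill.map_smul_x (h : Kill φ x) {n : ℕ} (w : Fin n → R) : φ ∘ (x • w) = 0 := by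
  funext i
  simp [h.kx]

lemma map_mulVec' {a b : ℕ} (φ : R →+* R') (M : Matrix (Fin a) (Fin b) R) (v : Fin b → R) :
    φ ∘ (M *ᵥ v) = M.map φ *ᵥ (φ ∘ v) := by
  funext i
  exact RingHom.map_mulVec φ M v i

lemma comp_sub (φ : R →+* R') {n : ℕ} (v w : Fin n → R) : φ ∘ (v - w) = φ ∘ v - φ ∘ w := by
  funext i; simp

lemma comp_smul (φ : R →+* R') {n : ℕ} (c : R) (v : Fin n → R) :
    φ ∘ (c • v) = φ c • (φ ∘ v) := by
  funext i; simp

/-- One step of base change: exactness at the middle is kept if `x` is regular on the cokernel of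
`D`. -/
theorem exact_step (h : Kill φ x) {a b c : ℕ} (D : Matrix (Fin a) (Fin b) R)
    (D' : Matrix (Fin b) (Fin c) R) (hex : ∀ v, D *ᵥ v = 0 ↔ ∃ u, v = D' *ᵥ u)
    (hreg : ∀ v : Fin a → R, (∃ u, x • v = D *ᵥ u) → ∃ u, v = D *ᵥ u) (v' : Fin b → R') :
    D.map φ *ᵥ v' = 0 ↔ ∃ u', v' = D'.map φ *ᵥ u' := by
  constructor
  · intro hv
    obtain ⟨v, rfl⟩ := h.lift v'
    rw [← map_mulVec'] at hv
    obtain ⟨w, hw⟩ := h.div _ hv
    obtain ⟨u, hu⟩ := hreg w ⟨v, hw.symm⟩
    have h0 : D *ᵥ (v - x • u) = 0 := by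
      rw [mulVec_sub, mulVec_smul, hw, hu, sub_self]
    obtain ⟨u', hu'⟩ := (hex _).1 h0
    refine ⟨φ ∘ u', ?_⟩
    rw [← map_mulVec', ← hu', comp_sub, h.map_smul_x, sub_zero]
  · rintro ⟨u', rfl⟩
    obtain ⟨u, rfl⟩ := h.lift u'
    rw [← map_mulVec', ← map_mulVec', (hex _).2 ⟨u, rfl⟩]
    funext i; simp

/-- If `x` is regular and the complex is exact one step lower, then `x` is regular on the
cokernel. -/
theorem reg_coker (h : Kill φ x) {a b c : ℕ} (D : Matrix (Fin a) (Fin b) R)
    (D' : Matrix (Fin b) (Fin c) R) (hex : ∀ v, D *ᵥ v = 0 ↔ ∃ u, v = D' *ᵥ u)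
    (v : Fin b → R) (hv : ∃ u, x • v = D' *ᵥ u) : ∃ u, v = D' *ᵥ u := by
  have h1 : D *ᵥ (x • v) = 0 := (hex _).2 hv
  rw [mulVec_smul] at h1
  exact (hex _).1 (h.cancel h1)

end kill

/-- A sequence of matrices, exact in positive degrees. -/
def ExactPos {R : Type*} [CommRing R] (r : ℕ → ℕ)
    (d : ∀ n, Matrix (Fin (r n)) (Fin (r (n + 1))) R) : Prop :=
  ∀ n v, d n *ᵥ v = 0 ↔ ∃ u, v = d (n + 1) *ᵥ u

/-- Base change of a complex, shifted by one. -/
theorem ExactPos.shiftMap {R R' : Type*} [CommRing R] [CommRing R'] {φ : R →+* R'} {x : R}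
    (h : Kill φ x) {r : ℕ → ℕ} {d : ∀ n, Matrix (Fin (r n)) (Fin (r (n + 1))) R}
    (hd : ExactPos r d) :
    ExactPos (fun n => r (n + 1)) (fun n => (d (n + 1)).map φ) := by
  intro n v
  exact exact_step h (d (n + 1)) (d (n + 2)) (hd (n + 1))
    (fun v hv => reg_coker h (d n) (d (n + 1)) (hd n) v hv) v

/-- Base change of a complex when `x` is regular on the cokernel of `d 0`. -/
theorem ExactPos.map {R R' : Type*} [CommRing R] [CommRing R'] {φ : R →+* R'} {x : R}
    (h : Kill φ x) {r : ℕ → ℕ} {d : ∀ n, Matrix (Fin (r n)) (Fin (r (n + 1))) R}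
    (hd : ExactPos r d)
    (hreg : ∀ v : Fin (r 0) → R, (∃ u, x • v = d 0 *ᵥ u) → ∃ u, v = d 0 *ᵥ u) :
    ExactPos r (fun n => (d n).map φ) := by
  intro n
  cases n with
  | zero => exact exact_step h (d 0) (d 1) (hd 0) hreg
  | succ n => exact hd.shiftMap h n

section Poly
variable (k : Type*) [Field k]

/-- Killing the variable `i`. -/
noncomputable def killVar {n : ℕ} (i : Fin (n + 1)) :
    MvPolynomial (Fin (n + 1)) k →ₐ[k] MvPolynomial (Fin n) k :=
  aeval (Fin.insertNth (α := fun _ => MvPolynomial (Fin n) k) i 0 X)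

@[simp] lemma killVar_self {n : ℕ} (i : Fin (n + 1)) : killVar k i (X i) = 0 := by
  simp [killVar]

@[simp] lemma killVar_succAbove {n : ℕ} (i : Fin (n + 1)) (j : Fin n) :
    killVar k i (X (i.succAbove j)) = X j := by
  simp [killVar]

/-- The section of `killVar`. -/
noncomputable def secVar {n : ℕ} (i : Fin (n + 1)) :
    MvPolynomial (Fin n) k →ₐ[k] MvPolynomial (Fin (n + 1)) k :=
  aeval (fun j => X (i.succAbove j))

@[simp] lemma secVar_X {n : ℕ} (i : Fin (n + 1)) (j : Fin n) :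
    secVar k i (X j) = X (i.succAbove j) := by
  simp [secVar]

@[simp] lemma killVar_secVar {n : ℕ} (i : Fin (n + 1)) (p : MvPolynomial (Fin n) k) :
    killVar k i (secVar k i p) = p := by
  have : (killVar k i).comp (secVar k i) = AlgHom.id k _ := by
    ext j
    simp
  simpa using congrArg (fun f => f p) (congrArg DFunLike.coe this)

lemma sub_secVar_killVar {n : ℕ} (i : Fin (n + 1)) (p : MvPolynomial (Fin (n + 1)) k) :
    ∃ q, p - secVar k i (killVar k i p) = X i * q := by
  induction p using MvPolynomial.induction_on with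
  | C a => exact ⟨0, by simp [algHom_C]⟩
  | add p q hp hq =>
    obtain ⟨a, ha⟩ := hp
    obtain ⟨b, hb⟩ := hq
    refine ⟨a + b, ?_⟩
    rw [mul_add, ← ha, ← hb, map_add, map_add]
    ring
  | mul_X p j hp =>
    obtain ⟨a, ha⟩ := hp
    rcases eq_or_ne j i with rfl | hj
    · exact ⟨p, by simp [mul_comm]⟩
    · obtain ⟨l, rfl⟩ := Fin.exists_succAbove_eq hj
      refine ⟨a * X (i.succAbove l), ?_⟩
      rw [← mul_assoc, ← ha, map_mul, map_mul, killVar_succAbove, secVar_X]
      ring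

theorem kill_killVar {n : ℕ} (i : Fin (n + 1)) :
    Kill (killVar k i : MvPolynomial (Fin (n + 1)) k →+* MvPolynomial (Fin n) k) (X i) where
  surj := fun p => ⟨secVar k i p, killVar_secVar k i p⟩
  ker := fun p hp => by
    obtain ⟨q, hq⟩ := sub_secVar_killVar k i p
    refine ⟨q, ?_⟩
    have : killVar k i p = 0 := hp
    rw [this] at hq
    simpa using hq
  kx := killVar_self k i
  reg := fun a ha => by
    rcases mul_eq_zero.mp ha with h | h
    · exact absurd h (X_ne_zero i)
    · exact h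

end Poly

end Pool.Agent.MP_05ef64_al
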