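import Pool.Agent.MP_05ef64_al.Cases

set_option autoImplicit false

/-!
# Uniform boundedness of Betti numbers in embedding dimension four
-/

namespace Pool.Agent.MP_05ef64_al

open MvPolynomial

section
variable {g : Fin 4 → ℕ}

lemma exists_weight_of_mem {e : ℕ} {g : Fin e → ℕ} {n : ℕ}
    (hn : n ∈ AddSubmonoid.closure (Set.range g)) :
    ∃ u : Fin e →₀ ℕ, Finsupp.weight g u = n := by
  induction hn using AddSubmonoid.closure_induction with
  | mem x hx =>
    obtain ⟨l, rfl⟩ := hx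
    exact ⟨Finsupp.single l 1, by rw [Finsupp.weight_single]; simp⟩
  | zero => exact ⟨0, map_zero _⟩
  | add x y _ _ hx hy =>
    obtain ⟨u, rfl⟩ := hx
    obtain ⟨v, rfl⟩ := hy
    exact ⟨u + v, map_add _ _ _⟩

lemma P_bounded (hfin : ((AddSubmonoid.closure (Set.range g) : Set ℕ)ᶜ).Finite)
    {i y z w : Fin 4} (h : Enum4 i y z w) : ∃ B, ∀ n, P (g i) (g y) (g z) (g w) n → n ≤ B := by
  obtain ⟨B0, hB0⟩ := hfin.bddAbove
  refine ⟨B0 + g i, fun n hn => ?_⟩
  by_contra hlt
  push Not at hlt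
  have h1 : n - g i ∈ AddSubmonoid.closure (Set.range g) := by
    by_contra h2
    have := hB0 (show n - g i ∈ ((AddSubmonoid.closure (Set.range g) : Set ℕ)ᶜ) from h2)
    omega
  obtain ⟨u, hu⟩ := exists_weight_of_mem h1
  rw [h.weight] at hu
  have := hn.2 (u i + 1) (u y) (u z) (u w) (by
    have : (u i + 1) * g i + u y * g y + u z * g z + u w * g w
        = u i * g i + u y * g y + u z * g z + u w * g w + g i := by ring
    rw [this, hu]; omega)
  omega

/-- The bounding function. -/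
def Phi (N : ℕ) : ℕ := (N + 1) * (2 * N + 1) ^ 2 + N + 1

variable {k : Type*} [Field k]

/-- **Quantitative form**: from one bounded Betti number, a resolution in which
`r 1, r 2, r 3` are all bounded. -/
theorem bound4 (hg : ∀ l, 0 < g l)
    (hfin : ((AddSubmonoid.closure (Set.range g) : Set ℕ)ᶜ).Finite) {r : ℕ → ℕ}
    {d : ∀ n, Matrix (Fin (r n)) (Fin (r (n + 1))) (MvPolynomial (Fin 4) k)}
    (hR : IsRes k g r d) {i₀ N : ℕ} (hi1 : 1 ≤ i₀) (hi3 : i₀ ≤ 3) (hN : r i₀ ≤ N) :
    ∃ (r' : ℕ → ℕ) (d' : ∀ n, Matrix (Fin (r' n)) (Fin (r' (n + 1))) (MvPolynomial (Fin 4) k)),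
      IsRes k g r' d' ∧ ∀ j₀, 1 ≤ j₀ → j₀ ≤ 3 → r' j₀ ≤ Phi N := by
  classical
  obtain ⟨i, y, z, w, c, s, a, b, h, K⟩ := exists_kdata (g := g) hg
  obtain ⟨B, hB⟩ := P_bounded hfin h
  -- all maximal elements
  let T : Finset ℕ := (Finset.range (B + 1)).filter (fun n => MaxAp g i n)
  have hT : ∀ n, n ∈ T ↔ MaxAp g i n := by
    intro n
    simp only [T, Finset.mem_filter, Finset.mem_range, and_iff_right_iff_imp]
    intro hn
    have := hB n ((h.maxAp_iff g n).1 hn).1
    omega
  -- the minimal resolution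
  obtain ⟨r', d', e0, e1, e2, hmin⟩ := exists_minRes (k := k) g hg (RingHom.ker (par k g))
    (fun p hp m => whc_mem g hp m) (fun p hp => const_mem g hg hp)
  have hR' : IsRes k g r' d' := ⟨e0, e1, e2⟩
  refine ⟨r', d', hR', ?_⟩
  have h3 : r' 3 ≤ T.card := hR'.le_card hmin i T (fun n hn => (hT n).2 hn)
  have h2 : r' 2 ≤ r' 1 + r' 3 := hR'.euler
  -- the set of componentwise minimal triples
  have hWfin : {μ : ℕ × ℕ × ℕ | MinW (g i) (g y) (g z) (g w) c μ.1 μ.2.1 μ.2.2}.Finite := by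
    by_contra hinf
    obtain ⟨F, hF, hFc⟩ := Set.Infinite.exists_subset_card_eq hinf
      ((T.card + 1) * (2 * T.card + 1) * (2 * T.card + 1) + 1)
    have := K.count2 hB T (fun n hn => (hT n).2 ((h.maxAp_iff g n).2 hn)) F (fun μ hμ => hF hμ)
    omega
  obtain ⟨f, hf⟩ := exists_gens (k := k) h K hWfin.toFinset (fun μ => by simp)
  have hWc : hWfin.toFinset.card ≤ (T.card + 1) * (2 * T.card + 1) * (2 * T.card + 1) :=
    K.count2 hB T (fun n hn => (hT n).2 ((h.maxAp_iff g n).2 hn)) _ (fun μ hμ => by simpa using hμ)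
  have h1 : r' 1 ≤ (T.card + 1) * (2 * T.card + 1) * (2 * T.card + 1) + 1 :=
    (hR'.le_gens hmin f hf).trans (Nat.succ_le_succ hWc)
  have hcases : i₀ = 1 ∨ T.card ≤ N := by
    rcases (by omega : i₀ = 1 ∨ i₀ = 2 ∨ i₀ = 3) with rfl | rfl | rfl
    · exact Or.inl rfl
    · right
      exact (hR.card_le' i T (fun n hn => (hT n).1 hn)).trans hN
    · right
      exact (hR.card_le i T (fun n hn => (hT n).1 hn)).trans hN
  have key : r' 1 + r' 3 ≤ Phi N := by
    rcases hcases with rfl | hTN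
    · -- generators of the ideal from the given resolution
      have hg1 : r' 1 ≤ N := by
        have h0 : 0 < r 0 := by rw [hR.r0]; exact Nat.one_pos
        refine (hR'.le_gens hmin (fun x : Fin (r 1) => d 0 ⟨0, h0⟩ x) ?_).trans hN
        apply le_antisymm
        · rw [Ideal.span_le]
          rintro _ ⟨x, rfl⟩
          exact (hR.aug' ((d 0).col x)).1 ⟨Pi.single x 1, by simp⟩ ⟨0, h0⟩
        · intro p hp
          obtain ⟨u, hu⟩ := (hR.aug' (fun _ => p)).2 (fun _ => hp)
          have := congrFun hu ⟨0, h0⟩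
          simp only [Matrix.mulVec, dotProduct] at this
          rw [this]
          exact Ideal.sum_mem _ fun x _ => Ideal.mul_mem_right _ _ (Ideal.subset_span ⟨x, rfl⟩)
      have hT1 : T.card ≤ (N + 1) * (2 * N) * (2 * N) :=
        K.count1 N (fun F hF => (card_min_le h K hR F hF).trans hN) T
          (fun n hn => (h.maxAp_iff g n).1 ((hT n).1 hn))
      have : (N + 1) * (2 * N) * (2 * N) ≤ (N + 1) * (2 * N + 1) ^ 2 := by
        rw [mul_assoc, pow_two]
        exact Nat.mul_le_mul le_rfl (Nat.mul_le_mul (by omega) (by omega))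
      unfold Phi
      omega
    · have : (T.card + 1) * (2 * T.card + 1) * (2 * T.card + 1) ≤ (N + 1) * (2 * N + 1) ^ 2 := by
        rw [mul_assoc, pow_two]
        exact Nat.mul_le_mul (by omega) (Nat.mul_le_mul (by omega) (by omega))
      unfold Phi
      omega
  intro j₀ hj1 hj3
  rcases (by omega : j₀ = 1 ∨ j₀ = 2 ∨ j₀ = 3) with rfl | rfl | rfl <;> omega

end

end Pool.Agent.MP_05ef64_al
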