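import Pool.Agent.MP_05ef64_al.Homology

set_option autoImplicit false

/-!
# Socles of cokernels and the top of a resolution
-/

namespace Pool.Agent.MP_05ef64_al

open Matrix MvPolynomial

variable {k : Type*} [Field k]

/-- `v` is a family in the socle of the cokernel of `D`, linearly independent over `k`. -/
structure SocFam {n a b : ℕ} (D : Matrix (Fin a) (Fin b) (MvPolynomial (Fin n) k)) {s : ℕ}
    (v : Fin s → Fin a → MvPolynomial (Fin n) k) : Prop where
  soc : ∀ i (l : Fin n), ∃ u, (X l : MvPolynomial (Fin n) k) • v i = D *ᵥ u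
  indep : ∀ c : Fin s → k,
    (∃ u, ∑ i, (C (c i) : MvPolynomial (Fin n) k) • v i = D *ᵥ u) → c = 0

lemma map_sum_smul {R R' : Type*} [CommRing R] [CommRing R'] (φ : R →+* R') {n s : ℕ}
    (c : Fin s → R) (v : Fin s → Fin n → R) :
    φ ∘ (∑ i, c i • v i) = ∑ i, φ (c i) • (φ ∘ v i) := by
  funext j
  simp [Finset.sum_apply]

/-- Passing to the next syzygy module modulo the first variable. -/
theorem SocFam.next {n : ℕ} {r : ℕ → ℕ}
    {d : ∀ m, Matrix (Fin (r m)) (Fin (r (m + 1))) (MvPolynomial (Fin (n + 1)) k)}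
    (hd : ExactPos r d) {s : ℕ} {v : Fin s → Fin (r 0) → MvPolynomial (Fin (n + 1)) k}
    (hv : SocFam (d 0) v) :
    ∃ f : Fin s → Fin (r 1) → MvPolynomial (Fin n) k,
      SocFam ((d 1).map (killVar k (0 : Fin (n + 1)))) f := by
  set φ : MvPolynomial (Fin (n + 1)) k →+* MvPolynomial (Fin n) k :=
    (killVar k (0 : Fin (n + 1)) : MvPolynomial (Fin (n + 1)) k →+* MvPolynomial (Fin n) k) with hφ
  have hK : Kill φ (X 0) := kill_killVar k 0
  choose f hf using fun i => hv.soc i 0
  refine ⟨fun i => φ ∘ f i, ?_, ?_⟩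
  · intro i l
    obtain ⟨h, hh⟩ := hv.soc i l.succ
    have h0 : d 0 *ᵥ ((X l.succ : MvPolynomial (Fin (n + 1)) k) • f i
        - (X 0 : MvPolynomial (Fin (n + 1)) k) • h) = 0 := by
      rw [mulVec_sub, mulVec_smul, mulVec_smul, ← hf, ← hh, smul_comm, sub_self]
    obtain ⟨u, hu⟩ := (hd 0 _).1 h0
    refine ⟨φ ∘ u, ?_⟩
    have h1 : φ (X l.succ) = X l := by
      have := killVar_succAbove k (0 : Fin (n + 1)) l
      rwa [Fin.zero_succAbove] at this
    have h2 := map_mulVec' φ (d 1) u
    rw [← hu, comp_sub, comp_smul, h1, hK.map_smul_x, sub_zero] at h2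
    exact h2
  · intro c hc
    obtain ⟨u', hu'⟩ := hc
    obtain ⟨u, rfl⟩ := hK.lift u'
    have hC : ∀ a : k, φ (C a) = C a := fun a => by
      simp [hφ, algHom_C]
    have h1 : φ ∘ (∑ i, (C (c i) : MvPolynomial (Fin (n + 1)) k) • f i - d 1 *ᵥ u) = 0 := by
      rw [comp_sub, map_sum_smul, map_mulVec', sub_eq_zero]
      simp only [hC]
      exact hu'
    obtain ⟨h, hh⟩ := hK.div _ h1
    refine hv.indep c ⟨h, ?_⟩
    apply hK.cancel'
    have h2 : d 0 *ᵥ (d 1 *ᵥ u) = 0 := (hd 0 _).2 ⟨u, rfl⟩
    have h3 : ∑ i, (C (c i) : MvPolynomial (Fin (n + 1)) k) • f i = d 1 *ᵥ u + (X 0 : MvPolynomial (Fin (n + 1)) k) • h := by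
      rw [← hh]; abel
    calc (X 0 : MvPolynomial (Fin (n + 1)) k) •
          ∑ i, (C (c i) : MvPolynomial (Fin (n + 1)) k) • v i
        = ∑ i, (C (c i) : MvPolynomial (Fin (n + 1)) k) •
            ((X 0 : MvPolynomial (Fin (n + 1)) k) • v i) := by
          rw [Finset.smul_sum]
          exact Finset.sum_congr rfl fun i _ => smul_comm _ _ _
      _ = ∑ i, (C (c i) : MvPolynomial (Fin (n + 1)) k) • (d 0 *ᵥ f i) := by
          exact Finset.sum_congr rfl fun i _ => by rw [hf]
      _ = d 0 *ᵥ (∑ i, (C (c i) : MvPolynomial (Fin (n + 1)) k) • f i) := by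
          rw [mulVec_sum]
          exact Finset.sum_congr rfl fun i _ => by rw [mulVec_smul]
      _ = (X 0 : MvPolynomial (Fin (n + 1)) k) • (d 0 *ᵥ h) := by
          rw [h3, mulVec_add, h2, zero_add, mulVec_smul]

/-- **Lower bound**: a `k`-linearly independent family in the socle of the cokernel has at most
`r n` elements, `n` the number of variables. -/
theorem SocFam.card_le {n : ℕ} : ∀ {r : ℕ → ℕ}
    {d : ∀ m, Matrix (Fin (r m)) (Fin (r (m + 1))) (MvPolynomial (Fin n) k)}
    (_ : ExactPos r d) {s : ℕ} {v : Fin s → Fin (r 0) → MvPolynomial (Fin n) k}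
    (_ : SocFam (d 0) v), s ≤ r n := by
  induction n with
  | zero =>
    intro r d hd s v hv
    have hli : LinearIndependent k
        (fun i => (fun j => constantCoeff (v i j) : Fin (r 0) → k)) := by
      rw [Fintype.linearIndependent_iff]
      intro c hc
      have : c = 0 := by
        refine hv.indep c ⟨0, ?_⟩
        rw [mulVec_zero]
        funext j
        have h1 := congrFun hc j
        have h2 : ∀ p : MvPolynomial (Fin 0) k, p = C (constantCoeff p) := fun p => by
          have := MvPolynomial.eq_C_of_isEmpty p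
          rw [this]; simp
        have h3 : constantCoeff ((∑ i, (C (c i) : MvPolynomial (Fin 0) k) • v i) j) = 0 := by
          simpa [Finset.sum_apply] using h1
        rw [h2 ((∑ i, (C (c i) : MvPolynomial (Fin 0) k) • v i) j), h3]
        simp
      exact fun i => congrFun this i
    have := hli.fintype_card_le_finrank
    simpa using this
  | succ n ih =>
    intro r d hd s v hv
    obtain ⟨f, hf⟩ := hv.next hd
    exact ih (hd.shiftMap (kill_killVar k 0)) hf

/-- All entries lie in the maximal ideal. -/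
def MinRes {σ : Type*} (r : ℕ → ℕ)
    (d : ∀ m, Matrix (Fin (r m)) (Fin (r (m + 1))) (MvPolynomial σ k)) : Prop :=
  ∀ m i j, constantCoeff (d m i j) = 0

lemma constantCoeff_killVar {n : ℕ} (i : Fin (n + 1)) (p : MvPolynomial (Fin (n + 1)) k) :
    constantCoeff (killVar k i p) = constantCoeff p := by
  induction p using MvPolynomial.induction_on with
  | C a => simp [algHom_C]
  | add p q hp hq => simp [hp, hq]
  | mul_X p j hp =>
    rcases eq_or_ne j i with rfl | hj
    · simp
    · obtain ⟨l, rfl⟩ := Fin.exists_succAbove_eq hj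
      simp

/-- Submodules of `k[X]^a`: elements independent modulo `X` are at most `a` many. -/
theorem pid_bound {a b : ℕ} (D : Matrix (Fin a) (Fin b) (MvPolynomial (Fin 1) k)) {s : ℕ}
    {v : Fin s → Fin a → MvPolynomial (Fin 1) k} (hv : SocFam D v) : s ≤ a := by
  classical
  have hpid : IsPrincipalIdealRing (MvPolynomial (Fin 1) k) := by
    refine IsPrincipalIdealRing.of_surjective
      ((Polynomial.aeval (X 0 : MvPolynomial (Fin 1) k) : Polynomial k →ₐ[k] _) :
        Polynomial k →+* MvPolynomial (Fin 1) k) ?_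
    intro p
    induction p using MvPolynomial.induction_on with
    | C a => exact ⟨Polynomial.C a, by simp [MvPolynomial.algebraMap_eq]⟩
    | add p q hp hq =>
      obtain ⟨a, ha⟩ := hp
      obtain ⟨b, hb⟩ := hq
      exact ⟨a + b, by rw [map_add, ha, hb]⟩
    | mul_X p j hp =>
      obtain ⟨a, ha⟩ := hp
      obtain rfl : j = 0 := Subsingleton.elim _ _
      exact ⟨a * Polynomial.X, by rw [map_mul, ha]; simp⟩
  have hK : Kill (killVar k (0 : Fin 1) : MvPolynomial (Fin 1) k →+* MvPolynomial (Fin 0) k)
    (X 0) := kill_killVar k 0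
  set K := LinearMap.range D.mulVecLin with hKdef
  obtain ⟨n, b⟩ := Submodule.basisOfPid (Pi.basisFun (MvPolynomial (Fin 1) k) (Fin a)) K
  have hn : n ≤ a := by
    have h1 := Submodule.finrank_le K
    rw [Module.finrank_eq_card_basis b] at h1
    simpa using h1
  refine le_trans ?_ hn
  have hmem : ∀ i, (X 0 : MvPolynomial (Fin 1) k) • v i ∈ K := fun i => by
    obtain ⟨u, hu⟩ := hv.soc i 0
    exact ⟨u, by simpa using hu.symm⟩
  have hli : LinearIndependent k
      (fun i : Fin s => (fun j => constantCoeff (b.repr ⟨_, hmem i⟩ j) : Fin n → k)) := by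
    rw [Fintype.linearIndependent_iff]
    intro c hc
    have : c = 0 := by
      have h1 : ∀ j, ∃ q, ∑ i, (C (c i) : MvPolynomial (Fin 1) k) * b.repr ⟨_, hmem i⟩ j
          = X 0 * q := by
        intro j
        apply hK.ker
        have h2 := MvPolynomial.eq_C_of_isEmpty (killVar k (0 : Fin 1)
          (∑ i, (C (c i) : MvPolynomial (Fin 1) k) * b.repr ⟨_, hmem i⟩ j))
        have h3 : constantCoeff (killVar k (0 : Fin 1)
          (∑ i, (C (c i) : MvPolynomial (Fin 1) k) * b.repr ⟨_, hmem i⟩ j)) = 0 := by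
          have h4 := congrFun hc j
          rw [constantCoeff_killVar]
          simpa [Finset.sum_apply] using h4
        rw [constantCoeff_eq] at h3
        rw [h3] at h2
        simpa using h2
      choose q hq using h1
      have hκ : (∑ j, q j • (b j : Fin a → MvPolynomial (Fin 1) k)) ∈ K :=
        K.sum_mem fun j _ => K.smul_mem _ (b j).2
      obtain ⟨u, hu⟩ := hκ
      refine hv.indep c ⟨u, ?_⟩
      apply hK.cancel'
      have h5 : ∀ i, (X 0 : MvPolynomial (Fin 1) k) • v i
          = ∑ j, b.repr ⟨_, hmem i⟩ j • (b j : Fin a → MvPolynomial (Fin 1) k) := by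
        intro i
        have := congrArg (fun z : K => (z : Fin a → MvPolynomial (Fin 1) k))
          (b.sum_repr ⟨_, hmem i⟩)
        simp only [Submodule.coe_sum, Submodule.coe_smul] at this
        exact this.symm
      have hu' : D *ᵥ u = ∑ j, q j • (b j : Fin a → MvPolynomial (Fin 1) k) := by
        simpa using hu
      calc (X 0 : MvPolynomial (Fin 1) k) • ∑ i, (C (c i) : MvPolynomial (Fin 1) k) • v i
          = ∑ i, (C (c i) : MvPolynomial (Fin 1) k) •
              ((X 0 : MvPolynomial (Fin 1) k) • v i) := by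
            rw [Finset.smul_sum]
            exact Finset.sum_congr rfl fun i _ => smul_comm _ _ _
        _ = ∑ i, ∑ j, ((C (c i) : MvPolynomial (Fin 1) k) * b.repr ⟨_, hmem i⟩ j) •
              (b j : Fin a → MvPolynomial (Fin 1) k) := by
            refine Finset.sum_congr rfl fun i _ => ?_
            refine (congrArg (fun z => (C (c i) : MvPolynomial (Fin 1) k) • z) (h5 i)).trans ?_
            rw [Finset.smul_sum]
            exact Finset.sum_congr rfl fun j _ => by rw [smul_smul]
        _ = ∑ j, (∑ i, (C (c i) : MvPolynomial (Fin 1) k) * b.repr ⟨_, hmem i⟩ j) •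
              (b j : Fin a → MvPolynomial (Fin 1) k) := by
            rw [Finset.sum_comm]
            exact Finset.sum_congr rfl fun j _ => by rw [Finset.sum_smul]
        _ = (X 0 : MvPolynomial (Fin 1) k) • (D *ᵥ u) := by
            rw [hu', Finset.smul_sum]
            exact Finset.sum_congr rfl fun j _ => by rw [hq, smul_smul]
    exact fun i => congrFun this i
  have := hli.fintype_card_le_finrank
  simpa using this

/-- **Lower bound**, second form: a `k`-linearly independent family in the socle of the cokernel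
has at most `r n` elements, where `n + 1` is the number of variables. -/
theorem SocFam.card_le' {n : ℕ} : ∀ {r : ℕ → ℕ}
    {d : ∀ m, Matrix (Fin (r m)) (Fin (r (m + 1))) (MvPolynomial (Fin (n + 1)) k)}
    (_ : ExactPos r d) {s : ℕ} {v : Fin s → Fin (r 0) → MvPolynomial (Fin (n + 1)) k}
    (_ : SocFam (d 0) v), s ≤ r n := by
  induction n with
  | zero =>
    intro r d hd s v hv
    exact pid_bound _ hv
  | succ n ih =>
    intro r d hd s v hv
    obtain ⟨f, hf⟩ := hv.next hd
    exact ih (hd.shiftMap (kill_killVar k 0)) hf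

/-- **Upper bound** for minimal complexes: there is a linearly independent family of `r n`
elements in the socle of the cokernel. -/
theorem exists_socFam {n : ℕ} : ∀ {r : ℕ → ℕ}
    {d : ∀ m, Matrix (Fin (r m)) (Fin (r (m + 1))) (MvPolynomial (Fin n) k)}
    (_ : ExactPos r d) (_ : MinRes r d),
    ∃ v : Fin (r n) → Fin (r 0) → MvPolynomial (Fin n) k, SocFam (d 0) v := by
  induction n with
  | zero =>
    intro r d hd hm
    refine ⟨fun i => Pi.single i 1, fun _ l => l.elim0, ?_⟩
    intro c ⟨u, hu⟩
    have h0 : d 0 = 0 := by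
      ext1 i j
      have h1 := MvPolynomial.eq_C_of_isEmpty (d 0 i j)
      have h2 := hm 0 i j
      rw [constantCoeff_eq] at h2
      rw [h1, h2]; simp
    rw [h0, zero_mulVec] at hu
    funext i
    have h1 := congrFun hu i
    simpa [Finset.sum_apply, Pi.single_apply] using h1
  | succ n ih =>
    intro r d hd hm
    set φ : MvPolynomial (Fin (n + 1)) k →+* MvPolynomial (Fin n) k :=
      (killVar k (0 : Fin (n + 1)) : MvPolynomial (Fin (n + 1)) k →+* MvPolynomial (Fin n) k)
      with hφ
    have hK : Kill φ (X 0) := kill_killVar k 0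
    have hd' := hd.shiftMap hK
    obtain ⟨f', hf'⟩ := ih hd' (fun m i j => by
      rw [← hm (m + 1) i j]
      exact constantCoeff_killVar 0 (d (m + 1) i j))
    choose f hf using fun i => hK.lift (f' i)
    -- `d 0` kills `f'` modulo the variable
    have hz : ∀ i, (d 0).map φ *ᵥ f' i = 0 := by
      intro i
      cases n with
      | zero =>
        have h0 : (d 0).map φ = 0 := by
          ext1 a b
          have h1 := MvPolynomial.eq_C_of_isEmpty (φ (d 0 a b))
          have h2 : constantCoeff (φ (d 0 a b)) = 0 := by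
            rw [← hm 0 a b]
            exact constantCoeff_killVar 0 (d 0 a b)
          rw [constantCoeff_eq] at h2
          rw [Matrix.map_apply, h1, h2]; simp
        rw [h0, zero_mulVec]
      | succ n =>
        obtain ⟨u, hu⟩ := hf'.soc i 0
        obtain ⟨w, rfl⟩ := hK.lift u
        have h1 : (X 0 : MvPolynomial (Fin (n + 1)) k) • ((d 0).map φ *ᵥ f' i) = 0 := by
          rw [← mulVec_smul, hu, ← map_mulVec', ← map_mulVec', (hd 0 _).2 ⟨w, rfl⟩]
          funext j; simp
        exact (kill_killVar k (0 : Fin (n + 1))).cancel h1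
    choose v hv using fun i => hK.div (d 0 *ᵥ f i) (by rw [map_mulVec', hf, hz])
    refine ⟨v, ?_, ?_⟩
    · intro i l
      refine Fin.cases ⟨f i, (hv i).symm⟩ (fun l => ?_) l
      obtain ⟨u', hu'⟩ := hf'.soc i l
      obtain ⟨u, rfl⟩ := hK.lift u'
      have h1 : φ (X l.succ) = X l := by
        have := killVar_succAbove k (0 : Fin (n + 1)) l
        rwa [Fin.zero_succAbove] at this
      have h2 : φ ∘ ((X l.succ : MvPolynomial (Fin (n + 1)) k) • f i - d 1 *ᵥ u) = 0 := by
        rw [comp_sub, comp_smul, h1, hf, map_mulVec', sub_eq_zero]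
        exact hu'
      obtain ⟨h, hh⟩ := hK.div _ h2
      refine ⟨h, ?_⟩
      apply hK.cancel'
      have h3 : (X l.succ : MvPolynomial (Fin (n + 1)) k) • f i
          = d 1 *ᵥ u + (X 0 : MvPolynomial (Fin (n + 1)) k) • h := by
        rw [← hh]; abel
      rw [smul_comm, ← hv, ← mulVec_smul, h3, mulVec_add, (hd 0 _).2 ⟨u, rfl⟩, zero_add,
        mulVec_smul]
    · intro c ⟨h, hh⟩
      have h1 : d 0 *ᵥ (∑ i, (C (c i) : MvPolynomial (Fin (n + 1)) k) • f i
          - (X 0 : MvPolynomial (Fin (n + 1)) k) • h) = 0 := by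
        rw [mulVec_sub, mulVec_smul, ← hh, mulVec_sum, Finset.smul_sum, sub_eq_zero]
        exact Finset.sum_congr rfl fun i _ => by rw [mulVec_smul, hv, smul_comm]
      obtain ⟨u, hu⟩ := (hd 0 _).1 h1
      refine hf'.indep c ⟨φ ∘ u, ?_⟩
      have h2 := congrArg (fun w => φ ∘ w) hu
      simp only [comp_sub, map_sum_smul, hK.map_smul_x, sub_zero, map_mulVec'] at h2
      have hC : ∀ a : k, φ (C a) = C a := fun a => by simp [hφ, algHom_C]
      simpa only [hC, hf] using h2

end Pool.Agent.MP_05ef64_al
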