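import Pool.Agent.MP_05ef64_al.Graded

set_option autoImplicit false

/-!
# The ideal of a monomial curve
-/

namespace Pool.Agent.MP_05ef64_al

open Matrix MvPolynomial

variable {k : Type*} [Field k] {e : ℕ} (g : Fin e → ℕ)

variable (k) in
/-- The parametrization `x_l ↦ t^{g_l}`. -/
noncomputable abbrev par : MvPolynomial (Fin e) k →ₐ[k] Polynomial k :=
  MvPolynomial.aeval (fun l : Fin e => (Polynomial.X : Polynomial k) ^ g l)

lemma par_monomial (u : Fin e →₀ ℕ) (c : k) :
    par k g (monomial u c) = Polynomial.monomial (Finsupp.weight g u) c := by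
  rw [par, aeval_monomial, weight_eq, ← Polynomial.C_mul_X_pow_eq_monomial]
  congr 1
  rw [Finsupp.prod_fintype _ _ (fun i => pow_zero _), ← Finset.prod_pow_eq_pow_sum]
  exact Finset.prod_congr rfl fun i _ => by rw [← pow_mul, mul_comm]

lemma par_whc (m : ℕ) (p : MvPolynomial (Fin e) k) :
    par k g (weightedHomogeneousComponent g m p)
      = Polynomial.monomial m ((par k g p).coeff m) := by
  induction p using MvPolynomial.induction_on' with
  | monomial u a =>
    rw [par_monomial, Polynomial.coeff_monomial]
    split_ifs with h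
    · rw [weightedHomogeneousComponent_of_mem (m := m) (n := Finsupp.weight g u)
        (isWeightedHomogeneous_monomial g u a rfl), if_pos h.symm, par_monomial, h]
    · rw [weightedHomogeneousComponent_of_mem (m := m) (n := Finsupp.weight g u)
        (isWeightedHomogeneous_monomial g u a rfl), if_neg (Ne.symm h)]
      simp
  | add p q hp hq => simp only [map_add, hp, hq, Polynomial.coeff_add]

lemma par_constantCoeff (hg : ∀ i, 0 < g i) (p : MvPolynomial (Fin e) k) :
    (par k g p).coeff 0 = constantCoeff p := by
  induction p using MvPolynomial.induction_on' with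
  | monomial u a =>
    rw [par_monomial, Polynomial.coeff_monomial, constantCoeff_monomial]
    by_cases h : u = 0
    · subst h; simp
    · rw [if_neg h, if_neg]
      exact fun h' => h (weight_pos g hg h')
  | add p q hp hq => simp only [map_add, hp, hq, Polynomial.coeff_add]

lemma mem_ker_par {p : MvPolynomial (Fin e) k} : p ∈ RingHom.ker (par k g) ↔ par k g p = 0 :=
  RingHom.mem_ker

lemma whc_mem {p : MvPolynomial (Fin e) k} (hp : p ∈ RingHom.ker (par k g)) (m : ℕ) :
    weightedHomogeneousComponent g m p ∈ RingHom.ker (par k g) := by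
  rw [mem_ker_par] at hp ⊢
  rw [par_whc, hp]
  simp

lemma const_mem (hg : ∀ i, 0 < g i) {p : MvPolynomial (Fin e) k}
    (hp : p ∈ RingHom.ker (par k g)) : constantCoeff p = 0 := by
  rw [mem_ker_par] at hp
  rw [← par_constantCoeff g hg, hp]
  simp

/-- Binomials in the ideal. -/
lemma binom_mem {u v : Fin e →₀ ℕ} (h : Finsupp.weight g u = Finsupp.weight g v) :
    monomial u (1 : k) - monomial v 1 ∈ RingHom.ker (par k g) := by
  rw [mem_ker_par, map_sub, par_monomial, par_monomial, h, sub_self]

/-- The ideal is spanned by binomials as a vector space. -/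
lemma mem_span_binom {p : MvPolynomial (Fin e) k} (hp : p ∈ RingHom.ker (par k g)) :
    p ∈ Submodule.span k {b : MvPolynomial (Fin e) k | ∃ u v : Fin e →₀ ℕ,
      Finsupp.weight g u = Finsupp.weight g v ∧ b = monomial u 1 - monomial v 1} := by
  classical
  set W := Submodule.span k {b : MvPolynomial (Fin e) k | ∃ u v : Fin e →₀ ℕ,
      Finsupp.weight g u = Finsupp.weight g v ∧ b = monomial u 1 - monomial v 1}
  let σ : ℕ → (Fin e →₀ ℕ) := fun n =>
    if h : ∃ u : Fin e →₀ ℕ, Finsupp.weight g u = n then h.choose else 0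
  have hσ : ∀ u : Fin e →₀ ℕ, Finsupp.weight g (σ (Finsupp.weight g u)) = Finsupp.weight g u := by
    intro u
    have h : ∃ v : Fin e →₀ ℕ, Finsupp.weight g v = Finsupp.weight g u := ⟨u, rfl⟩
    simp only [σ, dif_pos h]
    exact h.choose_spec
  let ψ : Polynomial k →ₗ[k] MvPolynomial (Fin e) k :=
    (Polynomial.basisMonomials k).constr k (fun n => monomial (σ n) (1 : k))
  have hψ : ∀ n (c : k), ψ (Polynomial.monomial n c) = c • monomial (σ n) (1 : k) := by
    intro n c
    have h1 : Polynomial.monomial n c = c • Polynomial.basisMonomials k n := by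
      rw [Polynomial.coe_basisMonomials, Polynomial.smul_monomial, smul_eq_mul, mul_one]
    rw [h1, map_smul]
    congr 1
    exact Module.Basis.constr_basis _ _ _ _
  have key : ∀ q : MvPolynomial (Fin e) k, q - ψ (par k g q) ∈ W := by
    intro q
    induction q using MvPolynomial.induction_on' with
    | monomial u a =>
      rw [par_monomial, hψ]
      have h1 : monomial u a = a • monomial u (1 : k) := by
        rw [MvPolynomial.smul_monomial, smul_eq_mul, mul_one]
      rw [h1, ← smul_sub]
      exact W.smul_mem _ (Submodule.subset_span ⟨u, _, (hσ u).symm, rfl⟩)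
    | add p q hp hq =>
      have : p + q - ψ (par k g (p + q)) = (p - ψ (par k g p)) + (q - ψ (par k g q)) := by
        rw [map_add, map_add]; abel
      rw [this]
      exact W.add_mem hp hq
  have := key p
  rw [mem_ker_par] at hp
  rwa [hp, map_zero, sub_zero] at this

/-- Linear maps vanishing on all `X l * binomial` vanish on `𝔪 I`, in a strong form. -/
lemma functional_mul {V : Type*} [AddCommGroup V] [Module k V]
    (lam : MvPolynomial (Fin e) k →ₗ[k] V)
    (h : ∀ (l : Fin e) (u v : Fin e →₀ ℕ), Finsupp.weight g u = Finsupp.weight g v →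
      lam (monomial (u + Finsupp.single l 1) 1) = lam (monomial (v + Finsupp.single l 1) 1))
    (q p : MvPolynomial (Fin e) k) (hp : p ∈ RingHom.ker (par k g)) :
    lam (q * p) = constantCoeff q • lam p := by
  have hX : ∀ (l : Fin e) (p : MvPolynomial (Fin e) k), p ∈ RingHom.ker (par k g) →
      lam (X l * p) = 0 := by
    intro l p hp
    have h1 := mem_span_binom g hp
    clear hp
    induction h1 using Submodule.span_induction with
    | mem b hb =>
      obtain ⟨u, v, huv, rfl⟩ := hb
      rw [mul_sub, map_sub, X, monomial_mul, monomial_mul, mul_one, add_comm _ u, add_comm _ v,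
        h l u v huv, sub_self]
    | zero => simp
    | add a b _ _ ha hb => rw [mul_add, map_add, ha, hb, add_zero]
    | smul c a _ ha => rw [mul_smul_comm, map_smul, ha, smul_zero]
  induction q using MvPolynomial.induction_on generalizing p with
  | C a =>
    rw [constantCoeff_C, ← smul_eq_C_mul, map_smul]
  | add q r hq hr => rw [add_mul, map_add, hq p hp, hr p hp, map_add, add_smul]
  | mul_X q l hq =>
    rw [mul_comm q (X l), mul_assoc, hX l _ (Ideal.mul_mem_left _ _ hp)]
    simp

/-! ### Weights and killing a variable -/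

section kill
variable {m : ℕ} (g : Fin (m + 1) → ℕ) (i : Fin (m + 1))

/-- `n` lies in the semigroup and `n - g_i` does not (Apery set). -/
def Ap (n : ℕ) : Prop :=
  (∃ u : Fin (m + 1) →₀ ℕ, Finsupp.weight g u = n) ∧
    ∀ u : Fin (m + 1) →₀ ℕ, Finsupp.weight g u = n → u i = 0

/-- Maximal elements of the Apery set. -/
def MaxAp (n : ℕ) : Prop := Ap g i n ∧ ∀ l : Fin m, ¬ Ap g i (n + g (i.succAbove l))

/-- Extend an exponent vector by zero at `i`. -/
noncomputable def ext0 (u : Fin m →₀ ℕ) : Fin (m + 1) →₀ ℕ :=
  Finsupp.equivFunOnFinite.symm (Fin.insertNth (α := fun _ => ℕ) i 0 u)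

@[simp] lemma ext0_self (u : Fin m →₀ ℕ) : ext0 i u i = 0 := by simp [ext0]

@[simp] lemma ext0_succAbove (u : Fin m →₀ ℕ) (l : Fin m) : ext0 i u (i.succAbove l) = u l := by
  simp [ext0]

/-- Restrict an exponent vector. -/
noncomputable def res0 (u : Fin (m + 1) →₀ ℕ) : Fin m →₀ ℕ :=
  Finsupp.equivFunOnFinite.symm (fun l => u (i.succAbove l))

@[simp] lemma res0_apply (u : Fin (m + 1) →₀ ℕ) (l : Fin m) : res0 i u l = u (i.succAbove l) := by
  simp [res0]

lemma ext0_res0 {u : Fin (m + 1) →₀ ℕ} (hu : u i = 0) : ext0 i (res0 i u) = u := by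
  ext l
  rcases eq_or_ne l i with rfl | hl
  · simp [hu]
  · obtain ⟨j, rfl⟩ := Fin.exists_succAbove_eq hl
    simp

@[simp] lemma res0_ext0 (u : Fin m →₀ ℕ) : res0 i (ext0 i u) = u := by
  ext l; simp

lemma weight_ext0 (u : Fin m →₀ ℕ) :
    Finsupp.weight g (ext0 i u) = Finsupp.weight (fun l => g (i.succAbove l)) u := by
  rw [weight_eq, weight_eq, Fin.sum_univ_succAbove _ i]
  simp

lemma secVar_monomial (u : Fin m →₀ ℕ) (c : k) :
    secVar k i (monomial u c) = monomial (ext0 i u) c := by
  rw [secVar, aeval_monomial, monomial_eq, Finsupp.prod_fintype _ _ (fun i => pow_zero _),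
    Finsupp.prod_fintype _ _ (fun i => pow_zero _), Fin.prod_univ_succAbove _ i]
  simp [MvPolynomial.algebraMap_eq]

lemma killVar_monomial (u : Fin (m + 1) →₀ ℕ) (c : k) :
    killVar k i (monomial u c) = if u i = 0 then monomial (res0 i u) c else 0 := by
  split_ifs with h
  · conv_lhs => rw [← ext0_res0 i h, ← secVar_monomial, killVar_secVar]
  · rw [monomial_eq, Finsupp.prod_fintype _ _ (fun i => pow_zero _),
      Fin.prod_univ_succAbove _ i]
    simp [zero_pow h]

/-- Coefficients in Apery degrees factor through `x_i = 0`. -/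
lemma par_killVar {n : ℕ} (hn : Ap g i n) (p : MvPolynomial (Fin (m + 1)) k) :
    (par k (fun l => g (i.succAbove l)) (killVar k i p)).coeff n = (par k g p).coeff n := by
  induction p using MvPolynomial.induction_on' with
  | monomial u a =>
    rw [killVar_monomial, par_monomial]
    split_ifs with h
    · rw [par_monomial, ← weight_ext0 g i, ext0_res0 i h]
    · rw [map_zero, Polynomial.coeff_zero, Polynomial.coeff_monomial, if_neg]
      intro h'
      exact h (hn.2 u h')
  | add p q hp hq => simp only [map_add, Polynomial.coeff_add, hp, hq]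

lemma par_secVar (p : MvPolynomial (Fin m) k) :
    par k g (secVar k i p) = par k (fun l => g (i.succAbove l)) p := by
  induction p using MvPolynomial.induction_on' with
  | monomial u a => rw [secVar_monomial, par_monomial, par_monomial, weight_ext0]
  | add p q hp hq => simp only [map_add, hp, hq]

variable (k) in
/-- The image of the ideal modulo `x_i`. -/
noncomputable def Ibar : Ideal (MvPolynomial (Fin m) k) :=
  (RingHom.ker (par k g)).map (killVar k i)

lemma mem_Ibar {p : MvPolynomial (Fin m) k} :
    p ∈ Ibar k g i ↔ ∃ q ∈ RingHom.ker (par k g), killVar k i q = p := by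
  rw [Ibar, Ideal.mem_map_iff_of_surjective _ (fun p => ⟨secVar k i p, killVar_secVar k i p⟩)]

/-- Functionals in Apery degrees vanish on `Ibar`. -/
lemma coeff_eq_zero_of_mem_Ibar {n : ℕ} (hn : Ap g i n) {p : MvPolynomial (Fin m) k}
    (hp : p ∈ Ibar k g i) : (par k (fun l => g (i.succAbove l)) p).coeff n = 0 := by
  obtain ⟨q, hq, rfl⟩ := (mem_Ibar g i).1 hp
  rw [par_killVar g i hn, (mem_ker_par g).1 hq, Polynomial.coeff_zero]

/-- Monomials of non-Apery degree lie in `Ibar`. -/
lemma monomial_mem_Ibar {u : Fin m →₀ ℕ}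
    (hu : ¬ Ap g i (Finsupp.weight (fun l => g (i.succAbove l)) u)) :
    monomial u (1 : k) ∈ Ibar k g i := by
  rw [← weight_ext0 g i] at hu
  have : ∃ v : Fin (m + 1) →₀ ℕ, Finsupp.weight g v = Finsupp.weight g (ext0 i u) ∧ v i ≠ 0 := by
    by_contra hcon
    push Not at hcon
    exact hu ⟨⟨_, rfl⟩, hcon⟩
  obtain ⟨v, hv, hvi⟩ := this
  refine (mem_Ibar g i).2 ⟨_, binom_mem g hv.symm, ?_⟩
  rw [map_sub, killVar_monomial, killVar_monomial, if_neg hvi, if_pos (ext0_self i u), sub_zero,
    res0_ext0]

/-- Criterion for membership in `Ibar`. -/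
lemma mem_Ibar_of_coeff {p : MvPolynomial (Fin m) k}
    (hp : ∀ n, Ap g i n → (par k (fun l => g (i.succAbove l)) p).coeff n = 0) :
    p ∈ Ibar k g i := by
  classical
  rw [← sum_weightedHomogeneousComponent (fun l => g (i.succAbove l)) p,
    finsum_eq_sum _ (weightedHomogeneousComponent_finsupp p)]
  refine Ideal.sum_mem _ fun n _ => ?_
  by_cases hn : Ap g i n
  · refine (mem_Ibar g i).2 ⟨secVar k i (weightedHomogeneousComponent
      (fun l => g (i.succAbove l)) n p), ?_, killVar_secVar k i _⟩
    rw [mem_ker_par, par_secVar, par_whc, hp n hn]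
    simp
  · rw [MvPolynomial.as_sum (weightedHomogeneousComponent (fun l => g (i.succAbove l)) n p)]
    refine Ideal.sum_mem _ fun u hu => ?_
    have h1 : Finsupp.weight (fun l => g (i.succAbove l)) u = n := by
      rw [mem_support_iff, coeff_weightedHomogeneousComponent] at hu
      by_contra h
      exact hu (if_neg h)
    have h2 : monomial u (coeff u (weightedHomogeneousComponent
        (fun l => g (i.succAbove l)) n p)) =
        C (coeff u (weightedHomogeneousComponent (fun l => g (i.succAbove l)) n p)) *
          monomial u (1 : k) := by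
      rw [C_mul_monomial, mul_one]
    rw [h2]
    apply Ideal.mul_mem_left
    apply monomial_mem_Ibar
    rw [h1]
    exact hn

end kill

end Pool.Agent.MP_05ef64_al
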